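import Pool.Agent.Helper71.HN.SheetE

/-!
Project HO (MP_2a8cc2_nt; to replace NearSparseSquares and Z): the theorem Z (ODD degree, in the
mean over the places near sparse squares) for S-INTEGRAL points, with the places above `S`, with
`r = p / q`, `p`, `q ∈ K` sums of terms `c γ`, `c ∈ K` of small height, `γ ∈ Γ`; and near a rational
Weierstrass point `e` (`F e = 0`, `z = 1 / (x - e)` near `F'(e) r ^ 2`, any degree). The abstract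
theorem is the one of SheetZ (HEARTZ). -/

set_option autoImplicit false

namespace Pool.Agent.Helper71.HO

open Polynomial Filter Finset Pool.Agent.Helper70.SUB Pool.Agent.Helper77.SUBK
  Pool.Agent.Helper70.SUBL Pool.Agent.Helper70.SUBW Pool.Agent.Helper71.JN Pool.Agent.Helper71.HN
  Pool.Agent.Helper71.HZ Pool.Agent.Helper71.HE

/-- sequences in `M` which are `S`-integral up to slow denominators -/
def IntT {M : Type} [Field M] (S : Finset ℕ) (φ : Ultrafilter ℕ) (X : ℕ → ℝ) (z : ℕ → M) :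
    Prop :=
  ∀ ε : ℝ, 0 < ε → ∀ᶠ j in (φ : Filter ℕ), ∃ D : ℕ, D ≠ 0 ∧ (D : ℝ) ≤ X j ^ ε ∧
    SI S ((D : M) * z j)

/-- (BRGO) from the sequences to the abstract part, as `Helper71.HZ.BRGZ`; `R (o, σ) = p o σ / q o σ`
for `o ∈ plc S₀`, and `0` at the places above `S \ S₀` -/
def ST_BRGO : Prop := ∀ (M : Type) [Field M] [NumberField M] [IsGalois ℚ M] (S S₀ : Finset ℕ)
  (P : PF S M) (φ : Ultrafilter ℕ) (g : ℕ) (a : ℕ → ℕ → M) (m : ℕ → ℕ) (x y : ℕ → M)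
  (X : ℕ → ℝ) (p q : Option ℕ → (M ≃ₐ[ℚ] M) → ℕ → M) (A η : ℝ), (∀ p ∈ S, p.Prime) →
  S₀ ⊆ S → 1 ≤ g → 0 < η → Tendsto X (φ : Filter ℕ) atTop →
  (∀ o ∈ plc S₀, ∀ σ, SpM P φ X (p o σ) ∧ SpM P φ X (q o σ)) →
  (∀ i, i < 2 * g + 1 → Slw P φ X (a i)) → IntT S₀ φ X (fun j => (m j : M) * x j) →
  IntT S₀ φ X (fun j => (m j : M) ^ (g + 1) * y j) →
  (∀ᶠ j in (φ : Filter ℕ), (polR M g (fun i => a i j)).Separable ∧
    y j ^ 2 = (polR M g (fun i => a i j)).eval (x j) ∧ m j ≠ 0 ∧ (m j : ℝ) ≤ X j ^ A ∧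
    (∀ o ∈ plc S, ∀ σ : M ≃ₐ[ℚ] M, P.nv o (σ (x j)) ≤ X j ^ A) ∧
    (∀ o ∈ plc S₀, ∀ σ : M ≃ₐ[ℚ] M, q o σ j ≠ 0) ∧
    (Fintype.card (M ≃ₐ[ℚ] M) : ℝ) * Real.log (m j) +
      ∑ o ∈ plc S₀, ∑ σ : M ≃ₐ[ℚ] M,
        Real.log (max 1 (P.nv o (σ (x j - (p o σ j / q o σ j) ^ 2)))) +
      η * Real.log (X j) ≤
      1 / 2 * ∑ o ∈ plc S₀, ∑ σ : M ≃ₐ[ℚ] M, Real.log (max 1 (P.nv o (σ (x j))))) → False

/-- the sum of the logarithmic sizes at the places above `plc S₀` -/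
noncomputable def LamO {M : Type} [Field M] [NumberField M] {S : Finset ℕ} (P : PF S M)
    (S₀ : Finset ℕ) (x : M) : ℝ :=
  ∑ o ∈ plc S₀, ∑ σ : M ≃ₐ[ℚ] M, Real.log (max 1 (P.nv o (σ x)))

/-- (T1O) the theorem over `M` (SLW, SPW, SPH, BRGO), as `Helper2.HN.T1Z`; `X = exp (LamO P S₀ x)`;
at the places above `S \ S₀`: `nv o (σ x) ≤ m` (`m x` is `S₀`-integral); `m ≤ X` -/
def ST_T1O : Prop := ∀ (M : Type) [Field M] [NumberField M] [IsGalois ℚ M] (S S₀ : Finset ℕ)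
  (P : PF S M) (t g : ℕ) (κ θ B : ℝ), (∀ p ∈ S, p.Prime) → S₀ ⊆ S → 1 ≤ g → θ < 1 / 2 →
  ∃ C : ℝ, 0 < C ∧ ∀ (F : M[X]) (x y : M) (H : ℝ) (m : ℕ)
    (c d a b : Option ℕ → (M ≃ₐ[ℚ] M) → Fin t → M), 0 ≤ H → F.natDegree = 2 * g + 1 →
    F.Separable → y ^ 2 = F.eval x →
    (∀ i, HBZ P.emb (Real.exp (κ * (H + 1))) (F.coeff i)) → m ≠ 0 → SI S₀ ((m : M) * x) →
    (∀ o ∈ plc S₀, ∀ σ, (∀ i, SV S (a o σ i)) ∧ (∀ i, SV S (b o σ i)) ∧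
      (∀ i, HBZ P.emb (Real.exp (κ * (H + 1))) (c o σ i)) ∧
      (∀ i, HBZ P.emb (Real.exp (κ * (H + 1))) (d o σ i)) ∧
      HBZ P.emb (Real.exp (B * (LamO P S₀ x + H + 1))) (∑ i, c o σ i * a o σ i) ∧
      HBZ P.emb (Real.exp (B * (LamO P S₀ x + H + 1))) (∑ i, d o σ i * b o σ i) ∧
      ∑ i, d o σ i * b o σ i ≠ 0) →
    (Fintype.card (M ≃ₐ[ℚ] M) : ℝ) * Real.log m +
      ∑ o ∈ plc S₀, ∑ σ : M ≃ₐ[ℚ] M, Real.log (max 1 (P.nv o (σ (x -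
        F.coeff (2 * g + 1) * ((∑ i, c o σ i * a o σ i) / ∑ i, d o σ i * b o σ i) ^ 2)))) ≤
      θ * LamO P S₀ x →
    LamO P S₀ x ≤ C * (H + 1)

/-- (SUBO) the substitution `x = e + 1 / z` at a root `e` of `F`: `G = z ^ (2 g + 2) F(e + 1 / z)` has
degree `2 g + 1` and leading coefficient `F'(e)` -/
def ST_SUBO : Prop := ∀ (K : Type) [Field K] [CharZero K] (F : K[X]) (g : ℕ) (e z x y : K),
  (F.natDegree = 2 * g + 2 ∨ F.natDegree = 2 * g + 1) → 1 ≤ g → F.Separable → F.eval e = 0 →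
  z ≠ 0 → x = e + 1 / z → y ^ 2 = F.eval x →
  ∃ G : K[X], G.natDegree = 2 * g + 1 ∧ G.Separable ∧
    G.coeff (2 * g + 1) = F.derivative.eval e ∧ (y * z ^ (g + 1)) ^ 2 = G.eval z ∧
    ∀ i, i ≤ 2 * g + 1 → G.coeff i = (Polynomial.taylor e F).coeff (2 * g + 2 - i)

/-- (FINO) the final theorem (T1O, SUBO, HCO, HTT, FLDE, EMB). T1O with `S₀ = S`, `S = S'` of FLDE, for
`F`, `z = x`, resp. for `G`, `z` (SUBO). `nv o (σ (i z)) = pv w o (P.emb (σ (i z)))` for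
`o ∈ plc S`, so with EMB `LamO P S (i z) = (card / [K : ℚ]) ∑_o ∑_τ log max 1 (pv w o (τ z))`, and the
same for the differences. `h z ≤ C (log m + LamP (i z) + 1)` (HTT), the places above `S' \ S`
contribute at most `log m` each to `LamP`, and `[K : ℚ] log m ≤ 1/2 ∑_o ∑_τ log max 1 (pv w o (τ z))` -/
def ST_FINO : Prop := ∀ (K : Type) [Field K] [NumberField K] (h : K → ℝ), IsHt K h →
  ∀ (S : Finset ℕ) (w : ℕ → AbsoluteValue ℂ ℝ), Ext S w →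
  ∀ (Γ : Subgroup Kˣ) (t d : ℕ) (κ θ B : ℝ), Γ.FG → 3 ≤ d → θ < 1 / 2 →
    ∃ C₁ C₂ : ℝ, 0 < C₁ ∧ 0 < C₂ ∧ ∀ F : K[X], F.natDegree = d → F.Separable →
      ∀ x y : K, y ^ 2 = F.eval x → ∀ H : ℝ, (∀ i, h (F.coeff i) ≤ H) →
        ∀ z c : K, ((Odd d ∧ x = z ∧ c = F.coeff d) ∨
          ∃ e : K, h e ≤ κ * (H + 1) ∧ F.eval e = 0 ∧ z ≠ 0 ∧ x = e + 1 / z ∧
            c = F.derivative.eval e) →
        ∀ (m : ℕ) (p q : Option ℕ → (K →+* ℂ) → K), m ≠ 0 → SI S ((m : K) * z) →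
          (∀ o ∈ plc S, ∀ τ, SumOf h Γ t (κ * (H + 1)) (p o τ) ∧
            SumOf h Γ t (κ * (H + 1)) (q o τ) ∧ h (p o τ) ≤ B * h x ∧ h (q o τ) ≤ B * h x ∧
            q o τ ≠ 0) →
          (Module.finrank ℚ K : ℝ) * Real.log m +
            ∑ o ∈ plc S, ∑ τ : K →+* ℂ,
              Real.log (max 1 (pv w o (τ (z - c * (p o τ / q o τ) ^ 2)))) ≤
            θ * ∑ o ∈ plc S, ∑ τ : K →+* ℂ, Real.log (max 1 (pv w o (τ z))) →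
          h x ≤ C₁ * H + C₂

end Pool.Agent.Helper71.HO
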