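import Pool.Agent.Helper71.HN.SheetZ

/-!
Project HE (MP_2a8cc2_nt; to replace FreeOrdinate): EVEN degree. `F ∈ K[X]` of degree `2 g + 2` with
leading coefficient in `Γ K ^ 2` (or `F e ∈ Γ K ^ 2` and `z = 1 / (x - e)` instead of `x`, any
degree). All points `(x, y)` for which `x` is `S`-integral up to denominators `exp O(H + 1)` and for
which, at ONE place `v` (archimedean or above `S`), there is a quotient `r` of sparse numbers with
`max 1 |x - r|_v ≤ |x|_v exp (- δ h(x))`, satisfy `h(x) ≤ C₁ H + C₂`. (`x` itself sparse: `r = x`;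
this is FreeOrdinate.)

Abstract part: `x, y ∈ D.O` with `y ^ 2 = f x`, `f` monic of degree `2 g + 2` over `F`; if
`nu i₀ (x - R) < nu i₀ x`, `1 < nu i₀ x` for one place `i₀` and one `R ∈ K`: contradiction. -/

set_option autoImplicit false

namespace Pool.Agent.Helper71.HE

open Polynomial Filter Finset Pool.Agent.Helper70.SUB Pool.Agent.Helper77.SUBK
  Pool.Agent.Helper70.SUBL Pool.Agent.Helper70.SUBW Pool.Agent.Helper71.JN Pool.Agent.Helper71.HN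
  Pool.Agent.Helper71.HZ

/-! ## E1. The abstract theorem -/

structure HQ {F Ω : Type} [Field F] [Field Ω] [Algebra F Ω] {I : Type} [Fintype I] {r : ℕ}
    (D : SSF F Ω I r) (g : ℕ) (f : F[X]) (x y : Ω) (i₀ : I) (R : Ω) : Prop where
  hg : 1 ≤ g
  fm : f.Monic
  fd : f.natDegree = 2 * g + 2
  fs : f.Separable
  ic : ∀ z : Ω, IsIntegral D.R z → z ∈ D.O
  xO : x ∈ D.O
  yO : y ∈ D.O
  cu : y ^ 2 = aeval x f
  RR : R ∈ D.K
  x1 : 1 < D.nu i₀ x
  xR : D.nu i₀ (x - R) < D.nu i₀ x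

/-- (PADE) helper77's form: only a dimension count. `f = X ^ (2 g + 2) (1 + ..)`, `Y` = the Laurent
expansion of the square root (`Y ~ X ^ (g + 1)`) truncated at a high order (BIN). Unknown: the
`w + 1` coefficients of `A` and the `w - g` coefficients of `B`; conditions: the coefficients of
`X ^ w, .., X ^ (-(w - g) + 1)` of `A + B Y`, `2 w - g` conditions. `B = 0` gives `A = 0`; the
leading terms of `A` and `B Y` cancel. At a place with `v x = exp lam > 1` and `y` near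
`x ^ (g + 1)`: `v (y - Y(x)) ≤ exp (- J lam)`, `J` large, since
`(y - Y) (y + Y) = f - Y ^ 2` and `v (y + Y) = exp ((g + 1) lam)` -/
def ST_PADE : Prop := ∀ (F : Type) [Field F] [CharZero F] (g w : ℕ) (f : F[X]), f.Monic →
  f.natDegree = 2 * g + 2 → g + 1 ≤ w → ∃ A B : F[X], B ≠ 0 ∧ A.natDegree ≤ w ∧
    A.natDegree = B.natDegree + (g + 1) ∧ A.leadingCoeff = -B.leadingCoeff ∧
    ∀ (Ω : Type) [Field Ω] [CharZero Ω] [Algebra F Ω] (v : AbsoluteValue Ω ℝ) (x y : Ω)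
      (lam : ℝ), Ul v → (∀ c : F, c ≠ 0 → v (algebraMap F Ω c) = 1) → y ^ 2 = aeval x f →
      0 < lam → v x = Real.exp lam → v (y - x ^ (g + 1)) < Real.exp ((g + 1) * lam) →
      v (aeval x A + aeval x B * y) ≤ Real.exp (-((w - g) * lam))

/-- (ALGE) `x` is algebraic over `K` (PADE, GSK), after `Helper52.HN.ALGH`. Suppose not. Basis
(independent over `K`, since `f` is not a square in `K[X]`: `f` is separable of positive degree):
`x ^ n` (`n < N`) and `x ^ (n - g - 1) y` (`g + 1 ≤ n < N`), all in `D.O`, in the order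
`.., x ^ n, x ^ (n - g - 1) y, x ^ (n + 1), ..`. At a place `i` with `nu i x ≤ 1` the family is the
basis (`nu i y ≤ 1`). At a place with `nu i x = exp lam_i > 1`: `(y - x ^ (g + 1)) (y + x ^ (g + 1))
= f x - x ^ (2 g + 2)` is smaller than `exp (2 (g + 1) lam_i)`, so there is a sign `s = ± 1` with
`nu i (s y - x ^ (g + 1)) < exp ((g + 1) lam_i)`; `G = A(x) + B(x) (s y)` of PADE,
`w' = natDegree A ≤ w`. Family: `G ^ l x ^ j` for the vector `x ^ (n - g - 1) y`, `n = l w' + j`,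
`j < w'`, `1 ≤ l` (for `n < w'`: the vector itself); its leading term is
`-(s / 2) (2 lc A) ^ l x ^ (n - g - 1) y` (`G ^ l = P + Q y` with `P + Q Y` small and
`P - Q Y ~ (2 A) ^ l`; or by induction: the product of `P + Q (s y)`, `P ~ -Q X ^ (g + 1)`, with
`A + B (s y)` is of the same kind, with leading coefficient `2 a b`), size
`≤ exp (- l (w - g) lam_i + w lam_i)`; and for the vector `x ^ n`: `x ^ n` (size `exp (n lam_i)`),
but `(x - R) ^ n` at the place `i₀` (size `≤ exp (n c)`, `0 ≤ c < lam_{i₀}`). With `l ≥ n / w - 1`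
the exponent of the product is at most `N ^ 2 / 2 ((g / w) ∑ lam_i - (lam_{i₀} - c)) + O(N) < 0` for
`w` and then `N` large -/
def ST_ALGE : Prop := ∀ (F Ω : Type) [Field F] [Field Ω] [CharZero Ω] [Algebra F Ω] (I : Type)
  [Fintype I] (r : ℕ) (D : SSF F Ω I r) (g : ℕ) (f : F[X]) (x y : Ω) (i₀ : I) (R : Ω),
  HQ D g f x y i₀ R → IsIntegral D.K x

/-- (WPTE) `δ x / y` is integral at every point (as `Helper17.HN.WPT`; for `v a > 1`:
`v b = v a ^ (g + 1)`, so `v (δa / b) ≤ v a ^ (-g) < 1`) -/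
def ST_WPTE : Prop := ∀ (F N : Type) [Field F] [Field N] (τ : F →+* N) (v : AbsoluteValue N ℝ)
  (s : Prop) (δ : N → N) (g : ℕ) (f : F[X]) (a b : N), Ul v → Dv δ → Bd v s δ →
  (∀ c, c ≠ 0 → v (τ c) = 1) → (∀ c, δ (τ c) = 0) → 1 ≤ g → f.Monic →
  f.natDegree = 2 * g + 2 → f.Separable → b ^ 2 = (f.map τ).eval a → b ≠ 0 →
  v (δ a / b) ≤ 1 ∧ (s → v (δ a / b) < 1)

/-- (NPTE) `δ x / y` near infinity: `δa / b - e δR / R ^ (g + 1) =
(δ(a - R) R ^ (g + 1) - e δR (b - e R ^ (g + 1))) / (R ^ (g + 1) b)` -/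
def ST_NPTE : Prop := ∀ (N : Type) [Field N] (v : AbsoluteValue N ℝ) (s : Prop) (δ : N → N)
  (g : ℕ) (lam : ℝ) (a b R e : N), Ul v → Dv δ → Bd v s δ → 0 < lam → (e = 1 ∨ e = -1) →
  v R = Real.exp lam → v (a - R) < Real.exp lam →
  v (b - e * R ^ (g + 1)) < Real.exp ((g + 1) * lam) →
  v (δ a / b - e * δ R / R ^ (g + 1)) < Real.exp (-(g * lam))

/-- (TRE) the contradiction (as `Helper28.HN.TRZ`, with WPTE, NPTE). `lam = log (nu i₀ x) > 0`,
`nu i₀ R = exp lam`; the sign `e` as in ALGE: `nu i₀ (y - e x ^ (g + 1)) < exp ((g + 1) lam)`, so the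
same for `R`. (a) `T ∈ R`, (b) `nu i T ≤ 1` for all `i` as there. (c) `nu i₀ (T - n e δR / R ^ (g + 1))
< exp (- g lam)` by PRQ for `x - R`, `y - e R ^ (g + 1)` and NPTE, so `nu i₀ T < 1`, `T = 0`. (d) DBD
for `z = R`: `nu i₀ (δ R) = exp lam` for one of the `δ` -/
def ST_TRE : Prop := ∀ (F Ω : Type) [Field F] [Field Ω] [CharZero Ω] [Algebra F Ω] (I : Type)
  [Fintype I] (r : ℕ) (D : SSF F Ω I r) (g : ℕ) (f : F[X]) (x y : Ω) (i₀ : I) (R : Ω),
  HQ D g f x y i₀ R → IsIntegral D.K x → False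

/-- (HEARTE) (ALGE, TRE) -/
def ST_HEARTE : Prop := ∀ (F Ω : Type) [Field F] [Field Ω] [CharZero Ω] [Algebra F Ω] (I : Type)
  [Fintype I] (r : ℕ) (D : SSF F Ω I r) (g : ℕ) (f : F[X]) (x y : Ω) (i₀ : I) (R : Ω),
  ¬ HQ D g f x y i₀ R

/-! ## E2. Application -/

/-- the monic polynomial of degree `n` with the lower coefficients `c i` -/
noncomputable def polD (R : Type) [CommRing R] (n : ℕ) (c : ℕ → R) : R[X] :=
  X ^ n + ∑ i ∈ range n, C (c i) * X ^ i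

/-- (BRGE) from the sequences to the abstract part (MONG, SSFX, RDX, OMG, OSR, SLW, OIC, HEARTE);
`i₀ = (v, σ)`, `R = p / q` -/
def ST_BRGE : Prop := ∀ (M : Type) [Field M] [NumberField M] [IsGalois ℚ M] (S : Finset ℕ)
  (P : PF S M) (φ : Ultrafilter ℕ) (g : ℕ) (a : ℕ → ℕ → M) (x y : ℕ → M) (X : ℕ → ℝ)
  (v : Option ℕ) (σ : M ≃ₐ[ℚ] M) (p q : ℕ → M) (δ : ℝ), (∀ p ∈ S, p.Prime) → 1 ≤ g → 0 < δ →
  Tendsto X (φ : Filter ℕ) atTop → v ∈ plc S → SpM P φ X p → SpM P φ X q →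
  (∀ i, i < 2 * g + 2 → Slw P φ X (a i)) → OS P φ X x →
  (∀ᶠ j in (φ : Filter ℕ), (polD M (2 * g + 2) (fun i => a i j)).Separable ∧
    y j ^ 2 = (polD M (2 * g + 2) (fun i => a i j)).eval (x j) ∧ q j ≠ 0 ∧
    X j ^ δ ≤ P.nv v (σ (x j)) ∧
    P.nv v (σ (x j - p j / q j)) ≤ X j ^ (-δ) * P.nv v (σ (x j))) → False

/-- the sum of the logarithmic sizes at all the places above `plc S` -/
noncomputable def LamP {M : Type} [Field M] [NumberField M] {S : Finset ℕ} (P : PF S M)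
    (x : M) : ℝ :=
  ∑ i : Pl S M, Real.log (max 1 (P.nv i.1 (i.2 x)))

/-- (T1E) the theorem over `M` (SLW, SPW, SPH, BRGE), as `Helper2.HN.T1Z`. Counterexamples with
`C = n + 1`; the place `(v, σ)` may be supposed constant along the ultrafilter (finitely many);
`X = exp (LamP P x)`; `exp (κ (H + 1)) ≤ X ^ ε`; `x' = x`, `y' = y / sq`, `a i = F_i / F_(2 g + 2)`
(slow). `OS x`: denominator `m` slow, sizes `≤ X`. `SpM p` by SPW (last item) and SPH -/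
def ST_T1E : Prop := ∀ (M : Type) [Field M] [NumberField M] [IsGalois ℚ M] (S : Finset ℕ)
  (P : PF S M) (t g : ℕ) (κ δ B : ℝ), (∀ p ∈ S, p.Prime) → 1 ≤ g → 0 < δ →
  ∃ C : ℝ, 0 < C ∧ ∀ (F : M[X]) (x y sq : M) (H : ℝ) (m : ℕ) (v : Option ℕ) (σ : M ≃ₐ[ℚ] M)
    (c d a b : Fin t → M), 0 ≤ H → F.natDegree = 2 * g + 2 → F.Separable → y ^ 2 = F.eval x →
    F.coeff (2 * g + 2) = sq ^ 2 → (∀ i, HBZ P.emb (Real.exp (κ * (H + 1))) (F.coeff i)) →
    m ≠ 0 → (m : ℝ) ≤ Real.exp (κ * (H + 1)) → SI S ((m : M) * x) → v ∈ plc S →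
    (∀ i, SV S (a i)) → (∀ i, SV S (b i)) →
    (∀ i, HBZ P.emb (Real.exp (κ * (H + 1))) (c i)) →
    (∀ i, HBZ P.emb (Real.exp (κ * (H + 1))) (d i)) →
    HBZ P.emb (Real.exp (B * (LamP P x + H + 1))) (∑ i, c i * a i) →
    HBZ P.emb (Real.exp (B * (LamP P x + H + 1))) (∑ i, d i * b i) → ∑ i, d i * b i ≠ 0 →
    max 1 (P.nv v (σ (x - (∑ i, c i * a i) / ∑ i, d i * b i))) * Real.exp (δ * LamP P x) ≤
      P.nv v (σ x) →
    LamP P x ≤ C * (H + 1)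

/-- (SUBE) the substitution `x = e + 1 / z`: `G = z ^ (2 g + 2) F(e + 1 / z)` (reversed Taylor
polynomial at `e`; its roots are `1 / (root - e)`, and `0` if `deg F = 2 g + 1`) -/
def ST_SUBE : Prop := ∀ (K : Type) [Field K] [CharZero K] (F : K[X]) (g : ℕ) (e z x y : K),
  (F.natDegree = 2 * g + 2 ∨ F.natDegree = 2 * g + 1) → F.Separable → F.eval e ≠ 0 → z ≠ 0 →
  x = e + 1 / z → y ^ 2 = F.eval x →
  ∃ G : K[X], G.natDegree = 2 * g + 2 ∧ G.Separable ∧ G.coeff (2 * g + 2) = F.eval e ∧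
    (y * z ^ (g + 1)) ^ 2 = G.eval z ∧
    ∀ i, i ≤ 2 * g + 2 → G.coeff i = (Polynomial.taylor e F).coeff (2 * g + 2 - i)

/-- the height of the number field `K` -/
def IsHt (K : Type) [Field K] [NumberField K] (h : K → ℝ) : Prop := ∀ a : K, h a =
  ((∑ w : NumberField.InfinitePlace K, (w.mult : ℝ) * Real.log (max 1 (w a))) +
    ∑ᶠ v : NumberField.FinitePlace K, Real.log (max 1 (v a))) / (Module.finrank ℚ K : ℝ)

/-- (HCO) heights of Taylor coefficients, sums and inverses (`Helper9.MTK.log_h`, Mathlib: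
`mulHeight₁_mul_le`, `mulHeight₁_inv`, sums) -/
def ST_HCO : Prop := ∀ (K : Type) [Field K] [NumberField K] (h : K → ℝ), IsHt K h →
  (∀ a b : K, h (a + b) ≤ h a + h b + 1) ∧ (∀ a b : K, h (a * b) ≤ h a + h b) ∧
  (∀ a : K, h a⁻¹ = h a) ∧
  ∀ (d : ℕ) (κ : ℝ), ∃ κ' : ℝ, 0 < κ' ∧ ∀ (F : K[X]) (e : K) (H : ℝ), F.natDegree ≤ d → 0 ≤ H →
    (∀ i, h (F.coeff i) ≤ H) → h e ≤ κ * (H + 1) →
    ∀ j, h ((Polynomial.taylor e F).coeff j) ≤ κ' * (H + 1)

/-- (HTT) heights in `K` and sizes in `M` (`Helper25.HN.HTK`, `ST_DEN` or `ST_INTG`; for the last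
item: for `l ∈ S` let `l ^ e` be the least power `≥` all `nv (some l) (σ a)`; then
`m * ∏ l ^ e * a` is integral) -/
def ST_HTT : Prop := ∀ (K M : Type) [Field K] [NumberField K] [Field M] [NumberField M]
  [IsGalois ℚ M] (h : K → ℝ) (i : K →+* M) (S : Finset ℕ) (P : PF S M), IsHt K h →
  (∀ p ∈ S, p.Prime) → ∃ C : ℝ, 1 ≤ C ∧ (∀ a : K, 0 ≤ h a) ∧
  (∀ a : K, HBZ P.emb (Real.exp (C * h a)) (i a)) ∧ (∀ a : K, LamP P (i a) ≤ C * h a) ∧
  ∀ (a : K) (m : ℕ), m ≠ 0 → SI S ((m : M) * i a) →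
    h a ≤ C * (Real.log m + LamP P (i a) + 1)

/-- `w l` is an extension of the `l`-adic absolute value to `ℂ`, for every `l ∈ S` -/
def Ext (S : Finset ℕ) (w : ℕ → AbsoluteValue ℂ ℝ) : Prop := ∀ l ∈ S, l.Prime ∧
  (∀ a b, w l (a + b) ≤ max (w l a) (w l b)) ∧ w l (l : ℂ) = (l : ℝ)⁻¹

/-- the absolute value at the place `o` of `ℚ` -/
noncomputable def pv (w : ℕ → AbsoluteValue ℂ ℝ) (o : Option ℕ) (z : ℂ) : ℝ :=
  match o with
  | none => ‖z‖
  | some l => w l z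

/-- (FLDE) a Galois number field which contains `K` and the square roots of the elements of `Γ`,
with absolute values which extend the `w l` (FLDZ / `Helper45.SUBK.field_exists`, PFX for the
primes which are not in `S`, SVB) -/
def ST_FLDE : Prop := ∀ (K : Type) [Field K] [NumberField K] (S : Finset ℕ)
  (w : ℕ → AbsoluteValue ℂ ℝ) (Γ : Subgroup Kˣ), Ext S w → Γ.FG →
  ∃ (M : Type) (_ : Field M) (_ : NumberField M) (_ : IsGalois ℚ M) (S' : Finset ℕ)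
    (P : PF S' M) (i : K →+* M), S ⊆ S' ∧ (∀ l ∈ S', l.Prime) ∧
    (∀ l ∈ S, ∀ z, P.nv (some l) z = w l (P.emb z)) ∧
    (∀ γ ∈ Γ, SV S' (i (γ : Kˣ))) ∧ (∀ γ ∈ Γ, ∃ ρ : M, ρ ^ 2 = i (γ : Kˣ)) ∧
    ∀ τ : K →+* ℂ, ∃ σ : M ≃ₐ[ℚ] M, ∀ z, τ z = P.emb (σ (i z))

/-- `a` is a sum of `t` products `c * γ` with `γ ∈ Γ` and `c ∈ K` of height `h c ≤ B` -/
def SumOf {K : Type} [Field K] (h : K → ℝ) (Γ : Subgroup Kˣ) (t : ℕ) (B : ℝ) (a : K) : Prop :=
  ∃ (c : Fin t → K) (γ : Fin t → Kˣ), (∀ i, h (c i) ≤ B) ∧ (∀ i, γ i ∈ Γ) ∧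
    a = ∑ i, c i * (γ i : K)

/-- `a` is an element of `Γ` times the square of an element of `K` -/
def SqClass {K : Type} [Field K] (Γ : Subgroup Kˣ) (a : K) : Prop :=
  ∃ γ ∈ Γ, ∃ b : K, a = (γ : K) * b ^ 2

/-- (FINE) the final theorem (T1E, SUBE, HCO, HTT, FLDE). Apply T1E over `M` to `F` and `z = x`, resp.
to `G` and `z` (SUBE); `sq = ρ * b`, `ρ ^ 2 = γ`. The place: `v = o`, `σ` with `τ = P.emb ∘ σ ∘ i`.
`LamP (i z) ≤ C h z ≤ C (h x + κ (H + 1) + 1)`; if `h x < κ (H + 1) + 1` there is nothing to prove,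
otherwise `δ' LamP ≤ δ h x` with `δ' = δ / (2 C)`; `h p ≤ B h x ≤ B' (LamP (i z) + H + 1)` by HTT -/
def ST_FINE : Prop := ∀ (K : Type) [Field K] [NumberField K] (h : K → ℝ), IsHt K h →
  ∀ (S : Finset ℕ) (w : ℕ → AbsoluteValue ℂ ℝ), Ext S w →
  ∀ (Γ : Subgroup Kˣ) (t d : ℕ) (κ δ B : ℝ), Γ.FG → 3 ≤ d → 0 < δ →
    ∃ C₁ C₂ : ℝ, 0 < C₁ ∧ 0 < C₂ ∧ ∀ F : K[X], F.natDegree = d → F.Separable →
      ∀ x y : K, y ^ 2 = F.eval x → ∀ H : ℝ, (∀ i, h (F.coeff i) ≤ H) →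
        ∀ z : K, ((Even d ∧ SqClass Γ (F.coeff d) ∧ x = z) ∨
          ∃ e : K, h e ≤ κ * (H + 1) ∧ F.eval e ≠ 0 ∧ SqClass Γ (F.eval e) ∧ z ≠ 0 ∧
            x = e + 1 / z) →
        ∀ (m : ℕ) (o : Option ℕ) (τ : K →+* ℂ) (p q : K), m ≠ 0 →
          (m : ℝ) ≤ Real.exp (κ * (H + 1)) → SI S ((m : K) * z) → o ∈ plc S →
          SumOf h Γ t (κ * (H + 1)) p → SumOf h Γ t (κ * (H + 1)) q → h p ≤ B * h x →
          h q ≤ B * h x → q ≠ 0 →
          max 1 (pv w o (τ (z - p / q))) * Real.exp (δ * h x) ≤ pv w o (τ z) →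
          h x ≤ C₁ * H + C₂

end Pool.Agent.Helper71.HE
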