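import Pool.Agent.Helper71.HN.SheetY

/-!
Project HP (MP_2a8cc2_nt; to replace O): ODD degree (or `F e = 0`) in the form of sheet Y: the main
inequality is `[K : ℚ] log m + ∑ max (log u) (log u / 2) + δ h ≤ 1/2 ∑ log max 1 |z|`, where `u`
bounds `|z - c (p / q) ^ 2|` (`u ≥ 1`, `p`, `q` sparse) or `|G z| ≤ u ^ deg G`. Flags as in
sheet X; the local parameter is `T₁ ~ 1 / √x`. -/

set_option autoImplicit false

namespace Pool.Agent.Helper71.HP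

open Polynomial Filter Finset Pool.Agent.Helper70.SUB Pool.Agent.Helper77.SUBK
  Pool.Agent.Helper70.SUBL Pool.Agent.Helper70.SUBW Pool.Agent.Helper71.JN Pool.Agent.Helper71.HN
  Pool.Agent.Helper71.HZ Pool.Agent.Helper71.HE Pool.Agent.Helper71.HO Pool.Agent.Helper77.HE
  Pool.Agent.Helper77.HM Pool.Agent.Helper71.HX

/-! ## P1. The abstract theorem -/

/-- (SQO) the local parameter `T₁ = x ^ g φ(1/x) / y` at a pole place, `φ = S` of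
`Helper77.HE.sqrt_poly` for `reflect (2 g + 1) f` (a large power of `X` divides `S ^ 2 - reflect f`,
`S 0 = 1`): `y ^ 2 = x ^ (2 g + 1) (reflect f)(1/x)`, so `x T₁ ^ 2 = φ(1/x) ^ 2 / (reflect f)(1/x)`
is near `1`; `y T₁ ^ (2 g + 1) = (x T₁ ^ 2) ^ g φ(1/x)` is near `φ(T₁ ^ 2)`. Last item: `T₁ R` is near
`1`, so `v (T₁ + 1/R) = exp (-lam)`, and `(T₁ - 1/R) (T₁ + 1/R) = (T₁ ^ 2 - 1/x) + (1/x - 1/R ^ 2)`
has size at most `max (exp (-(J + 2) lam)) (exp (c - 4 lam))` -/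
def ST_SQO : Prop := ∀ (F Ω : Type) [Field F] [Field Ω] [CharZero Ω] [Algebra F Ω]
  (v : AbsoluteValue Ω ℝ) (g J : ℕ) (f : F[X]) (lam : ℝ) (x y : Ω), Ul v →
  (∀ c : F, c ≠ 0 → v (algebraMap F Ω c) = 1) → f.Monic → f.natDegree = 2 * g + 1 →
  y ^ 2 = aeval x f → 0 < lam → v x = Real.exp (2 * lam) → 2 ≤ J →
  ∃ (φ : F[X]) (T₁ : Ω), v T₁ = Real.exp (-lam) ∧ v (x * T₁ ^ 2 - 1) ≤ Real.exp (-(J * lam)) ∧
    v (y * T₁ ^ (2 * g + 1) - aeval (T₁ ^ 2) φ) ≤ Real.exp (-(J * lam)) ∧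
    ∀ (R : Ω) (c : ℝ), 0 ≤ c → c < 2 * lam → v R = Real.exp lam →
      v (x - R ^ 2) ≤ Real.exp c → v (y - R ^ (2 * g + 1)) < Real.exp ((2 * g + 1) * lam) →
      v (T₁ - R⁻¹) ≤ Real.exp (c - 3 * lam)

/-- (LOCO) the flag at a pole place (DIV), `J = 3 (2 N + g + 1)`. For `u` let
`Ψ u = ∑ n, u n T ^ (2 (N + g - n)) + ∑ j, u j T ^ (2 (N - 1 - j) + 1) φ(T ^ 2) ∈ K[T]`;
`W b` = the `u` such that `(T - t₀) ^ b` divides `Ψ u`. With `E = ∑ u n x ^ n + ∑ u j x ^ j y`: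
`E T₁ ^ (2 (N + g)) = Ψ u (T₁) + ∑ u n T₁ ^ (2 (N + g - n)) ((x T₁ ^ 2) ^ n - 1) +
∑ u j T₁ ^ (2 (N - 1 - j) + 1) ((x T₁ ^ 2) ^ j y T₁ ^ (2 g + 1) - φ(T₁ ^ 2))`, error `≤ exp (-J lam)` -/
def ST_LOCO : Prop := ∀ (F Ω : Type) [Field F] [Field Ω] [CharZero Ω] [Algebra F Ω]
  (K : IntermediateField F Ω) (v : AbsoluteValue Ω ℝ) (g N J : ℕ) (φ : F[X]) (lam c : ℝ)
  (x y t₀ T₁ : Ω), Ul v → (∀ c : F, c ≠ 0 → v (algebraMap F Ω c) = 1) → 0 < lam →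
  v x = Real.exp (2 * lam) → v T₁ = Real.exp (-lam) → 3 * (2 * N + g + 1) ≤ J →
  v (x * T₁ ^ 2 - 1) ≤ Real.exp (-(J * lam)) →
  v (y * T₁ ^ (2 * g + 1) - aeval (T₁ ^ 2) φ) ≤ Real.exp (-(J * lam)) → t₀ ∈ K →
  v t₀ ≤ 1 → 0 ≤ c → c ≤ 2 * lam → v (T₁ - t₀) ≤ Real.exp (c - 3 * lam) →
  ∃ W : ℕ → Submodule K ((Fin (N + g + 1) ⊕ Fin N) → K),
    (∀ b, b < 2 * N + g + 1 → 2 * N + g + 1 ≤ Module.finrank K (W b) + b) ∧
    ∀ b, b < 2 * N + g + 1 → ∀ u ∈ W b, (∀ k, v (u k : Ω) ≤ 1) →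
      v (∑ k, (u k : Ω) * eE x y (N + g + 1) N k) ≤
        Real.exp (2 * (N + g) * lam + b * (c - 3 * lam))

/-- (LOCD) as LOCC (`Helper91.HX.locc`) with `v y ≤ 1` as a hypothesis (DIV) -/
def ST_LOCD : Prop := ∀ (F Ω : Type) [Field F] [Field Ω] [CharZero Ω] [Algebra F Ω]
  (K : IntermediateField F Ω) (v : AbsoluteValue Ω ℝ) (g N : ℕ) (G : K[X]) (c : ℝ)
  (x y : Ω), Ul v → (∀ c : F, c ≠ 0 → v (algebraMap F Ω c) = 1) → v y ≤ 1 → v x ≤ 1 →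
  G.Monic → 1 ≤ G.natDegree → (∀ i, v (G.coeff i : Ω) ≤ 1) → c ≤ 0 →
  v (aeval x G) ≤ Real.exp (G.natDegree * c) →
  ∃ W : ℕ → Submodule K ((Fin (N + g + 1) ⊕ Fin N) → K),
    (∀ b, b < 2 * N + g + 1 → 2 * N + g + 1 ≤ Module.finrank K (W b) + b) ∧
    ∀ b, b < 2 * N + g + 1 → ∀ u ∈ W b, (∀ k, v (u k : Ω) ≤ 1) →
      v (∑ k, (u k : Ω) * eE x y (N + g + 1) N k) ≤ Real.exp ((b / 2 - G.natDegree) * c)

/-- (IND) independence for odd degree (as `Helper77.HE.eE_indep`: `f` separable of positive degree is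
not a square times a square) -/
def ST_IND : Prop := ∀ (F Ω : Type) [Field F] [Field Ω] [CharZero Ω] [Algebra F Ω]
  (K : IntermediateField F Ω) (f : F[X]) (g : ℕ), f.natDegree = 2 * g + 1 → f.Separable →
  ∀ (x y : Ω), y ^ 2 = aeval x f → ¬ IsIntegral K x → ∀ M N : ℕ,
  LinearIndependent K (eE x y M N)

/-- (ALGP) as ALGO (`Helper72.HX.ALGO`) for odd degree (FLG, SQO, LOCO, LOCD, IND).
`lam i = 1/2 log max 1 (nu i x)`. (a) `1 < nu i x`, first alternative, `c i < 2 lam i`: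
`nu i R = exp (lam i)`; replace `R` by `- R` if necessary so that
`nu i (y - R ^ (2 g + 1)) < exp ((2 g + 1) lam i)` (see `Helper18.HZ.SGNZ`); SQO, LOCO with
`t₀ = 1/R`. (b) `1 < nu i x` otherwise (then `2 lam i ≤ c i`): LOCO with `t₀ = 0`, `c = 2 lam i`.
`∑_{b < n} (2 (N + g) lam + b (c - 3 lam)) = n (n - 1) / 2 (c - lam) + n g lam`. (c), (d) `nu i x ≤ 1`
as in ALGO (LOCD; `nu i y ≤ 1` from `y ^ 2 = f x`) -/
def ST_ALGP : Prop := ∀ (F Ω : Type) [Field F] [Field Ω] [CharZero Ω] [Algebra F Ω] (I : Type)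
  [Fintype I] (r : ℕ) (D : SSF F Ω I r) (K : IntermediateField F Ω) (_ : GSKP D K) (g : ℕ)
  (f : F[X]) (m x y : Ω) (c : I → ℝ), f.Monic → f.natDegree = 2 * g + 1 → f.Separable → m ≠ 0 →
  m ∈ D.O → m * x ∈ D.O → m ^ (g + 1) * y ∈ D.O → y ^ 2 = aeval x f →
  (∀ i, (0 ≤ c i ∧ ∃ R ∈ K, D.nu i (x - R ^ 2) ≤ Real.exp (c i)) ∨
    ∃ G : F[X], G.Monic ∧ 1 ≤ G.natDegree ∧
      D.nu i (aeval x G) ≤ Real.exp (G.natDegree * c i)) →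
  ∑ i, Real.log (D.nu i m) + ∑ i, max (c i) (c i / 2) <
    1 / 2 * ∑ i, Real.log (max 1 (D.nu i x)) →
  IsIntegral K x

/-- the hypotheses of the trace argument for odd degree -/
structure HTP {F Ω : Type} [Field F] [Field Ω] [Algebra F Ω] {I : Type} [Fintype I] {r : ℕ}
    (D : SSF F Ω I r) (g : ℕ) (f : F[X]) (x y : Ω) (i₀ : I) (R : Ω) : Prop where
  hg : 1 ≤ g
  fm : f.Monic
  fd : f.natDegree = 2 * g + 1
  fs : f.Separable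
  ic : ∀ z : Ω, IsIntegral D.R z → z ∈ D.O
  cu : y ^ 2 = aeval x f
  RR : R ∈ D.K
  x1 : 1 < D.nu i₀ x
  xR : D.nu i₀ (x - R ^ 2) < D.nu i₀ x

/-- (TRP) `Helper28.HZ.TRZ` with these hypotheses, as `Helper77.HE.Trem` for `Helper28.HE.TRE`
(`lam = 1/2 log (nu i₀ x)`, sign of `R` as in `Helper18.HZ.SGNZ`) -/
def ST_TRP : Prop := ∀ (F Ω : Type) [Field F] [Field Ω] [CharZero Ω] [Algebra F Ω] (I : Type)
  [Fintype I] (r : ℕ) (D : SSF F Ω I r) (g : ℕ) (f : F[X]) (x y : Ω) (i₀ : I) (R : Ω),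
  HTP D g f x y i₀ R → IsIntegral D.K x → False

/-- the hypotheses of the abstract theorem -/
structure HP {F Ω : Type} [Field F] [Field Ω] [Algebra F Ω] {I : Type} [Fintype I] {r : ℕ}
    (D : SSF F Ω I r) (g : ℕ) (f : F[X]) (m x y : Ω) (c : I → ℝ) : Prop where
  hg : 1 ≤ g
  fm : f.Monic
  fd : f.natDegree = 2 * g + 1
  fs : f.Separable
  ic : ∀ z : Ω, IsIntegral D.R z → z ∈ D.O
  m0 : m ≠ 0
  mO : m ∈ D.O
  xO : m * x ∈ D.O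
  yO : m ^ (g + 1) * y ∈ D.O
  cu : y ^ 2 = aeval x f
  nx : ¬ IsIntegral F x
  near : ∀ i, (0 ≤ c i ∧ ∃ R ∈ D.K, D.nu i (x - R ^ 2) ≤ Real.exp (c i)) ∨
    ∃ G : F[X], G.Monic ∧ 1 ≤ G.natDegree ∧
      D.nu i (aeval x G) ≤ Real.exp (G.natDegree * c i)
  main : ∑ i, Real.log (D.nu i m) + ∑ i, max (c i) (c i / 2) <
    1 / 2 * ∑ i, Real.log (max 1 (D.nu i x))

/-- **(HEARTP)** (as HEARTX) -/
theorem HEARTP (hALGP : ST_ALGP) (hTRP : ST_TRP) {F Ω : Type} [Field F] [Field Ω] [CharZero Ω]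
    [Algebra F Ω] {I : Type} [Fintype I] {r : ℕ} (D : SSF F Ω I r) (g : ℕ) (f : F[X]) (m x y : Ω)
    (c : I → ℝ) (H : HP D g f m x y c) : False := by
  classical
  by_cases h1 : ∃ i, ∃ R ∈ D.K, 1 < D.nu i x ∧ D.nu i (x - R ^ 2) < D.nu i x
  · obtain ⟨i₀, R, hR, h2, h3⟩ := h1
    exact hTRP F Ω I r D g f x y i₀ R
      { hg := H.hg
        fm := H.fm
        fd := H.fd
        fs := H.fs
        ic := H.ic
        cu := H.cu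
        RR := hR
        x1 := h2
        xR := h3 } (hALGP F Ω I r D D.K (gskK D) g f m x y c H.fm H.fd H.fs H.m0 H.mO H.xO
          H.yO H.cu H.near H.main)
  · have h2 : ∀ i, ∀ R ∈ D.K, 1 < D.nu i x → D.nu i x ≤ D.nu i (x - R ^ 2) := by
      intro i R hR hi
      by_contra h3
      exact h1 ⟨i, R, hR, hi, not_le.1 h3⟩
    have hG : ∀ i, ∃ c' : ℝ, ((0 ≤ c' ∧ ∃ R ∈ (⊥ : IntermediateField F Ω),
        D.nu i (x - R ^ 2) ≤ Real.exp c') ∨ ∃ G : F[X], G.Monic ∧ 1 ≤ G.natDegree ∧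
        D.nu i (aeval x G) ≤ Real.exp (G.natDegree * c')) ∧ c' ≤ c i := by
      intro i
      rcases H.near i with ⟨h0, R, hR, h4⟩ | h4
      · refine ⟨Real.log (max (D.nu i x) 1), Or.inl ⟨Real.log_nonneg (le_max_right _ _), 0,
          zero_mem _, ?_⟩, ?_⟩
        · rw [zero_pow two_ne_zero, sub_zero,
            Real.exp_log (lt_of_lt_of_le one_pos (le_max_right _ _))]
          exact le_max_left _ _
        · rcases le_or_gt (D.nu i x) 1 with h5 | h5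
          · rw [max_eq_right h5, Real.log_one]
            exact h0
          · rw [max_eq_left h5.le, Real.log_le_iff_le_exp (by linarith)]
            exact (h2 i R hR h5).trans h4
      · exact ⟨c i, Or.inr h4, le_rfl⟩
    choose c' hG hc' using hG
    have hx : IsIntegral (⊥ : IntermediateField F Ω) x := by
      refine hALGP F Ω I r D ⊥ (gskF D) g f m x y c' H.fm H.fd H.fs H.m0 H.mO H.xO H.yO H.cu hG ?_
      have h3 : ∑ i, max (c' i) (c' i / 2) ≤ ∑ i, max (c i) (c i / 2) :=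
        Finset.sum_le_sum fun i _ => max_le_max (hc' i) (by linarith [hc' i])
      linarith [H.main]
    exact H.nx (int_bot hx)

/-! ## P2. Application -/

/-- (BRGP) as BRGX, with the monic polynomial `polR` of odd degree and `R = (p / q) ^ 2` (as BRGO);
HEARTP -/
def ST_BRGP : Prop := ∀ (M : Type) [Field M] [NumberField M] [IsGalois ℚ M] (S S₀ : Finset ℕ)
  (P : PF S M) (φ : Ultrafilter ℕ) (k : Option ℕ → (M ≃ₐ[ℚ] M) → ℕ) (g : ℕ) (a : ℕ → ℕ → M)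
  (m : ℕ → ℕ) (x y : ℕ → M) (X : ℕ → ℝ) (p q : Option ℕ → (M ≃ₐ[ℚ] M) → ℕ → M)
  (e : Option ℕ → (M ≃ₐ[ℚ] M) → ℕ → ℕ → M)
  (u : Option ℕ → (M ≃ₐ[ℚ] M) → ℕ → ℝ) (A η : ℝ), (∀ p ∈ S, p.Prime) →
  S₀ ⊆ S → 1 ≤ g → 0 < η → Tendsto X (φ : Filter ℕ) atTop →
  (∀ o ∈ plc S₀, ∀ σ, k o σ = 0 → SpM P φ X (p o σ) ∧ SpM P φ X (q o σ)) →
  (∀ o ∈ plc S₀, ∀ σ, 1 ≤ k o σ → ∀ i, i < k o σ → Slw P φ X (e o σ i)) →
  (∀ i, i < 2 * g + 1 → Slw P φ X (a i)) → IntT S₀ φ X (fun j => (m j : M) * x j) →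
  IntT S₀ φ X (fun j => (m j : M) ^ (g + 1) * y j) → ¬ Slw P φ X x →
  (∀ᶠ j in (φ : Filter ℕ), (polR M g (fun i => a i j)).Separable ∧
    y j ^ 2 = (polR M g (fun i => a i j)).eval (x j) ∧ m j ≠ 0 ∧
    (m j : ℝ) ≤ X j ^ A ∧
    (∀ o ∈ plc S, ∀ σ : M ≃ₐ[ℚ] M, P.nv o (σ (x j)) ≤ X j ^ A) ∧
    (∀ o ∈ plc S₀, ∀ σ : M ≃ₐ[ℚ] M, X j ^ (-A) ≤ u o σ j ∧
      (1 ≤ k o σ → P.nv o (σ ((polD M (k o σ) (fun i => e o σ i j)).eval (x j))) ≤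
        u o σ j ^ k o σ) ∧
      (k o σ = 0 → 1 ≤ u o σ j ∧ q o σ j ≠ 0 ∧
        P.nv o (σ (x j - (p o σ j / q o σ j) ^ 2)) ≤ u o σ j)) ∧
    (Fintype.card (M ≃ₐ[ℚ] M) : ℝ) * Real.log (m j) +
      ∑ o ∈ plc S₀, ∑ σ : M ≃ₐ[ℚ] M, max (Real.log (u o σ j)) (Real.log (u o σ j) / 2) +
      η * Real.log (X j) ≤
      1 / 2 * ∑ o ∈ plc S₀, ∑ σ : M ≃ₐ[ℚ] M, Real.log (max 1 (P.nv o (σ (x j))))) → False

/-- (T1P) as T1X and T1O. Monic form: `x' = x / a₀`, `y' = y / a₀ ^ (g + 1)`, `a₀` the leading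
coefficient (slow), `G' = a₀ ^ (-k) G (a₀ X)` (coefficients `e i * a₀ ^ (i - k)`), `u' = slow * u`
(e.g. `u' = max 1 |1/a₀| * u` with the maximum over the finitely many places) -/
def ST_T1P : Prop := ∀ (M : Type) [Field M] [NumberField M] [IsGalois ℚ M] (S S₀ : Finset ℕ)
  (P : PF S M) (k : Option ℕ → (M ≃ₐ[ℚ] M) → ℕ) (t g : ℕ) (κ δ B : ℝ), (∀ p ∈ S, p.Prime) →
  S₀ ⊆ S → 1 ≤ g → 0 < δ → 0 < B →
  ∃ C : ℝ, 0 < C ∧ ∀ (F : M[X]) (x y : M) (H T : ℝ) (m : ℕ)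
    (c d a b : Option ℕ → (M ≃ₐ[ℚ] M) → Fin t → M) (e : Option ℕ → (M ≃ₐ[ℚ] M) → ℕ → M)
    (u : Option ℕ → (M ≃ₐ[ℚ] M) → ℝ), 0 ≤ H → F.natDegree = 2 * g + 1 → F.Separable →
    y ^ 2 = F.eval x →
    (∀ i, HBZ P.emb (Real.exp (κ * (H + 1))) (F.coeff i)) → m ≠ 0 → SI S₀ ((m : M) * x) →
    (m : ℝ) ≤ Real.exp (B * T) →
    (∀ o ∈ plc S, ∀ σ : M ≃ₐ[ℚ] M, P.nv o (σ x) ≤ Real.exp (B * T)) →
    ¬ HBZ P.emb (Real.exp (T / B)) x →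
    (∀ o ∈ plc S₀, ∀ σ, Real.exp (-(B * T)) ≤ u o σ ∧
      (1 ≤ k o σ → (∀ i, HBZ P.emb (Real.exp (κ * (H + 1))) (e o σ i)) ∧
        P.nv o (σ ((polD M (k o σ) (e o σ)).eval x)) ≤ u o σ ^ k o σ) ∧
      (k o σ = 0 → 1 ≤ u o σ ∧ (∀ i, SV S (a o σ i)) ∧ (∀ i, SV S (b o σ i)) ∧
        (∀ i, HBZ P.emb (Real.exp (κ * (H + 1))) (c o σ i)) ∧
        (∀ i, HBZ P.emb (Real.exp (κ * (H + 1))) (d o σ i)) ∧
        HBZ P.emb (Real.exp (B * T)) (∑ i, c o σ i * a o σ i) ∧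
        HBZ P.emb (Real.exp (B * T)) (∑ i, d o σ i * b o σ i) ∧
        ∑ i, d o σ i * b o σ i ≠ 0 ∧
        P.nv o (σ (x - F.coeff (2 * g + 1) *
          ((∑ i, c o σ i * a o σ i) / ∑ i, d o σ i * b o σ i) ^ 2)) ≤ u o σ)) →
    (Fintype.card (M ≃ₐ[ℚ] M) : ℝ) * Real.log m +
      ∑ o ∈ plc S₀, ∑ σ : M ≃ₐ[ℚ] M, max (Real.log (u o σ)) (Real.log (u o σ) / 2) + δ * T ≤
      1 / 2 * ∑ o ∈ plc S₀, ∑ σ : M ≃ₐ[ℚ] M, Real.log (max 1 (P.nv o (σ x))) →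
    T ≤ C * (H + 1)

/-- `u` bounds the distance of `z` at the place `o` of `ℚ`, extended by `τ`, to the roots of a monic
polynomial `G` of degree `≤ n` with coefficients of height `≤ L`, or `u ≥ 1` bounds the distance to
`c r ^ 2`, `r` a quotient of sparse numbers -/
def NearP {K : Type} [Field K] (h : K → ℝ) (Γ : Subgroup Kˣ) (t n : ℕ) (L N : ℝ)
    (w : ℕ → AbsoluteValue ℂ ℝ) (c z : K) (o : Option ℕ) (τ : K →+* ℂ) (u : ℝ) : Prop :=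
  (∃ G : K[X], G.Monic ∧ 1 ≤ G.natDegree ∧ G.natDegree ≤ n ∧ (∀ i, h (G.coeff i) ≤ L) ∧
    pv w o (τ (G.eval z)) ≤ u ^ G.natDegree) ∨
  (1 ≤ u ∧ ∃ p q : K, SumOf h Γ t L p ∧ SumOf h Γ t L q ∧ h p ≤ N ∧ h q ≤ N ∧ q ≠ 0 ∧
    pv w o (τ (z - c * (p / q) ^ 2)) ≤ u)

/-- (FINP) as FINX and FINO (T1P, SUBO, HCO, HTT, FLDE, EMB) -/
def ST_FINP : Prop := ∀ (K : Type) [Field K] [NumberField K] (h : K → ℝ), IsHt K h →
  ∀ (S : Finset ℕ) (w : ℕ → AbsoluteValue ℂ ℝ), Ext S w →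
  ∀ (Γ : Subgroup Kˣ) (t n d : ℕ) (κ δ B : ℝ), Γ.FG → 3 ≤ d → 0 < δ →
    ∃ C₁ C₂ : ℝ, 0 < C₁ ∧ 0 < C₂ ∧ ∀ F : K[X], F.natDegree = d → F.Separable →
      ∀ x y : K, y ^ 2 = F.eval x → ∀ H : ℝ, (∀ i, h (F.coeff i) ≤ H) →
        ∀ z c : K, ((Odd d ∧ x = z ∧ c = F.coeff d) ∨
          ∃ e : K, h e ≤ κ * (H + 1) ∧ F.eval e = 0 ∧ z ≠ 0 ∧ x = e + 1 / z ∧
            c = F.derivative.eval e) →
        ∀ (m : ℕ) (u : Option ℕ → (K →+* ℂ) → ℝ), m ≠ 0 → SI S ((m : K) * z) →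
          (∀ o ∈ plc S, ∀ τ, Real.exp (-(B * h x)) ≤ u o τ ∧
            NearP h Γ t n (κ * (H + 1)) (B * h x) w c z o τ (u o τ)) →
          (Module.finrank ℚ K : ℝ) * Real.log m +
            ∑ o ∈ plc S, ∑ τ : K →+* ℂ, max (Real.log (u o τ)) (Real.log (u o τ) / 2) +
            δ * h x ≤
            1 / 2 * ∑ o ∈ plc S, ∑ τ : K →+* ℂ, Real.log (max 1 (pv w o (τ z))) →
          h x ≤ C₁ * H + C₂

end Pool.Agent.Helper71.HP
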