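import Pool.Agent.Helper71.HN.SheetH
import Pool.Agent.Helper66.JN.BRG
import Pool.Agent.Helper47.JN.RK

/-!
Project HN: separability in the ultrapower, rational sequences.
-/

set_option autoImplicit false

namespace Pool.Agent.Helper71.HN

open Polynomial Filter Finset Pool.Agent.Helper70.SUB Pool.Agent.Helper77.SUBK
  Pool.Agent.Helper70.SUBL Pool.Agent.Helper70.SUBW Pool.Agent.Helper71.JN Pool.Agent.Helper66.JN

section
variable {R : Type} [CommRing R]

/-- the monic polynomial with the lower coefficients `c i` -/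
noncomputable def polR (R : Type) [CommRing R] (g : ℕ) (c : ℕ → R) : R[X] :=
  X ^ (2 * g + 1) + ∑ i ∈ range (2 * g + 1), C (c i) * X ^ i

theorem polR_map {S : Type} [CommRing S] (h : R →+* S) (g : ℕ) (c : ℕ → R) :
    (polR R g c).map h = polR S g (fun i => h (c i)) := by
  unfold polR
  rw [Polynomial.map_add, Polynomial.map_pow, map_X, Polynomial.map_sum]
  congr 1
  refine Finset.sum_congr rfl fun i _ => ?_
  rw [Polynomial.map_mul, map_C, Polynomial.map_pow, map_X]

theorem polR_deg (g : ℕ) (c : ℕ → R) :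
    (∑ i ∈ range (2 * g + 1), C (c i) * X ^ i : R[X]).degree < ((2 * g + 1 : ℕ) : WithBot ℕ) := by
  refine (degree_sum_le _ _).trans_lt ?_
  rw [Finset.sup_lt_iff (WithBot.bot_lt_coe _)]
  intro i hi
  refine (degree_C_mul_X_pow_le i _).trans_lt ?_
  exact_mod_cast Finset.mem_range.1 hi

theorem polR_monic (g : ℕ) (c : ℕ → R) : (polR R g c).Monic :=
  monic_X_pow_add (polR_deg g c)

theorem polR_natDegree [Nontrivial R] (g : ℕ) (c : ℕ → R) :
    (polR R g c).natDegree = 2 * g + 1 := by
  unfold polR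
  rw [natDegree_add_eq_left_of_degree_lt, natDegree_X_pow]
  rw [degree_X_pow]
  exact polR_deg g c

theorem polR_congr (g : ℕ) {c c' : ℕ → R} (h : ∀ i, i < 2 * g + 1 → c i = c' i) :
    polR R g c = polR R g c' := by
  unfold polR
  congr 1
  exact Finset.sum_congr rfl fun i hi => by rw [h i (Finset.mem_range.1 hi)]

theorem polR_eval {S : Type} [CommRing S] [Algebra R S] (g : ℕ) (c : ℕ → R) (x : S) :
    aeval x (polR R g c) =
      x ^ (2 * g + 1) + ∑ i ∈ range (2 * g + 1), algebraMap R S (c i) * x ^ i := by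
  unfold polR
  rw [map_add, map_pow, aeval_X, map_sum]
  congr 1
  refine Finset.sum_congr rfl fun i _ => ?_
  rw [map_mul, aeval_C, map_pow, aeval_X]

end

/-- separability in terms of a resultant -/
theorem sep_iff {E : Type} [Field E] [CharZero E] (g : ℕ) (c : ℕ → E) :
    (polR E g c).Separable ↔
      resultant (polR E g c) (derivative (polR E g c)) (2 * g + 1) (2 * g) ≠ 0 := by
  have h1 := polR_natDegree g c
  have h2 : (derivative (polR E g c)).natDegree = 2 * g := by
    rw [natDegree_eq_of_degree_eq_some]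
    rw [degree_derivative (by rw [h1]; omega), h1]
    rfl
  have h3 := isUnit_resultant_iff_isCoprime (g := derivative (polR E g c)) (polR_monic g c)
  rw [h1, h2, isUnit_iff_ne_zero] at h3
  exact h3.symm

theorem sep_up {M : Type} [Field M] [CharZero M] (φ : Ultrafilter ℕ) (g : ℕ) (a : ℕ → ℕ → M)
    (h : ∀ᶠ j in (φ : Filter ℕ), (polR M g (fun i => a i j)).Separable) :
    (polR (UP M φ) g (fun i => gm φ (a i))).Separable := by
  have hch : CharZero (UP M φ) := by
    refine ⟨fun m n hmn => ?_⟩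
    have h1 : gm φ (fun _ => (m : M)) = gm φ (fun _ => (n : M)) := hmn
    rw [Pool.Agent.Helper47.SUBW.gm_eq] at h1
    obtain ⟨j, hj⟩ := h1.exists
    exact_mod_cast hj
  set ρ : ℕ → M := resultant (polR (ℕ → M) g a) (derivative (polR (ℕ → M) g a)) (2 * g + 1)
    (2 * g) with hρ
  have h1 : ∀ j, ρ j = resultant (polR M g (fun i => a i j))
      (derivative (polR M g (fun i => a i j))) (2 * g + 1) (2 * g) := by
    intro j
    have h2 := resultant_map_map (polR (ℕ → M) g a) (derivative (polR (ℕ → M) g a)) (2 * g + 1)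
      (2 * g) (Pi.evalRingHom (fun _ => M) j)
    rw [← derivative_map, polR_map] at h2
    exact h2.symm
  have h2 : gm φ ρ = resultant (polR (UP M φ) g (fun i => gm φ (a i)))
      (derivative (polR (UP M φ) g (fun i => gm φ (a i)))) (2 * g + 1) (2 * g) := by
    have h3 := resultant_map_map (polR (ℕ → M) g a) (derivative (polR (ℕ → M) g a)) (2 * g + 1)
      (2 * g) (Germ.coeRingHom (φ : Filter ℕ))
    rw [← derivative_map, polR_map] at h3
    exact h3.symm
  rw [sep_iff, ← h2]
  intro h3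
  have h4 : gm φ ρ = gm φ (fun _ => (0 : M)) := h3
  rw [Pool.Agent.Helper47.SUBW.gm_eq] at h4
  obtain ⟨j, h5, h6⟩ := (h4.and h).exists
  rw [sep_iff, ← h1] at h6
  exact h6 h5

/-- the size of a rational number with a small denominator at the place `v` -/
theorem nv_rat {M : Type} [Field M] [NumberField M] {S : Finset ℕ} (P : PF S M)
    (hS : ∀ p ∈ S, p.Prime) (v : Option ℕ) (hv : v ∈ plc S) (hv0 : v ≠ none) (z : ℚ) (D : ℕ)
    (hD : D ≠ 0) (n : ℤ) (h : (D : ℚ) * z = (n : ℚ)) : P.nv v (z : M) ≤ D := by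
  obtain ⟨p, rfl⟩ := Option.ne_none_iff_exists'.1 hv0
  have hpS : p ∈ S := of_mem_some hv
  have hp := hS p hpS
  have : Fact p.Prime := ⟨hp⟩
  rw [P.ext (some p) hv z]
  have h1 : (av (some p) z : ℝ) = ((padicNorm p z : ℚ) : ℝ) := by
    simp [av]
  rw [h1]
  have hD0 : (D : ℚ) ≠ 0 := by exact_mod_cast hD
  have h2 : padicNorm p (D : ℚ) * padicNorm p z ≤ 1 := by
    rw [← padicNorm.mul, h]
    exact padicNorm.of_int n
  have h3 : 1 ≤ (D : ℚ) * padicNorm p (D : ℚ) := by
    have h4 : padicNorm p (D : ℚ) = (p : ℚ) ^ (-(padicValNat p D : ℤ)) := by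
      rw [padicNorm.eq_zpow_of_nonzero hD0]
      simp
    rw [h4, zpow_neg, zpow_natCast, ← div_eq_mul_inv,
      one_le_div (pow_pos (by exact_mod_cast hp.pos) _)]
    exact_mod_cast Nat.le_of_dvd (Nat.pos_of_ne_zero hD) pow_padicValNat_dvd
  have h5 : padicNorm p z ≤ D := by
    have h6 : (0 : ℚ) ≤ padicNorm p z := padicNorm.nonneg z
    have h7 : (0 : ℚ) ≤ (D : ℚ) := by positivity
    calc padicNorm p z ≤ (D : ℚ) * padicNorm p (D : ℚ) * padicNorm p z :=
          le_mul_of_one_le_left h6 h3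
      _ = (D : ℚ) * (padicNorm p (D : ℚ) * padicNorm p z) := by ring
      _ ≤ (D : ℚ) * 1 := mul_le_mul_of_nonneg_left h2 h7
      _ = D := mul_one _
  exact_mod_cast h5

theorem nv_none_rat {M : Type} [Field M] [NumberField M] {S : Finset ℕ} (P : PF S M) (z : ℚ) :
    P.nv none (z : M) = |(z : ℝ)| := by
  rw [P.inf, map_ratCast, Complex.norm_ratCast]

end Pool.Agent.Helper71.HN
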