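import Pool.Agent.Helper71.HN.SheetH
import Pool.Agent.Helper71.HN.SepU

/-!
Project HZ (MP_2a8cc2_nt, fourth hand-in, general form; it replaces NearSparseSquares): points of
`y ^ 2 = F x` over a NUMBER FIELD `K`, `F` of odd degree, such that in the geometric mean over the
complex embeddings `τ` of `K` the point `x` is nearer than `|x| ^ (1/2)` to sparse squares
`τ(a) r_τ ^ 2` (`a` the leading coefficient): then `h(x) ≤ C₁ h(F) + C₂`. The places at which `x`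
is not near a sparse square are allowed (there `r_τ = 0`), they are only counted.

The abstract part is the one of SheetH with different sizes `exp (lam i)` at the places `i`; `J` is
the set of the places at which `x` is near the square of `R i`. -/

set_option autoImplicit false

namespace Pool.Agent.Helper71.HZ

open Polynomial Filter Finset Pool.Agent.Helper70.SUB Pool.Agent.Helper77.SUBK
  Pool.Agent.Helper70.SUBL Pool.Agent.Helper70.SUBW Pool.Agent.Helper71.JN Pool.Agent.Helper71.HN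

/-! ## Z1. The abstract theorem -/

/-- the hypotheses: `f` is monic of degree `2 g + 1` with coefficients in `F`, `m` is a denominator
of `x`, `R i ∈ K` for all `i` (`R i = 0` if nothing is known at the place `i`) -/
structure HW {F Ω : Type} [Field F] [Field Ω] [Algebra F Ω] {I : Type} [Fintype I] {r : ℕ}
    (D : SSF F Ω I r) (g : ℕ) (f : F[X]) (m x y : Ω) (R : I → Ω) : Prop where
  hg : 1 ≤ g
  fm : f.Monic
  fd : f.natDegree = 2 * g + 1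
  fs : f.Separable
  ic : ∀ z : Ω, IsIntegral D.R z → z ∈ D.O
  m0 : m ≠ 0
  mO : m ∈ D.O
  xO : m * x ∈ D.O
  yO : m ^ (g + 1) * y ∈ D.O
  cu : y ^ 2 = aeval x f
  RR : ∀ i, R i ∈ D.K
  main : ∑ i, Real.log (D.nu i m) + ∑ i, Real.log (max 1 (D.nu i (x - R i ^ 2))) <
    1 / 2 * ∑ i, Real.log (max 1 (D.nu i x))

/-- the derived data: the size of `x` at the place `i` is at most `exp (2 lam i)`, `J` is the set of
the places where `x` is near `R i ^ 2` -/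
structure HV {F Ω : Type} [Field F] [Field Ω] [Algebra F Ω] {I : Type} [Fintype I] {r : ℕ}
    (D : SSF F Ω I r) (J : Finset I) (g : ℕ) (f : F[X]) (lam c : I → ℝ) (m x y : Ω)
    (R : I → Ω) : Prop where
  hg : 1 ≤ g
  fm : f.Monic
  fd : f.natDegree = 2 * g + 1
  fs : f.Separable
  ic : ∀ z : Ω, IsIntegral D.R z → z ∈ D.O
  m0 : m ≠ 0
  mO : m ∈ D.O
  xO : m * x ∈ D.O
  yO : m ^ (g + 1) * y ∈ D.O
  cu : y ^ 2 = aeval x f
  hJ : J.Nonempty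
  l0 : ∀ i, 0 ≤ lam i
  l1 : ∀ i ∈ J, 0 < lam i
  hc : ∀ i ∈ J, c i < 2 * lam i
  sx : ∀ i, D.nu i x ≤ Real.exp (2 * lam i)
  sy : ∀ i, D.nu i y ≤ Real.exp ((2 * g + 1) * lam i)
  RR : ∀ i ∈ J, R i ∈ D.K
  s1 : ∀ i ∈ J, D.nu i (R i) = Real.exp (lam i)
  s2 : ∀ i ∈ J, D.nu i (x - R i ^ 2) ≤ Real.exp (c i)
  s4 : ∀ i ∈ J, D.nu i (y - R i ^ (2 * g + 1)) < Real.exp ((2 * g + 1) * lam i)
  big : ∑ i, Real.log (D.nu i m) + ∑ i, lam i + ∑ i ∈ J, (c i - 2 * lam i) < 0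

/-- (SGNZ) choice of `J` and of the signs (RK). `lam i = 1/2 log max 1 (nu i x)`,
`J = {i | 1 < nu i x, nu i (x - R i ^ 2) < nu i x}`, `c i = log max 1 (nu i (x - R i ^ 2))`. For
`i ∈ J`: `nu i (R i ^ 2) = nu i x`; `nu i (f x - x ^ d) ≤ (nu i x) ^ (d - 1)` (`d = 2 g + 1`,
coefficients of size `≤ 1`), so `(y - R ^ d) (y + R ^ d) = y ^ 2 - R ^ (2 d)` has size
`< (nu i x) ^ d` and one factor has size `< exp (d lam i)`; replace `R i` by `- R i` if it is the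
second (`d` is odd). For `i ∉ J`: `log max 1 (nu i (x - R i ^ 2)) ≥ 2 lam i`. `J` is not empty since
`∑ log (nu i m) ≥ 0` (RK: `1 ≤ ∏ nu i m`) -/
def ST_SGNZ : Prop := ∀ (F Ω : Type) [Field F] [Field Ω] [CharZero Ω] [Algebra F Ω] (I : Type)
  [Fintype I] (r : ℕ) (D : SSF F Ω I r) (g : ℕ) (f : F[X]) (m x y : Ω) (R : I → Ω),
  HW D g f m x y R → ∃ (J : Finset I) (lam c : I → ℝ) (R' : I → Ω),
    HV D J g f lam c m x y R'

/-- (LFGZ) the local form at one place (`Helper20.HN.LFG` with `exp lam` instead of `exp 1` and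
`c < 2 lam` instead of `β < 1`; `x = R ^ 2 (1 + s)`, `v s ≤ exp (c - 2 lam)`) -/
def ST_LFGZ : Prop := ∀ (F Ω : Type) [Field F] [Field Ω] [CharZero Ω] [Algebra F Ω]
  (v : AbsoluteValue Ω ℝ) (K : IntermediateField F Ω) (g k : ℕ) (f : F[X]) (lam c : ℝ)
  (x y R : Ω) (W : Fin k → ℕ) (w : ℕ), Ul v → (∀ c : F, c ≠ 0 → v (algebraMap F Ω c) = 1) →
  R ∈ K → 1 ≤ k → f.Monic → f.natDegree = 2 * g + 1 → y ^ 2 = aeval x f → 0 < lam →
  v R = Real.exp lam → c < 2 * lam → v (x - R ^ 2) ≤ Real.exp c →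
  v (y - R ^ (2 * g + 1)) < Real.exp ((2 * g + 1) * lam) →
  Function.Injective W → (∀ j, Ok g (W j) ∧ W j < w) → Ok g w →
  ∃ e : Fin k → Ω, (∀ j, e j ∈ K) ∧
    v (em g x y w + ∑ j, e j * em g x y (W j)) ≤ Real.exp (w * lam + k * (c - 2 * lam))

/-- (ALGZ) `x` is algebraic over `K` (LFGZ, RK), as `Helper52.HN.ALGH`: `w = k + g`; for `i ∈ J`
LFGZ gives a form `G_i`, monic of weight `w`, of size `≤ exp E_i`,
`E_i = w lam i + k (c i - 2 lam i)`. GSK with `e j = m ^ A * em (wg j)`, `j < N`, `A = (N + g) / 2`;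
`f i j = m ^ A * G_i ^ l * em (wg j - l w)`, `l = (wg j - 2 g) / w`, for `i ∈ J`, and `e j` for
`i ∉ J`. `nu i (em W) ≤ exp (W lam i)` for all `i`. With `M0 = ∑ log (nu i m) ≥ 0` (RK),
`E = ∑_{i ∈ J} E_i`, `L' = ∑_{i ∉ J} lam i` the exponent of the product over all `i` and `j` is at
most `∑_j (A M0 + l_j E + wg_j L' + const)`, where `wg_j ≤ j + g`, `A ≤ (N + g) / 2` and
`|w l_j - j| ≤ 2 g + w` (`E` may have any sign), i.e. `N ^ 2 / 2 (M0 + E / w + L') + O(N)`; and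
`M0 + E / w + L' = M0 + ∑ lam i + (k / w) ∑_{i ∈ J} (c i - 2 lam i) < 0` for `k` large (`big`) -/
def ST_ALGZ : Prop := ∀ (F Ω : Type) [Field F] [Field Ω] [CharZero Ω] [Algebra F Ω] (I : Type)
  [Fintype I] (r : ℕ) (D : SSF F Ω I r) (J : Finset I) (g : ℕ) (f : F[X]) (lam c : I → ℝ)
  (m x y : Ω) (R : I → Ω), HV D J g f lam c m x y R → IsIntegral D.K x

/-- (NPTZ) `δ x / y` near infinity (as `Helper17.HN.NPT`):
`δa / b - 2 R δR / R ^ d = (δ(a - R ^ 2) R ^ d - 2 R δR (b - R ^ d)) / (R ^ d b)` -/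
def ST_NPTZ : Prop := ∀ (N : Type) [Field N] (v : AbsoluteValue N ℝ) (s : Prop) (δ : N → N)
  (g : ℕ) (lam : ℝ) (a b R : N), Ul v → Dv δ → Bd v s δ → 1 ≤ g → 0 < lam → v R = Real.exp lam →
  v (a - R ^ 2) < Real.exp (2 * lam) → v (b - R ^ (2 * g + 1)) < Real.exp ((2 * g + 1) * lam) →
  v (δ a / b - 2 * R * δ R / R ^ (2 * g + 1)) < Real.exp ((1 - 2 * g) * lam)

/-- (TRZ) the contradiction (as `Helper58.HN.TRH`, with ONE place `i ∈ J` in steps (c) and (d)).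
(a) `T ∈ R` and (b) `nu i T ≤ 1` for all `i` as there. (c) for one `i ∈ J` (`hJ`), by PRQ and NPTZ:
`nu i (T - 2 n R δR / R ^ (2 g + 1)) < exp ((1 - 2 g) lam i)`, so `nu i T < 1` and `T = 0` by the
product formula. (d) DBD for this `i` and `z = R i`, `nu i (R i) = exp (lam i) ≠ 1` -/
def ST_TRZ : Prop := ∀ (F Ω : Type) [Field F] [Field Ω] [CharZero Ω] [Algebra F Ω] (I : Type)
  [Fintype I] (r : ℕ) (D : SSF F Ω I r) (J : Finset I) (g : ℕ) (f : F[X]) (lam c : I → ℝ)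
  (m x y : Ω) (R : I → Ω), HV D J g f lam c m x y R → IsIntegral D.K x → False

/-- (HEARTZ) (SGNZ, ALGZ, TRZ) -/
def ST_HEARTZ : Prop := ∀ (F Ω : Type) [Field F] [Field Ω] [CharZero Ω] [Algebra F Ω] (I : Type)
  [Fintype I] (r : ℕ) (D : SSF F Ω I r) (g : ℕ) (f : F[X]) (m x y : Ω) (R : I → Ω),
  ¬ HW D g f m x y R

/-! ## Z2. Application -/

/-- sequences in `M` which are integral up to slow denominators -/
def IntS {M : Type} [Field M] (φ : Ultrafilter ℕ) (X : ℕ → ℝ) (z : ℕ → M) : Prop :=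
  ∀ ε : ℝ, 0 < ε → ∀ᶠ j in (φ : Filter ℕ), ∃ D : ℕ, D ≠ 0 ∧ (D : ℝ) ≤ X j ^ ε ∧
    IsIntegral ℤ ((D : M) * z j)

/-- (BRGZ) from the sequences to the abstract part (MONG, SSFX, RDX, OMG, OSR, SLW, OIC, HEARTZ), as
`Helper71.HN.BRGH`; `R (none, σ) = σ⁻¹ (p σ / q σ)`, `R = 0` at the finite places -/
def ST_BRGZ : Prop := ∀ (M : Type) [Field M] [NumberField M] [IsGalois ℚ M] (S : Finset ℕ)
  (P : PF S M) (φ : Ultrafilter ℕ) (g : ℕ) (a : ℕ → ℕ → M) (m : ℕ → ℕ) (x y : ℕ → M)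
  (X : ℕ → ℝ) (p q : (M ≃ₐ[ℚ] M) → ℕ → M) (A η : ℝ), (∀ p ∈ S, p.Prime) → 1 ≤ g → 0 < η →
  Tendsto X (φ : Filter ℕ) atTop → (∀ σ, SpM P φ X (p σ)) → (∀ σ, SpM P φ X (q σ)) →
  (∀ i, i < 2 * g + 1 → Slw P φ X (a i)) → IntS φ X (fun j => (m j : M) * x j) →
  IntS φ X (fun j => (m j : M) ^ (g + 1) * y j) →
  (∀ᶠ j in (φ : Filter ℕ), (polR M g (fun i => a i j)).Separable ∧
    y j ^ 2 = (polR M g (fun i => a i j)).eval (x j) ∧ m j ≠ 0 ∧ (m j : ℝ) ≤ X j ^ A ∧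
    (∀ σ : M ≃ₐ[ℚ] M, q σ j ≠ 0 ∧ P.nv none (σ (x j)) ≤ X j ^ A) ∧
    (Fintype.card (M ≃ₐ[ℚ] M) : ℝ) * Real.log (m j) +
      ∑ σ : M ≃ₐ[ℚ] M, Real.log (max 1 (P.nv none (σ (x j) - (p σ j / q σ j) ^ 2))) +
      η * Real.log (X j) ≤
      1 / 2 * ∑ σ : M ≃ₐ[ℚ] M, Real.log (max 1 (P.nv none (σ (x j))))) → False

/-- the sum of the logarithmic sizes of the conjugates -/
noncomputable def Lam {M : Type} [Field M] [NumberField M] (ψ : M →+* ℂ) (x : M) : ℝ :=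
  ∑ σ : M ≃ₐ[ℚ] M, Real.log (max 1 ‖ψ (σ x)‖)

/-- (T1Z) the theorem over `M` (PFE, SLW, SPW, SPH, BRGZ), as `Helper2.HN.T1H`. A sequence of
counterexamples with `C = n + 1`; scale `X = exp (Lam ψ x)`, `X → ∞`; `n → ∞` along any ultrafilter
(`Lam > (n + 1) (H + 1)`). `HBZ ψ (exp (κ (H + 1)))` gives slow sequences (`κ (H + 1) ≤ ε Lam`
eventually). Monic form: `x' = x / a`, `y' = y / a ^ (g + 1)`, `a i = F_i a ^ (i - 2 g - 2)`, `a` the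
leading coefficient (slow, `≠ 0`). `m` is unchanged: `m x'` is integral up to slow denominators,
`m ^ (g + 1) y'` because its square is (`m (m x') ^ (2 g + 1) + ∑ a_i m ^ (2 g + 2 - i) (m x') ^ i`).
`card * log m ≤ θ Lam`, so `m ≤ X`, and `|σ x'| ≤ X ^ 2`: `A = 2`. For `η = (1/2 - θ) / 2`: the sizes
of `x` and `x'` (and of the differences) differ by slow factors -/
def ST_T1Z : Prop := ∀ (M : Type) [Field M] [NumberField M] [IsGalois ℚ M] (S : Finset ℕ)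
  (ψ : M →+* ℂ) (t g : ℕ) (κ θ B : ℝ), (∀ p ∈ S, p.Prime) → 1 ≤ g → θ < 1 / 2 →
  ∃ C : ℝ, 0 < C ∧ ∀ (F : M[X]) (x y : M) (H : ℝ) (m : ℕ) (c d : (M ≃ₐ[ℚ] M) → Fin t → ℤ)
    (a b : (M ≃ₐ[ℚ] M) → Fin t → M), 0 ≤ H →
    F.natDegree = 2 * g + 1 → F.Separable → y ^ 2 = F.eval x →
    (∀ i, HBZ ψ (Real.exp (κ * (H + 1))) (F.coeff i)) → m ≠ 0 → IsIntegral ℤ ((m : M) * x) →
    (∀ σ i, SV S (a σ i)) → (∀ σ i, SV S (b σ i)) →
    (∀ σ i, |(c σ i : ℝ)| ≤ Real.exp (κ * (H + 1))) →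
    (∀ σ i, |(d σ i : ℝ)| ≤ Real.exp (κ * (H + 1))) →
    (∀ σ, HBZ ψ (Real.exp (B * Lam ψ x)) (∑ i, (c σ i : M) * a σ i)) →
    (∀ σ, HBZ ψ (Real.exp (B * Lam ψ x)) (∑ i, (d σ i : M) * b σ i)) →
    (∀ σ, ∑ i, (d σ i : M) * b σ i ≠ 0) →
    (Fintype.card (M ≃ₐ[ℚ] M) : ℝ) * Real.log m +
      ∑ σ : M ≃ₐ[ℚ] M, Real.log (max 1 ‖ψ (σ x) - ψ (σ (F.coeff (2 * g + 1))) *
        ψ ((∑ i, (c σ i : M) * a σ i) / ∑ i, (d σ i : M) * b σ i) ^ 2‖) ≤ θ * Lam ψ x →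
    Lam ψ x ≤ C * (H + 1)

/-- (EMB) the embeddings of `K` are the restrictions of the conjugates of `ψ`, all with the same
multiplicity (`Helper14.AbsH.card_ext`, `Helper9.SUBK.st_GALA` or Mathlib) -/
def ST_EMB : Prop := ∀ (K M : Type) [Field K] [NumberField K] [Field M] [NumberField M]
  [IsGalois ℚ M] (i : K →+* M) (ψ : M →+* ℂ) (f : (K →+* ℂ) → ℝ),
  (Module.finrank ℚ K : ℝ) * ∑ σ : M ≃ₐ[ℚ] M, f ((ψ.comp (σ : M →+* M)).comp i) =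
    (Fintype.card (M ≃ₐ[ℚ] M) : ℝ) * ∑ τ : K →+* ℂ, f τ

/-- (HTK) heights (`Helper9.MTK`: `log_h`, `emb_le_height`, `hub`, and
`NumberField.exists_nat_le_mulHeight₁`) -/
def ST_HTK : Prop := ∀ (K : Type) [Field K] [NumberField K] (h : K → ℝ),
  (∀ a : K, h a =
    ((∑ w : NumberField.InfinitePlace K, (w.mult : ℝ) * Real.log (max 1 (w a))) +
      ∑ᶠ v : NumberField.FinitePlace K, Real.log (max 1 (v a))) /
      (Module.finrank ℚ K : ℝ)) →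
  (∀ a : K, 0 ≤ h a) ∧
  (∀ a : K, ∃ D : ℕ, D ≠ 0 ∧ (D : ℝ) ≤ Real.exp (Module.finrank ℚ K * h a) ∧
    IsIntegral ℤ ((D : K) * a)) ∧
  (∀ (a : K) (τ : K →+* ℂ), ‖τ a‖ ≤ Real.exp (Module.finrank ℚ K * h a)) ∧
  ∀ (a : K) (m : ℕ), m ≠ 0 → IsIntegral ℤ ((m : K) * a) →
    h a ≤ 2 * Real.log m + ∑ τ : K →+* ℂ, Real.log (max 1 ‖τ a‖)

/-- (FLDZ) a Galois number field which contains `K` and the group `Γ`
(`Helper45.SUBK.field_exists` for the group generated by `Γ` and `τ₀ θ`, `K = ℚ(θ)`, `θ ≠ 0`) -/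
def ST_FLDZ : Prop := ∀ (K : Type) [Field K] [NumberField K] (Γ : Subgroup ℂˣ), Γ.FG →
  (∀ γ ∈ Γ, IsAlgebraic ℚ ((γ : ℂˣ) : ℂ)) →
  ∃ (M : Type) (_ : Field M) (_ : NumberField M) (_ : IsGalois ℚ M) (S : Finset ℕ)
    (ψ : M →+* ℂ) (_ : K →+* M), (∀ p ∈ S, p.Prime) ∧
    ∀ γ ∈ Γ, ∃ ρ : M, SV S ρ ∧ ψ ρ = ((γ : ℂˣ) : ℂ)

/-- (FINZ) the final theorem (T1Z, EMB, HTK, FLDZ), as `Helper41.HN.FINH`: with the embedding
`i : K → M` and `τ = ψ σ i`; `Lam ψ (i x) = (card / [K : ℚ]) ∑_τ log max 1 |τ x|` (EMB), and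
`h x ≤ 2 log m + ∑_τ log max 1 |τ x| ≤ 2 ∑_τ log max 1 |τ x| ≤ 2 [K : ℚ] Lam ψ (i x)` (the hypothesis
gives `[K : ℚ] log m ≤ 1/2 ∑_τ log max 1 |τ x|`) -/
def ST_FINZ : Prop := ∀ (K : Type) [Field K] [NumberField K] (h : K → ℝ),
  (∀ a : K, h a =
    ((∑ w : NumberField.InfinitePlace K, (w.mult : ℝ) * Real.log (max 1 (w a))) +
      ∑ᶠ v : NumberField.FinitePlace K, Real.log (max 1 (v a))) /
      (Module.finrank ℚ K : ℝ)) →
  ∀ (Γ : Subgroup ℂˣ) (t d : ℕ) (κ θ B : ℝ), Γ.FG →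
    (∀ γ ∈ Γ, IsAlgebraic ℚ ((γ : ℂˣ) : ℂ)) → Odd d → 3 ≤ d → θ < 1 / 2 →
    ∃ C₁ C₂ : ℝ, 0 < C₁ ∧ 0 < C₂ ∧ ∀ F : K[X], F.natDegree = d → F.Separable →
      ∀ x y : K, y ^ 2 = F.eval x → ∀ H : ℝ, (∀ i, h (F.coeff i) ≤ H) →
        ∀ (m : ℕ) (p q : (K →+* ℂ) → ℂ), m ≠ 0 → IsIntegral ℤ ((m : K) * x) →
          (∀ τ, Sparse Γ t (Real.exp (κ * (H + 1))) (Real.exp (B * h x)) (p τ) ∧
            Sparse Γ t (Real.exp (κ * (H + 1))) (Real.exp (B * h x)) (q τ) ∧ q τ ≠ 0) →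
          (Module.finrank ℚ K : ℝ) * Real.log m +
            ∑ τ : K →+* ℂ, Real.log (max 1 ‖τ x - τ (F.coeff d) * (p τ / q τ) ^ 2‖) ≤
              θ * ∑ τ : K →+* ℂ, Real.log (max 1 ‖τ x‖) →
          h x ≤ C₁ * H + C₂

end Pool.Agent.Helper71.HZ
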