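import Pool.Agent.Helper71.HN.SheetZ
import Pool.Agent.Helper94.SUBW.SLW

/-!
Project HZ: row BRGZ, from the sequences to the abstract part.
-/

set_option autoImplicit false

namespace Pool.Agent.Helper71.HZ

open Polynomial Filter Finset Pool.Agent.Helper70.SUB Pool.Agent.Helper77.SUBK
  Pool.Agent.Helper70.SUBL Pool.Agent.Helper70.SUBW Pool.Agent.Helper71.JN Pool.Agent.Helper66.JN
  Pool.Agent.Helper71.HN
open Pool.Agent.Helper94.SUBW (isInt_natM nat_none)

section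
variable {M : Type} [Field M] [NumberField M] {S : Finset ℕ}

/-- the size of an element with a small denominator at the finite place `v` -/
theorem nv_den (P : PF S M) (hS : ∀ p ∈ S, p.Prime) {v : Option ℕ} (hv : v ∈ plc S)
    (hv0 : v ≠ none) (σ : M ≃ₐ[ℚ] M) {z : M} {D : ℕ} (hD : D ≠ 0)
    (h : IsIntegral ℤ ((D : M) * z)) : P.nv v (σ z) ≤ D := by
  have hAV := Pool.Agent.Helper15.SUB.AV
  obtain ⟨p, rfl⟩ := Option.ne_none_iff_exists'.1 hv0
  have hp := of_mem_some hv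
  have h3 : IsIntegral ℤ ((D : M) * σ z) := by
    have e : (D : M) * σ z = (σ : M →+* M) ((D : M) * z) := by simp
    rw [e]
    exact h.map (σ : M →+* M).toIntAlgHom
  have h5 : P.nv (some p) ((D : M) * σ z) ≤ 1 := P.integral_le hAV hS hp h3
  rw [P.mul _ hv, P.natCast hv] at h5
  have hD0 : ((D : ℕ) : ℤ) ≠ 0 := by exact_mod_cast hD
  have h6 := (hAV.2.2 S hS).2.2.2.2.2.1 p hp (D : ℤ) hD0
  rw [Int.cast_natCast, Int.cast_natCast, Nat.abs_cast] at h6
  have h7 : (0 : ℝ) < D := by exact_mod_cast Nat.pos_of_ne_zero hD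
  have h8 : 0 ≤ P.nv (some p) (σ z) := P.nn _ _
  calc P.nv (some p) (σ z) = 1 * P.nv (some p) (σ z) := (one_mul _).symm
    _ ≤ (av (some p) (D : ℚ) * D) * P.nv (some p) (σ z) := mul_le_mul_of_nonneg_right h6 h8
    _ = (av (some p) (D : ℚ) * P.nv (some p) (σ z)) * D := by ring
    _ ≤ 1 * D := mul_le_mul_of_nonneg_right h5 h7.le
    _ = D := one_mul _

/-- integral sequences up to slow denominators, of polynomial size -/
theorem os_int (P : PF S M) (hS : ∀ p ∈ S, p.Prime) (φ : Ultrafilter ℕ) (X : ℕ → ℝ)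
    (hX : Tendsto X (φ : Filter ℕ) atTop) (z : ℕ → M) (hz : IntS φ X z) (A : ℝ)
    (hA : ∀ᶠ j in (φ : Filter ℕ), ∀ σ : M ≃ₐ[ℚ] M, P.nv none (σ (z j)) ≤ X j ^ A) :
    OS P φ X z := by
  refine ⟨fun ε hε => ?_, max A 1, lt_max_of_lt_right one_pos, ?_⟩
  · filter_upwards [hz ε hε] with j h
    obtain ⟨D, h1, h2, h3⟩ := h
    refine ⟨D, h1, h2, 1, ⟨one_ne_zero, fun q hq hq1 => ?_⟩, ?_⟩
    · exact absurd (Nat.dvd_one.1 hq1) hq.ne_one
    · rw [Nat.cast_one, one_mul]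
      exact h3
  · filter_upwards [hA, hz 1 one_pos, hX.eventually_ge_atTop 1] with j h1 h2 h3
    intro v hv σ
    by_cases h0 : v = none
    · rw [h0]
      exact (h1 σ).trans (Real.rpow_le_rpow_of_exponent_le h3 (le_max_left _ _))
    · obtain ⟨D, h4, h5, h6⟩ := h2
      exact (nv_den P hS hv h0 σ h4 h6).trans
        (h5.trans (Real.rpow_le_rpow_of_exponent_le h3 (le_max_right _ _)))

variable {P : PF S M} {φ : Ultrafilter ℕ} {X : ℕ → ℝ}

/-- lower bound for the sizes of a sequence -/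
theorem low_max (hX : Tendsto X (φ : Filter ℕ) atTop) {nu : Pl S M → AbsoluteValue (Om P φ X) ℝ}
    (hN : IsN P φ X nu) (i : Pl S M) (h : Om P φ X) (z : ℕ → M) (hg : gm φ z = (h : UP M φ))
    {ε : ℝ} (hε : 0 < ε) :
    ∀ᶠ j in (φ : Filter ℕ), (Real.log (max 1 (nu i h)) - ε) * Real.log (X j) ≤
      Real.log (max 1 (P.nv i.1 (i.2 (z j)))) := by
  by_cases h1 : nu i h ≤ 1
  · filter_upwards [hX.eventually_ge_atTop 1] with j hj
    rw [max_eq_left h1, Real.log_one, zero_sub]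
    have h2 : 0 ≤ Real.log (X j) := Real.log_nonneg hj
    have h3 : 0 ≤ Real.log (max 1 (P.nv i.1 (i.2 (z j)))) := Real.log_nonneg (le_max_left _ _)
    have h4 : 0 ≤ ε * Real.log (X j) := mul_nonneg hε.le h2
    linarith
  · have h1' := not_le.1 h1
    have h2 : Real.exp (Real.log (nu i h)) ≤ nu i h := by
      rw [Real.exp_log (by linarith)]
    have h3 := ((hN.2 i h z hg _).2).1 h2 ε hε
    filter_upwards [h3, hX.eventually_ge_atTop 1] with j h4 h5
    rw [max_eq_right h1'.le]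
    have h6 : 0 < X j := by linarith
    have h7 := Real.log_le_log (Real.rpow_pos_of_pos h6 _) (h4.trans (le_max_right 1 _))
    rwa [Real.log_rpow h6] at h7

/-- the same for nonzero elements, without the maximum -/
theorem low_log (hX : Tendsto X (φ : Filter ℕ) atTop) {nu : Pl S M → AbsoluteValue (Om P φ X) ℝ}
    (hN : IsN P φ X nu) (i : Pl S M) (h : Om P φ X) (h0 : h ≠ 0) (z : ℕ → M)
    (hg : gm φ z = (h : UP M φ)) {ε : ℝ} (hε : 0 < ε) :
    ∀ᶠ j in (φ : Filter ℕ), (Real.log (nu i h) - ε) * Real.log (X j) ≤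
      Real.log (P.nv i.1 (i.2 (z j))) := by
  have h2 : Real.exp (Real.log (nu i h)) ≤ nu i h := by
    rw [Real.exp_log ((nu i).pos h0)]
  have h3 := ((hN.2 i h z hg _).2).1 h2 ε hε
  filter_upwards [h3, hX.eventually_ge_atTop 1] with j h4 h5
  have h6 : 0 < X j := by linarith
  have h7 := Real.log_le_log (Real.rpow_pos_of_pos h6 _) h4
  rwa [Real.log_rpow h6] at h7

/-- upper bound -/
theorem upp_max (hX : Tendsto X (φ : Filter ℕ) atTop) {nu : Pl S M → AbsoluteValue (Om P φ X) ℝ}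
    (hN : IsN P φ X nu) (i : Pl S M) (h : Om P φ X) (z : ℕ → M) (hg : gm φ z = (h : UP M φ))
    {ε : ℝ} (hε : 0 < ε) :
    ∀ᶠ j in (φ : Filter ℕ), Real.log (max 1 (P.nv i.1 (i.2 (z j)))) ≤
      (Real.log (max 1 (nu i h)) + ε) * Real.log (X j) := by
  have h1 : (1 : ℝ) ≤ max 1 (nu i h) := le_max_left _ _
  have h2 : nu i h ≤ Real.exp (Real.log (max 1 (nu i h))) := by
    rw [Real.exp_log (by linarith)]
    exact le_max_right _ _
  have h3 := ((hN.2 i h z hg _).1).1 h2 ε hε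
  have h0 : 0 ≤ Real.log (max 1 (nu i h)) := Real.log_nonneg h1
  filter_upwards [h3, hX.eventually_ge_atTop 1] with j h4 h5
  have h6 : 0 < X j := by linarith
  have h7 : (1 : ℝ) ≤ X j ^ (Real.log (max 1 (nu i h)) + ε) :=
    Real.one_le_rpow h5 (by linarith)
  have h8 := Real.log_le_log (lt_of_lt_of_le one_pos (le_max_left _ _)) (max_le h7 h4)
  rwa [Real.log_rpow h6] at h8

end

/-- (BRGZ) -/
theorem BRGZ (hMONG : ST_MONG) (hSSFX : ST_SSFX) (hRDX : ST_RDX) (hOMG : ST_OMG)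
    (hOSR : ST_OSR) (hHEART : ST_HEARTZ) (hSLW : ST_SLW) (hOIC : ST_OIC) : ST_BRGZ := by
  intro M _ _ _ S P φ g a m x y X p q A η hS hg hη hX hR hR' ha hmx hmy hall
  classical
  choose t c u hc hu hRs using hR
  choose t' c' u' hc' hu' hRs' using hR'
  obtain ⟨r, w, hw, hI, hmu, hmw⟩ := hMONG M S P φ X
    ((Σ σ : M ≃ₐ[ℚ] M, Fin (t σ)) ⊕ (Σ σ : M ≃ₐ[ℚ] M, Fin (t' σ)))
    (Sum.elim (fun s => u s.1 s.2) (fun s => u' s.1 s.2)) hS hX
    (by
      rintro (i | i)
      · exact hu i.1 i.2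
      · exact hu' i.1 i.2)
  obtain ⟨D, hD⟩ := hSSFX M S P φ X r w hS hX hw hI
  obtain ⟨g1, g2, g3, g4, g5, g6, g7, g8⟩ := hOMG M S P φ X hS hX
  have : CharZero (Om P φ X) := g6
  obtain ⟨rd1, rd2⟩ := hRDX M S P φ X r w D hS hX hw hD
  obtain ⟨-, -, -, sl4, sl5, -, -, -, -, -, -, -, -⟩ := hSLW M S P φ X hS hX
  obtain ⟨-, -, -, -, -, -, -, os8, -⟩ := hOSR M S P φ X hS hX
  have hX1 := hX.eventually_ge_atTop 1
  -- the exponent
  obtain ⟨A', hA'⟩ : ∃ A' : ℝ, A' = max A 0 := ⟨_, rfl⟩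
  have hA0 : 0 ≤ A' := hA' ▸ le_max_right _ _
  have hmA : ∀ᶠ j in (φ : Filter ℕ), (m j : ℝ) ≤ X j ^ A' := by
    filter_upwards [hall, hX1] with j h1 h2
    exact h1.2.2.2.1.trans (Real.rpow_le_rpow_of_exponent_le h2 (hA' ▸ le_max_left _ _))
  have hxA : ∀ᶠ j in (φ : Filter ℕ), ∀ σ : M ≃ₐ[ℚ] M, P.nv none (σ (x j)) ≤ X j ^ A' := by
    filter_upwards [hall, hX1] with j h1 h2
    intro σ
    exact (h1.2.2.2.2.1 σ).2.trans (Real.rpow_le_rpow_of_exponent_le h2 (hA' ▸ le_max_left _ _))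
  have haA : ∀ᶠ j in (φ : Filter ℕ), ∀ i ∈ range (2 * g + 1), ∀ σ : M ≃ₐ[ℚ] M,
      P.nv none (σ (a i j)) ≤ X j := by
    rw [Filter.eventually_all_finset]
    intro i hi
    rw [Filter.eventually_all]
    intro σ
    have h1 := sl5 (a i) (ha i (Finset.mem_range.1 hi)) none mem_none σ 1 one_pos
    filter_upwards [h1] with j h2
    rwa [Real.rpow_one] at h2
  have hyA : ∀ᶠ j in (φ : Filter ℕ), ∀ σ : M ≃ₐ[ℚ] M,
      P.nv none (σ (y j)) ≤ X j * (X j ^ A') ^ (2 * g + 1) := by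
    filter_upwards [hall, hxA, haA, hX.eventually_ge_atTop (2 * g + 2)] with j h1 h2 h3 h4
    intro σ
    obtain ⟨Y, hY⟩ : ∃ Y : ℝ, Y = X j ^ A' := ⟨_, rfl⟩
    have hg0 : (0 : ℝ) ≤ g := Nat.cast_nonneg g
    have hX1' : 1 ≤ X j := by linarith
    have hY1 : 1 ≤ Y := by
      rw [hY]
      exact Real.one_le_rpow hX1' hA0
    have h2' := h2 σ
    rw [← hY] at h2' ⊢
    have h5 : y j ^ 2 = (x j) ^ (2 * g + 1) + ∑ i ∈ range (2 * g + 1), a i j * (x j) ^ i := by
      have h8 := polR_eval (R := M) (S := M) g (fun i => a i j) (x j)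
      rw [coe_aeval_eq_eval] at h8
      rw [h1.2.1, h8]
      rfl
    have h6 : P.nv none (σ (y j)) ^ 2 ≤ Y ^ (2 * g + 1) + ∑ i ∈ range (2 * g + 1),
        X j * Y ^ (2 * g + 1) := by
      rw [← P.pow mem_none, ← map_pow, h5, map_add]
      refine (P.add none mem_none _ _).trans (add_le_add ?_ ?_)
      · rw [map_pow, P.pow mem_none]
        exact pow_le_pow_left₀ (P.nn _ _) h2' _
      · rw [map_sum]
        refine (P.sum_le mem_none _ _).trans (Finset.sum_le_sum fun i hi => ?_)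
        rw [map_mul, map_pow, P.mul none mem_none, P.pow mem_none]
        refine mul_le_mul (h3 i hi σ) ?_ (pow_nonneg (P.nn _ _) _) (by linarith)
        exact (pow_le_pow_left₀ (P.nn _ _) h2' _).trans
          (pow_le_pow_right₀ hY1 (Finset.mem_range.1 hi).le)
    rw [Finset.sum_const, Finset.card_range, nsmul_eq_mul] at h6
    have h7 : (1 : ℝ) ≤ Y ^ (2 * g + 1) := one_le_pow₀ hY1
    have h8 : P.nv none (σ (y j)) ^ 2 ≤ (X j * Y ^ (2 * g + 1)) ^ 2 := by
      refine h6.trans ?_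
      have e1 : (X j * Y ^ (2 * g + 1)) ^ 2 = (X j * Y ^ (2 * g + 1)) * (X j * Y ^ (2 * g + 1)) := by
        ring
      have h9 : (2 * (g : ℝ) + 2) ≤ X j * Y ^ (2 * g + 1) := by nlinarith
      have h10 : 0 ≤ X j * Y ^ (2 * g + 1) := by positivity
      have h11 : Y ^ (2 * g + 1) ≤ X j * Y ^ (2 * g + 1) := by nlinarith
      rw [e1]
      push_cast
      nlinarith [mul_le_mul_of_nonneg_right h9 h10]
    exact (pow_le_pow_iff_left₀ (P.nn none _) (by positivity) (by norm_num)).1 h8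
  have hmb : ∀ᶠ j in (φ : Filter ℕ), |((m j : ℤ) : ℝ)| ≤ X j ^ A' := by
    filter_upwards [hmA] with j h1
    rw [Int.cast_natCast, abs_of_nonneg (Nat.cast_nonneg _)]
    exact h1
  -- the classes
  have hmOS : OS P φ X (fun j => (m j : M)) := by
    have h1 := os8 (fun j => (m j : ℤ)) A' hmb
    have e : (fun j => (((m j : ℕ) : ℤ) : M)) = fun j => (m j : M) := by
      funext j
      exact Int.cast_natCast _
    rwa [e] at h1
  have hmxOS : OS P φ X (fun j => (m j : M) * x j) := by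
    refine os_int P hS φ X hX _ hmx (A' + A') ?_
    filter_upwards [hmA, hxA, hX1] with j h1 h2 h3
    intro σ
    rw [map_mul, map_natCast, P.mul none mem_none, nat_none, Real.rpow_add (by linarith)]
    exact mul_le_mul h1 (h2 σ) (P.nn _ _) (by positivity)
  have hmyOS : OS P φ X (fun j => (m j : M) ^ (g + 1) * y j) := by
    refine os_int P hS φ X hX _ hmy (A' * ((g + 1 : ℕ) : ℝ) + (1 + A' * ((2 * g + 1 : ℕ) : ℝ))) ?_
    filter_upwards [hmA, hyA, hX1] with j h1 h2 h3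
    intro σ
    have hX0 : 0 < X j := by linarith
    rw [map_mul, map_pow, map_natCast, P.mul none mem_none, P.pow mem_none, nat_none,
      Real.rpow_add hX0, Real.rpow_add hX0, Real.rpow_one, Real.rpow_mul hX0.le,
      Real.rpow_mul hX0.le, Real.rpow_natCast, Real.rpow_natCast]
    exact mul_le_mul (pow_le_pow_left₀ (Nat.cast_nonneg _) h1 _) (h2 σ) (P.nn _ _)
      (by positivity)
  obtain ⟨gm', hgm⟩ : ∃ z : Om P φ X, gm φ (fun j => (m j : M)) = (z : UP M φ) :=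
    ⟨⟨_, g4 _ hmOS⟩, rfl⟩
  obtain ⟨gmx, hgmx⟩ : ∃ z : Om P φ X, gm φ (fun j => (m j : M) * x j) = (z : UP M φ) :=
    ⟨⟨_, g4 _ hmxOS⟩, rfl⟩
  obtain ⟨gmy, hgmy⟩ : ∃ z : Om P φ X, gm φ (fun j => (m j : M) ^ (g + 1) * y j) =
      (z : UP M φ) := ⟨⟨_, g4 _ hmyOS⟩, rfl⟩
  have hgmO : gm' ∈ D.O := (hD.hO gm').2 ((g1 _).2 ⟨_, hmOS, hgm⟩)
  have hgmxO : gmx ∈ D.O := (hD.hO gmx).2 ((g1 _).2 ⟨_, hmxOS, hgmx⟩)
  have hgmyO : gmy ∈ D.O := (hD.hO gmy).2 ((g1 _).2 ⟨_, hmyOS, hgmy⟩)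
  have hgm0 : gm' ≠ 0 := by
    intro h0
    rw [h0] at hgm
    have h1 : gm φ (fun j => (m j : M)) = gm φ (fun _ => (0 : M)) := by
      rw [hgm]
      rfl
    rw [Pool.Agent.Helper47.SUBW.gm_eq] at h1
    obtain ⟨j, h2, h3⟩ := (h1.and hall).exists
    exact h3.2.2.1 (by exact_mod_cast h2)
  have hgm0' : ((gm' : Om P φ X) : UP M φ) ≠ 0 := by
    intro h
    exact hgm0 (Subtype.ext h)
  obtain ⟨gx, hgx⟩ : ∃ z : Om P φ X, gm φ x = (z : UP M φ) := by
    refine ⟨gmx / gm', ?_⟩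
    push_cast
    rw [← hgmx, ← hgm, eq_div_iff (by rw [hgm]; exact hgm0')]
    show gm φ (fun j => x j * (m j : M)) = _
    rw [Pool.Agent.Helper47.SUBW.gm_eq]
    filter_upwards with j
    ring
  obtain ⟨gy, hgy⟩ : ∃ z : Om P φ X, gm φ y = (z : UP M φ) := by
    refine ⟨gmy / gm' ^ (g + 1), ?_⟩
    push_cast
    rw [← hgmy, ← hgm, eq_div_iff (pow_ne_zero _ (by rw [hgm]; exact hgm0'))]
    show gm φ (fun j => y j * (m j : M) ^ (g + 1)) = _
    rw [Pool.Agent.Helper47.SUBW.gm_eq]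
    filter_upwards with j
    ring
  have hmx_eq : gm' * gx = gmx := by
    apply Subtype.ext
    push_cast
    rw [← hgmx, ← hgm, ← hgx]
    rfl
  have hmy_eq : gm' ^ (g + 1) * gy = gmy := by
    apply Subtype.ext
    push_cast
    rw [← hgmy, ← hgm, ← hgy]
    rfl
  -- the conjugates of `p` and `q`
  have hRD : ∀ σ τ : M ≃ₐ[ℚ] M, ∃ z ∈ D.R,
      gm φ (fun j => τ (p σ j)) = ((z : Om P φ X) : UP M φ) := by
    intro σ τ
    refine rd2 (t σ) (fun i j => τ (c σ i j)) (fun i j => τ (u σ i j)) _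
      (fun i => sl4 _ τ (hc σ i)) (fun i => hmu (Sum.inl ⟨σ, i⟩) τ) ?_
    filter_upwards [hRs σ] with j hj
    rw [← hj, map_sum]
    exact Finset.sum_congr rfl fun i _ => (map_mul τ _ _).symm
  have hRD' : ∀ σ τ : M ≃ₐ[ℚ] M, ∃ z ∈ D.R,
      gm φ (fun j => τ (q σ j)) = ((z : Om P φ X) : UP M φ) := by
    intro σ τ
    refine rd2 (t' σ) (fun i j => τ (c' σ i j)) (fun i j => τ (u' σ i j)) _
      (fun i => sl4 _ τ (hc' σ i)) (fun i => hmu (Sum.inr ⟨σ, i⟩) τ) ?_
    filter_upwards [hRs' σ] with j hj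
    rw [← hj, map_sum]
    exact Finset.sum_congr rfl fun i _ => (map_mul τ _ _).symm
  choose Rt hRtR hRt using hRD
  choose Rt' hRtR' hRt' using hRD'
  set R : Pl S M → Om P φ X := fun i =>
    if (i.1 : Option ℕ) = none then Rt i.2 (i.2)⁻¹ / Rt' i.2 (i.2)⁻¹ else 0 with hRdef
  have hN := hD.hN
  have hK : ∀ i, R i ∈ D.K := by
    intro i
    rw [hRdef]
    dsimp only
    split_ifs
    · exact D.K.div_mem (Pool.Agent.Helper47.JN.R_le_K D _ (hRtR _ _))
        (Pool.Agent.Helper47.JN.R_le_K D _ (hRtR' _ _))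
    · exact D.K.zero_mem
  -- the finite places
  have hfi : ∀ i : Pl S M, (i.1 : Option ℕ) ≠ none → ∀ (z : ℕ → M) (h : Om P φ X),
      IntS φ X z → gm φ z = (h : UP M φ) → D.nu i h ≤ 1 := by
    intro i hi z h hz hgz
    have h1 : LeA P φ X i z 0 := by
      intro ε hε
      filter_upwards [hz ε hε] with j h2
      obtain ⟨E, h3, h4, h5⟩ := h2
      rw [zero_add]
      exact (nv_den P hS i.1.2 hi i.2 h3 h5).trans h4
    have h2 := ((hN.2 i h z hgz 0).1).2 h1
    rwa [Real.exp_zero] at h2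
  have hmI : IntS φ X (fun j => (m j : M)) := by
    intro ε hε
    filter_upwards [hX1] with j hj
    refine ⟨1, one_ne_zero, ?_, ?_⟩
    · rw [Nat.cast_one]
      exact Real.one_le_rpow hj hε.le
    · rw [Nat.cast_one, one_mul]
      exact isInt_natM _
  -- the main inequality
  set Fn : Pl S M → ℝ := fun i => Real.log (D.nu i gm') +
    Real.log (max 1 (D.nu i (gx - R i ^ 2))) - 1 / 2 * Real.log (max 1 (D.nu i gx)) with hFn
  have hFfin : ∀ i : Pl S M, (i.1 : Option ℕ) ≠ none → Fn i ≤ 0 := by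
    intro i hi
    have h1 : D.nu i gm' ≤ 1 := hfi i hi _ _ hmI hgm
    have h2 : D.nu i (gm' * gx) ≤ 1 := by
      rw [hmx_eq]
      exact hfi i hi _ _ hmx hgmx
    have h3 : R i = 0 := if_neg hi
    have h4 : 0 < D.nu i gm' := (D.nu i).pos hgm0
    have h5 : (1 : ℝ) ≤ max 1 (D.nu i gx) := le_max_left _ _
    have h6 : Real.log (D.nu i gm') + Real.log (max 1 (D.nu i gx)) ≤ 0 := by
      rw [← Real.log_mul h4.ne' (by linarith)]
      refine Real.log_nonpos (by positivity) ?_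
      rw [mul_max_of_nonneg _ _ h4.le, mul_one, ← map_mul]
      exact max_le h1 h2
    have h7 : 0 ≤ Real.log (max 1 (D.nu i gx)) := Real.log_nonneg h5
    have h8 : gx - R i ^ 2 = gx := by rw [h3]; ring
    rw [hFn]
    dsimp only
    rw [h8]
    linarith
  obtain ⟨v0, hv0⟩ : ∃ v0 : {v : Option ℕ // v ∈ plc S}, v0 = ⟨none, mem_none⟩ := ⟨_, rfl⟩
  have hFinf : ∑ σ : M ≃ₐ[ℚ] M, Fn (v0, σ) < 0 := by
    obtain ⟨cd, hcd⟩ : ∃ cd : ℝ, cd = (Fintype.card (M ≃ₐ[ℚ] M) : ℝ) := ⟨_, rfl⟩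
    have hcd1 : 0 < cd := by
      rw [hcd]
      exact_mod_cast Fintype.card_pos
    obtain ⟨ε, hε⟩ : ∃ ε : ℝ, ε = η / (3 * cd) := ⟨_, rfl⟩
    have hε0 : 0 < ε := by rw [hε]; positivity
    have e1 : ∀ᶠ j in (φ : Filter ℕ), ∀ σ : M ≃ₐ[ℚ] M,
        (Real.log (D.nu (v0, σ) gm') - ε) * Real.log (X j) ≤ Real.log (m j) := by
      rw [Filter.eventually_all]
      intro σ
      filter_upwards [low_log hX hN (v0, σ) gm' hgm0 _ hgm hε0] with j h1
      refine h1.trans (le_of_eq ?_)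
      rw [hv0]
      dsimp only
      rw [map_natCast, nat_none]
    have e2 : ∀ᶠ j in (φ : Filter ℕ), ∀ σ : M ≃ₐ[ℚ] M,
        (Real.log (max 1 (D.nu (v0, σ) (gx - R (v0, σ) ^ 2))) - ε) * Real.log (X j) ≤
          Real.log (max 1 (P.nv none (σ (x j) - (p σ j / q σ j) ^ 2))) := by
      rw [Filter.eventually_all]
      intro σ
      have h1 : gm φ (fun j => x j - ((σ⁻¹ : M ≃ₐ[ℚ] M) (p σ j) / (σ⁻¹ : M ≃ₐ[ℚ] M) (q σ j)) ^ 2) =
          ((gx - R (v0, σ) ^ 2 : Om P φ X) : UP M φ) := by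
        have h2 : R (v0, σ) = Rt σ σ⁻¹ / Rt' σ σ⁻¹ := by
          rw [hRdef]
          dsimp only
          rw [if_pos (by rw [hv0])]
        rw [h2]
        push_cast
        rw [← hgx, ← hRt, ← hRt']
        rfl
      filter_upwards [low_max hX hN (v0, σ) _ _ h1 hε0] with j h2
      refine h2.trans (le_of_eq ?_)
      have h3 : σ (x j - ((σ⁻¹ : M ≃ₐ[ℚ] M) (p σ j) / (σ⁻¹ : M ≃ₐ[ℚ] M) (q σ j)) ^ 2) =
          σ (x j) - (p σ j / q σ j) ^ 2 := by
        rw [map_sub, map_pow, map_div₀, ← AlgEquiv.mul_apply, ← AlgEquiv.mul_apply,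
          mul_inv_cancel, AlgEquiv.one_apply, AlgEquiv.one_apply]
      rw [hv0]
      dsimp only
      rw [h3]
    have e3 : ∀ᶠ j in (φ : Filter ℕ), ∀ σ : M ≃ₐ[ℚ] M,
        Real.log (max 1 (P.nv none (σ (x j)))) ≤
          (Real.log (max 1 (D.nu (v0, σ) gx)) + ε) * Real.log (X j) := by
      rw [Filter.eventually_all]
      intro σ
      filter_upwards [upp_max hX hN (v0, σ) gx x hgx hε0] with j h1
      rw [hv0] at h1 ⊢
      exact h1
    obtain ⟨j, h1, h2, h3, h4, h5⟩ :=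
      (e1.and (e2.and (e3.and (hall.and (hX.eventually_ge_atTop (Real.exp 1)))))).exists
    have hL : 1 ≤ Real.log (X j) := by
      have := Real.log_le_log (Real.exp_pos 1) h5
      rwa [Real.log_exp] at this
    have h6 := h4.2.2.2.2.2
    obtain ⟨L, hLd⟩ : ∃ L : ℝ, L = Real.log (X j) := ⟨_, rfl⟩
    rw [← hLd] at h1 h2 h3 h6 hL
    have h7 : (∑ σ : M ≃ₐ[ℚ] M, Fn (v0, σ)) * L ≤ ∑ σ : M ≃ₐ[ℚ] M, (Real.log (m j) +
        Real.log (max 1 (P.nv none (σ (x j) - (p σ j / q σ j) ^ 2))) -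
        1 / 2 * Real.log (max 1 (P.nv none (σ (x j)))) + 5 / 2 * ε * L) := by
      rw [Finset.sum_mul]
      refine Finset.sum_le_sum fun σ _ => ?_
      have i1 := h1 σ
      have i2 := h2 σ
      have i3 := h3 σ
      rw [hFn]
      dsimp only
      nlinarith
    have h7' : ∑ σ : M ≃ₐ[ℚ] M, (Real.log (m j) +
        Real.log (max 1 (P.nv none (σ (x j) - (p σ j / q σ j) ^ 2))) -
        1 / 2 * Real.log (max 1 (P.nv none (σ (x j)))) + 5 / 2 * ε * L) =
        cd * Real.log (m j) +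
        ∑ σ : M ≃ₐ[ℚ] M, Real.log (max 1 (P.nv none (σ (x j) - (p σ j / q σ j) ^ 2))) -
        1 / 2 * ∑ σ : M ≃ₐ[ℚ] M, Real.log (max 1 (P.nv none (σ (x j)))) +
        cd * (5 / 2 * ε * L) := by
      rw [Finset.sum_add_distrib, Finset.sum_sub_distrib, Finset.sum_add_distrib,
        Finset.sum_const, Finset.sum_const, ← Finset.mul_sum, Finset.card_univ, nsmul_eq_mul,
        nsmul_eq_mul, hcd]
    rw [h7'] at h7
    have h8 : (∑ σ : M ≃ₐ[ℚ] M, Fn (v0, σ)) * L ≤ -η * L + cd * (5 / 2 * ε * L) := by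
      rw [← hcd] at h6
      linarith
    have h9 : cd * (5 / 2 * ε * L) = 5 / 6 * η * L := by
      rw [hε]
      field_simp
      ring
    have h10 : (∑ σ : M ≃ₐ[ℚ] M, Fn (v0, σ)) * L < 0 := by
      rw [h9] at h8
      have : 0 < η * L := by positivity
      linarith
    by_contra hc
    have := mul_nonneg (not_lt.1 hc) (by linarith : 0 ≤ L)
    linarith
  have hmain : ∑ i, Fn i < 0 := by
    rw [Fintype.sum_prod_type]
    refine lt_of_le_of_lt ?_ hFinf
    have h1 : ∀ v : {v : Option ℕ // v ∈ plc S}, ∑ σ : M ≃ₐ[ℚ] M, Fn (v, σ) ≤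
        if v = v0 then ∑ σ : M ≃ₐ[ℚ] M, Fn (v0, σ) else 0 := by
      intro v
      split_ifs with h
      · rw [h]
      · refine Finset.sum_nonpos fun σ _ => hFfin _ fun h' => h ?_
        rw [hv0]
        exact Subtype.ext h'
    refine (Finset.sum_le_sum fun v _ => h1 v).trans (le_of_eq ?_)
    rw [Finset.sum_ite_eq' Finset.univ v0]
    simp
  -- the polynomial
  have hci : ∀ i, ∃ b : Sl P φ X, i < 2 * g + 1 →
      gm φ (a i) = ((b : Om P φ X) : UP M φ) := by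
    intro i
    by_cases hi : i < 2 * g + 1
    · have h1 := g5 _ (ha i hi)
      exact ⟨⟨⟨_, h1⟩, (g3 _).2 ⟨_, ha i hi, rfl⟩⟩, fun _ => rfl⟩
    · exact ⟨0, fun h => absurd h hi⟩
  choose b hb' using hci
  set f : (Sl P φ X)[X] := polR (Sl P φ X) g b with hf
  have hmap : f.map ((Om P φ X).subtype.comp (Sl P φ X).subtype) =
      polR (UP M φ) g (fun i => gm φ (a i)) := by
    rw [hf, polR_map]
    exact polR_congr g fun i hi => (hb' i hi).symm
  have hfs : f.Separable := by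
    rw [← separable_map ((Om P φ X).subtype.comp (Sl P φ X).subtype), hmap]
    refine sep_up φ g a ?_
    filter_upwards [hall] with j h1
    exact h1.1
  have hcu : gy ^ 2 = aeval gx f := by
    apply Subtype.ext
    rw [hf, polR_eval]
    push_cast
    rw [← hgx, ← hgy]
    have h1 : ∀ i ∈ range (2 * g + 1), ((algebraMap (Sl P φ X) (Om P φ X) (b i) : Om P φ X) :
        UP M φ) * gm φ x ^ i = gm φ (fun j => a i j * x j ^ i) := by
      intro i hi
      have h2 : ((algebraMap (Sl P φ X) (Om P φ X) (b i) : Om P φ X) : UP M φ) =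
          gm φ (a i) := (hb' i (Finset.mem_range.1 hi)).symm
      rw [h2]
      rfl
    rw [Finset.sum_congr rfl h1]
    have h3 : ∑ i ∈ range (2 * g + 1), gm φ (fun j => a i j * x j ^ i) =
        gm φ (fun j => ∑ i ∈ range (2 * g + 1), a i j * x j ^ i) := by
      have h4 := map_sum (Germ.coeRingHom (φ : Filter ℕ) : (ℕ → M) →+* Germ (φ : Filter ℕ) M)
        (fun i => fun j => a i j * x j ^ i) (range (2 * g + 1))
      refine h4.symm.trans ?_
      show gm φ (∑ i ∈ range (2 * g + 1), fun j => a i j * x j ^ i) = _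
      congr 1
      funext j
      rw [Finset.sum_apply]
    rw [h3]
    show gm φ (fun j => y j ^ 2) = gm φ (fun j => x j ^ (2 * g + 1) +
      ∑ i ∈ range (2 * g + 1), a i j * x j ^ i)
    rw [Pool.Agent.Helper47.SUBW.gm_eq]
    filter_upwards [hall] with j h5
    have h8 := polR_eval (R := M) (S := M) g (fun i => a i j) (x j)
    rw [coe_aeval_eq_eval] at h8
    rw [h5.2.1, h8]
    rfl
  have hH : HW D g f gm' gx gy R := by
    refine
      { hg := hg
        fm := polR_monic g b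
        fd := polR_natDegree g b
        fs := hfs
        ic := hOIC M S P φ X r w D hS hX hw hD
        m0 := hgm0
        mO := hgmO
        xO := by rw [hmx_eq]; exact hgmxO
        yO := by rw [hmy_eq]; exact hgmyO
        cu := hcu
        RR := hK
        main := ?_ }
    have h1 : ∑ i, Fn i = ∑ i, Real.log (D.nu i gm') +
        ∑ i, Real.log (max 1 (D.nu i (gx - R i ^ 2))) -
        1 / 2 * ∑ i, Real.log (max 1 (D.nu i gx)) := by
      rw [hFn, Finset.sum_sub_distrib, Finset.sum_add_distrib, ← Finset.mul_sum]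
    rw [h1] at hmain
    linarith
  exact hHEART _ _ _ r D g f gm' gx gy _ hH

end Pool.Agent.Helper71.HZ
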