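import Pool.Agent.Helper71.HN.SheetE
import Pool.Agent.Helper94.SUBW.SLW

/-!
Project HE: the monic polynomial `polD` over the ultrapower, square roots of `OS` sequences.
-/

set_option autoImplicit false

namespace Pool.Agent.Helper71.HE

open Polynomial Filter Finset Pool.Agent.Helper70.SUB Pool.Agent.Helper77.SUBK
  Pool.Agent.Helper70.SUBL Pool.Agent.Helper70.SUBW Pool.Agent.Helper71.JN Pool.Agent.Helper66.JN
  Pool.Agent.Helper71.HN Pool.Agent.Helper71.HZ
open Pool.Agent.Helper94.SUBW (isInt_natM)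

section
variable {R : Type} [CommRing R]

theorem polD_map {S : Type} [CommRing S] (h : R →+* S) (n : ℕ) (c : ℕ → R) :
    (polD R n c).map h = polD S n (fun i => h (c i)) := by
  unfold polD
  rw [Polynomial.map_add, Polynomial.map_pow, map_X, Polynomial.map_sum]
  congr 1
  refine Finset.sum_congr rfl fun i _ => ?_
  rw [Polynomial.map_mul, map_C, Polynomial.map_pow, map_X]

theorem polD_deg (n : ℕ) (c : ℕ → R) :
    (∑ i ∈ range n, C (c i) * X ^ i : R[X]).degree < (n : WithBot ℕ) := by
  refine (degree_sum_le _ _).trans_lt ?_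
  rw [Finset.sup_lt_iff (WithBot.bot_lt_coe _)]
  intro i hi
  refine (degree_C_mul_X_pow_le i _).trans_lt ?_
  exact_mod_cast Finset.mem_range.1 hi

theorem polD_monic (n : ℕ) (c : ℕ → R) : (polD R n c).Monic :=
  monic_X_pow_add (polD_deg n c)

theorem polD_natDegree [Nontrivial R] (n : ℕ) (c : ℕ → R) : (polD R n c).natDegree = n := by
  unfold polD
  rw [natDegree_add_eq_left_of_degree_lt, natDegree_X_pow]
  rw [degree_X_pow]
  exact polD_deg n c

theorem polD_congr (n : ℕ) {c c' : ℕ → R} (h : ∀ i, i < n → c i = c' i) :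
    polD R n c = polD R n c' := by
  unfold polD
  congr 1
  exact Finset.sum_congr rfl fun i hi => by rw [h i (Finset.mem_range.1 hi)]

theorem polD_eval {S : Type} [CommRing S] [Algebra R S] (n : ℕ) (c : ℕ → R) (x : S) :
    aeval x (polD R n c) = x ^ n + ∑ i ∈ range n, algebraMap R S (c i) * x ^ i := by
  unfold polD
  rw [map_add, map_pow, aeval_X, map_sum]
  congr 1
  refine Finset.sum_congr rfl fun i _ => ?_
  rw [map_mul, aeval_C, map_pow, aeval_X]

end

/-- separability in terms of a resultant -/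
theorem sepD_iff {E : Type} [Field E] [CharZero E] (n : ℕ) (hn : 1 ≤ n) (c : ℕ → E) :
    (polD E n c).Separable ↔
      resultant (polD E n c) (derivative (polD E n c)) n (n - 1) ≠ 0 := by
  have h1 := polD_natDegree n c
  have h2 : (derivative (polD E n c)).natDegree = n - 1 := by
    rw [natDegree_eq_of_degree_eq_some]
    rw [degree_derivative (by rw [h1]; omega), h1]
  have h3 := isUnit_resultant_iff_isCoprime (g := derivative (polD E n c)) (polD_monic n c)
  rw [h1, h2, isUnit_iff_ne_zero] at h3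
  exact h3.symm

theorem sepD_up {M : Type} [Field M] [CharZero M] (φ : Ultrafilter ℕ) (n : ℕ) (hn : 1 ≤ n)
    (a : ℕ → ℕ → M) (h : ∀ᶠ j in (φ : Filter ℕ), (polD M n (fun i => a i j)).Separable) :
    (polD (UP M φ) n (fun i => gm φ (a i))).Separable := by
  have hch : CharZero (UP M φ) := by
    refine ⟨fun m n hmn => ?_⟩
    have h1 : gm φ (fun _ => (m : M)) = gm φ (fun _ => (n : M)) := hmn
    rw [Pool.Agent.Helper47.SUBW.gm_eq] at h1
    obtain ⟨j, hj⟩ := h1.exists
    exact_mod_cast hj
  set ρ : ℕ → M := resultant (polD (ℕ → M) n a) (derivative (polD (ℕ → M) n a)) n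
    (n - 1) with hρ
  have h1 : ∀ j, ρ j = resultant (polD M n (fun i => a i j))
      (derivative (polD M n (fun i => a i j))) n (n - 1) := by
    intro j
    have h2 := resultant_map_map (polD (ℕ → M) n a) (derivative (polD (ℕ → M) n a)) n
      (n - 1) (Pi.evalRingHom (fun _ => M) j)
    rw [← derivative_map, polD_map] at h2
    exact h2.symm
  have h2 : gm φ ρ = resultant (polD (UP M φ) n (fun i => gm φ (a i)))
      (derivative (polD (UP M φ) n (fun i => gm φ (a i)))) n (n - 1) := by
    have h3 := resultant_map_map (polD (ℕ → M) n a) (derivative (polD (ℕ → M) n a)) n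
      (n - 1) (Germ.coeRingHom (φ : Filter ℕ))
    rw [← derivative_map, polD_map] at h3
    exact h3.symm
  rw [sepD_iff n hn, ← h2]
  intro h3
  have h4 : gm φ ρ = gm φ (fun _ => (0 : M)) := h3
  rw [Pool.Agent.Helper47.SUBW.gm_eq] at h4
  obtain ⟨j, h5, h6⟩ := (h4.and h).exists
  rw [sepD_iff n hn, ← h1] at h6
  exact h6 h5

section
variable {M : Type} [Field M] [NumberField M] {S : Finset ℕ} {P : PF S M} {φ : Ultrafilter ℕ}
  {X : ℕ → ℝ}

theorem SI_root {z : M} (h : SI S (z ^ 2)) : SI S z := by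
  obtain ⟨n, hn, hi⟩ := h
  refine ⟨n, hn, ?_⟩
  have h1 : ((n : M) * z) ^ 2 = (n : M) * ((n : M) * z ^ 2) := by ring
  have h2 : IsIntegral ℤ (((n : M) * z) ^ 2) := by
    rw [h1]
    exact (isInt_natM n).mul hi
  exact IsIntegral.of_pow two_pos h2

/-- square roots of `OS` sequences -/
theorem os_root (hX : Tendsto X (φ : Filter ℕ) atTop) {y : ℕ → M}
    (h : OS P φ X (fun j => y j ^ 2)) : OS P φ X y := by
  obtain ⟨h1, A, hA, h2⟩ := h
  refine ⟨fun ε hε => ?_, A, hA, ?_⟩
  · filter_upwards [h1 ε hε] with j hj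
    obtain ⟨D, hD, hD1, hi⟩ := hj
    refine ⟨D, hD, hD1, SI_root ?_⟩
    have e : ((D : M) * y j) ^ 2 = (D : M) * ((D : M) * y j ^ 2) := by ring
    rw [e]
    exact Pool.Agent.Helper94.SUBK.SI_mul (Pool.Agent.Helper94.SUBK.SI_of_int S (isInt_natM D)) hi
  · filter_upwards [h2, hX.eventually_ge_atTop 1] with j hj h3
    intro v hv σ
    have h4 := hj v hv σ
    rw [map_pow, P.pow hv] at h4
    by_contra hc
    push Not at hc
    have h5 : (1 : ℝ) ≤ X j ^ A := Real.one_le_rpow h3 hA.le
    nlinarith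

/-- polynomials with slow coefficients in `OS` sequences -/
theorem os_polD [IsGalois ℚ M] (hOSR : ST_OSR) (hS : ∀ p ∈ S, p.Prime)
    (hX : Tendsto X (φ : Filter ℕ) atTop) (n : ℕ) (a : ℕ → ℕ → M) (x : ℕ → M)
    (ha : ∀ i, i < n → Slw P φ X (a i)) (hx : OS P φ X x) :
    OS P φ X (fun j => x j ^ n + ∑ i ∈ range n, a i j * x j ^ i) := by
  obtain ⟨o1, -, -, o4, -, -, -, -, -⟩ := hOSR M S P φ X hS hX
  have hc : ∀ c : M, OS P φ X (fun _ => c) := fun c =>
    o1 _ (Pool.Agent.Helper94.SUBW.slw_const hX c)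
  have hp : ∀ k : ℕ, OS P φ X (fun j => x j ^ k) := by
    intro k
    induction k with
    | zero =>
      have := hc 1
      simpa using this
    | succ k ih =>
      have := (o4 _ _ ih hx).2
      simpa [pow_succ] using this
  have hs : ∀ s : Finset ℕ, (∀ i ∈ s, i < n) → OS P φ X (fun j => ∑ i ∈ s, a i j * x j ^ i) := by
    classical
    intro s
    induction s using Finset.induction_on with
    | empty =>
      intro _
      have := hc 0
      simpa using this
    | insert i s hi ih =>
      intro h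
      have h1 := (o4 _ _ (o1 _ (ha i (h i (Finset.mem_insert_self i s)))) (hp i)).2
      have h2 := ih fun j hj => h j (Finset.mem_insert_of_mem hj)
      have h3 := (o4 _ _ h1 h2).1
      have e : (fun j => ∑ i ∈ insert i s, a i j * x j ^ i) =
          fun j => a i j * x j ^ i + ∑ i ∈ s, a i j * x j ^ i := by
        funext j
        rw [Finset.sum_insert hi]
      rw [e]
      exact h3
  exact (o4 _ _ (hp n) (hs _ fun i hi => Finset.mem_range.1 hi)).1

end

end Pool.Agent.Helper71.HE
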