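import Pool.Agent.Helper71.HN.SepU

/-!
Project HN: row BRGH, from the sequences to the abstract part.
-/

set_option autoImplicit false

namespace Pool.Agent.Helper71.HN

open Polynomial Filter Finset Pool.Agent.Helper70.SUB Pool.Agent.Helper77.SUBK
  Pool.Agent.Helper70.SUBL Pool.Agent.Helper70.SUBW Pool.Agent.Helper71.JN Pool.Agent.Helper66.JN

/-- rational sequences with slow denominators and polynomial size -/
theorem os_rat {M : Type} [Field M] [NumberField M] {S : Finset ℕ} (P : PF S M)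
    (hS : ∀ p ∈ S, p.Prime) (φ : Ultrafilter ℕ) (X : ℕ → ℝ) (hX : Tendsto X (φ : Filter ℕ) atTop)
    (z : ℕ → ℚ) (hz : SlI φ X z) (A : ℝ)
    (hA : ∀ᶠ j in (φ : Filter ℕ), |((z j : ℚ) : ℝ)| ≤ X j ^ A) :
    OS P φ X (fun j => (z j : M)) := by
  refine ⟨fun ε hε => ?_, max A 1, lt_max_of_lt_right one_pos, ?_⟩
  · filter_upwards [hz ε hε] with j h
    obtain ⟨D, h1, h2, n, h3⟩ := h
    refine ⟨D, h1, h2, 1, ⟨one_ne_zero, fun q hq hq1 => ?_⟩, ?_⟩
    · exact absurd (Nat.dvd_one.1 hq1) hq.ne_one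
    · have h4 : (((1 : ℕ) : M) * ((D : M) * (z j : M))) = ((n : ℤ) : M) := by
        have h5 : (((D : ℚ) * z j : ℚ) : M) = ((n : ℚ) : M) := by rw [h3]
        push_cast at h5
        push_cast
        rw [one_mul]
        exact h5
      rw [h4]
      exact isIntegral_algebraMap (R := ℤ) (x := n)
  · filter_upwards [hA, hz 1 one_pos, hX.eventually_ge_atTop 1] with j h1 h2 h3
    intro v hv σ
    rw [map_ratCast]
    by_cases h0 : v = none
    · rw [h0, nv_none_rat]
      exact h1.trans (Real.rpow_le_rpow_of_exponent_le h3 (le_max_left _ _))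
    · obtain ⟨D, h4, h5, n, h6⟩ := h2
      exact (nv_rat P hS v hv h0 (z j) D h4 n h6).trans
        (h5.trans (Real.rpow_le_rpow_of_exponent_le h3 (le_max_right _ _)))

/-- (BRGH) -/
theorem BRGH (hMONG : ST_MONG) (hSSFX : ST_SSFX) (hRDX : ST_RDX) (hOMG : ST_OMG)
    (hOSR : ST_OSR) (hHEART : ST_HEARTH) (hSLW : ST_SLW) (hOIC : ST_OIC) : ST_BRGH := by
  intro M _ _ _ S P φ g a m x y X p q μ β ρ hS hg hμ hβ hρ hX hR hR' ha hmx hmy hall
  classical
  obtain ⟨t, c, u, hc, hu, hRs⟩ := hR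
  obtain ⟨t', c', u', hc', hu', hRs'⟩ := hR'
  obtain ⟨r, w, hw, hI, hmu, hmw⟩ := hMONG M S P φ X (Fin t ⊕ Fin t')
    (Sum.elim u u') hS hX
    (by
      rintro (i | i)
      · exact hu i
      · exact hu' i)
  obtain ⟨D, hD⟩ := hSSFX M S P φ X r w hS hX hw hI
  obtain ⟨g1, g2, g3, g4, g5, g6, g7, g8⟩ := hOMG M S P φ X hS hX
  have : CharZero (Om P φ X) := g6
  obtain ⟨rd1, rd2⟩ := hRDX M S P φ X r w D hS hX hw hD
  obtain ⟨-, -, -, sl4, -, -, -, -, -, -, -, -, sl13⟩ := hSLW M S P φ X hS hX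
  obtain ⟨-, -, -, -, -, -, -, os8, -⟩ := hOSR M S P φ X hS hX
  have hX1 := hX.eventually_ge_atTop 1
  have hβ1 : β < 1 := by linarith
  -- sizes of `x`, `y`, `m`
  have hRsz : ∀ᶠ j in (φ : Filter ℕ), P.nv none (p j / q j) ≤ X j ^ 2 := by
    filter_upwards [hall, hX.eventually_ge_atTop 2] with j h1 h2
    have h3 : P.nv none ((p j / q j) ^ 2) ≤ X j ^ 2 + X j ^ β := by
      have e : (p j / q j) ^ 2 = (x j : M) + -((x j : M) - (p j / q j) ^ 2) := by ring
      rw [e]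
      refine (P.add none mem_none _ _).trans ?_
      rw [PF.neg P mem_none, nv_none_rat, ← h1.2.2.2.2.1]
      linarith [h1.2.2.2.2.2.2.1]
    have h4 : X j ^ β ≤ X j ^ 2 := by
      have h5 : X j ^ β ≤ X j ^ (2 : ℝ) :=
        Real.rpow_le_rpow_of_exponent_le (by linarith) (by linarith)
      rwa [Real.rpow_two] at h5
    rw [PF.pow P mem_none] at h3
    have h6 : P.nv none (p j / q j) ^ 2 ≤ (X j ^ 2) ^ 2 := by
      have h8 : 2 ≤ X j ^ 2 := by nlinarith
      have h7 : 2 * X j ^ 2 ≤ (X j ^ 2) ^ 2 := by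
        rw [sq (X j ^ 2)]
        exact mul_le_mul_of_nonneg_right h8 (by positivity)
      linarith
    exact (pow_le_pow_iff_left₀ (P.nn none _) (by positivity) (by norm_num)).1 h6
  have hyb : ∀ᶠ j in (φ : Filter ℕ), |((y j : ℚ) : ℝ)| ≤ X j ^ ((4 * g + 3 : ℕ) : ℝ) := by
    filter_upwards [hall, hRsz, hX.eventually_ge_atTop 2] with j h1 h2 h3
    have e : (y j : M) = ((y j : M) - (p j / q j) ^ (2 * g + 1)) + (p j / q j) ^ (2 * g + 1) := by
      ring
    rw [← nv_none_rat P, e]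
    refine (P.add none mem_none _ _).trans ?_
    have h4 : P.nv none ((y j : M) - (p j / q j) ^ (2 * g + 1)) ≤ X j ^ (4 * g + 2) := by
      refine h1.2.2.2.2.2.2.2.trans ?_
      rw [← Real.rpow_natCast]
      refine Real.rpow_le_rpow_of_exponent_le (by linarith) ?_
      push_cast
      have : (0 : ℝ) ≤ g := Nat.cast_nonneg g
      linarith
    have h5 : P.nv none ((p j / q j) ^ (2 * g + 1)) ≤ X j ^ (4 * g + 2) := by
      rw [PF.pow P mem_none]
      refine (pow_le_pow_left₀ (P.nn none _) h2 _).trans (le_of_eq ?_)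
      rw [← pow_mul]
      congr 1
      ring
    have h6 : X j ^ (4 * g + 2) + X j ^ (4 * g + 2) ≤ X j ^ (4 * g + 3) := by
      have h7 : X j ^ (4 * g + 3) = X j ^ (4 * g + 2) * X j := pow_succ _ _
      rw [h7]
      have h8 : 0 ≤ X j ^ (4 * g + 2) := by positivity
      nlinarith
    rw [Real.rpow_natCast]
    linarith
  have hmb : ∀ᶠ j in (φ : Filter ℕ), |((m j : ℤ) : ℝ)| ≤ X j ^ μ := by
    filter_upwards [hall] with j h1
    rw [Int.cast_natCast, abs_of_nonneg (Nat.cast_nonneg _)]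
    exact h1.2.2.2.1
  -- the classes
  have hmOS : OS P φ X (fun j => (m j : M)) := by
    have h1 := os8 (fun j => (m j : ℤ)) μ hmb
    have e : (fun j => (((m j : ℕ) : ℤ) : M)) = fun j => (m j : M) := by
      funext j
      exact Int.cast_natCast _
    rwa [e] at h1
  have hmxb : ∀ᶠ j in (φ : Filter ℕ), |(((m j : ℚ) * x j : ℚ) : ℝ)| ≤ X j ^ (μ + 2) := by
    filter_upwards [hall, hX1] with j h1 h2
    push_cast
    rw [abs_mul, abs_of_nonneg (Nat.cast_nonneg _), ← h1.2.2.2.2.1,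
      Real.rpow_add (by linarith), Real.rpow_two]
    exact mul_le_mul_of_nonneg_right h1.2.2.2.1 (by positivity)
  have hmyb : ∀ᶠ j in (φ : Filter ℕ), |(((m j : ℚ) ^ (g + 1) * y j : ℚ) : ℝ)| ≤
      X j ^ (μ * ((g + 1 : ℕ) : ℝ) + ((4 * g + 3 : ℕ) : ℝ)) := by
    filter_upwards [hall, hX1, hyb] with j h1 h2 h3
    push_cast
    rw [abs_mul, abs_of_nonneg (by positivity), Real.rpow_add (by linarith)]
    refine mul_le_mul ?_ ?_ (abs_nonneg _) (by positivity)
    · have h4 : (X j ^ μ) ^ (g + 1) = X j ^ (μ * ((g : ℝ) + 1)) := by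
        rw [← Real.rpow_natCast, ← Real.rpow_mul (by linarith)]
        push_cast
        rfl
      rw [← h4]
      exact pow_le_pow_left₀ (Nat.cast_nonneg _) h1.2.2.2.1 _
    · push_cast at h3
      exact h3
  have hmxOS := os_rat P hS φ X hX _ hmx _ hmxb
  have hmyOS := os_rat P hS φ X hX _ hmy _ hmyb
  obtain ⟨gm', hgm⟩ : ∃ z : Om P φ X, gm φ (fun j => (m j : M)) = (z : UP M φ) :=
    ⟨⟨_, g4 _ hmOS⟩, rfl⟩
  obtain ⟨gmx, hgmx⟩ : ∃ z : Om P φ X, gm φ (fun j => (((m j : ℚ) * x j : ℚ) : M)) =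
      (z : UP M φ) := ⟨⟨_, g4 _ hmxOS⟩, rfl⟩
  obtain ⟨gmy, hgmy⟩ : ∃ z : Om P φ X, gm φ (fun j => (((m j : ℚ) ^ (g + 1) * y j : ℚ) : M)) =
      (z : UP M φ) := ⟨⟨_, g4 _ hmyOS⟩, rfl⟩
  have hgmO : gm' ∈ D.O := (hD.hO gm').2 ((g1 _).2 ⟨_, hmOS, hgm⟩)
  have hgmxO : gmx ∈ D.O := (hD.hO gmx).2 ((g1 _).2 ⟨_, hmxOS, hgmx⟩)
  have hgmyO : gmy ∈ D.O := (hD.hO gmy).2 ((g1 _).2 ⟨_, hmyOS, hgmy⟩)
  have hgm0 : gm' ≠ 0 := by
    intro h0
    rw [h0] at hgm
    have h1 : gm φ (fun j => (m j : M)) = gm φ (fun _ => (0 : M)) := by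
      rw [hgm]
      rfl
    rw [Pool.Agent.Helper47.SUBW.gm_eq] at h1
    obtain ⟨j, h2, h3⟩ := (h1.and hall).exists
    exact h3.2.2.1 (by exact_mod_cast h2)
  have hgm0' : ((gm' : Om P φ X) : UP M φ) ≠ 0 := by
    intro h
    exact hgm0 (Subtype.ext h)
  have hmne : ∀ᶠ j in (φ : Filter ℕ), (m j : M) ≠ 0 := by
    filter_upwards [hall] with j h1
    exact_mod_cast h1.2.2.1
  obtain ⟨gx, hgx⟩ : ∃ z : Om P φ X, gm φ (fun j => (x j : M)) = (z : UP M φ) := by
    refine ⟨gmx / gm', ?_⟩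
    push_cast
    rw [← hgmx, ← hgm, eq_div_iff (by rw [hgm]; exact hgm0')]
    show gm φ (fun j => (x j : M) * (m j : M)) = _
    rw [Pool.Agent.Helper47.SUBW.gm_eq]
    filter_upwards with j
    push_cast
    ring
  obtain ⟨gy, hgy⟩ : ∃ z : Om P φ X, gm φ (fun j => (y j : M)) = (z : UP M φ) := by
    refine ⟨gmy / gm' ^ (g + 1), ?_⟩
    push_cast
    rw [← hgmy, ← hgm, eq_div_iff (pow_ne_zero _ (by rw [hgm]; exact hgm0'))]
    show gm φ (fun j => (y j : M) * (m j : M) ^ (g + 1)) = _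
    rw [Pool.Agent.Helper47.SUBW.gm_eq]
    filter_upwards with j
    push_cast
    ring
  have hmx_eq : gm' * gx = gmx := by
    apply Subtype.ext
    push_cast
    rw [← hgmx, ← hgm, ← hgx]
    show gm φ (fun j => (m j : M) * (x j : M)) = _
    rw [Pool.Agent.Helper47.SUBW.gm_eq]
    filter_upwards with j
    push_cast
    ring
  have hmy_eq : gm' ^ (g + 1) * gy = gmy := by
    apply Subtype.ext
    push_cast
    rw [← hgmy, ← hgm, ← hgy]
    show gm φ (fun j => (m j : M) ^ (g + 1) * (y j : M)) = _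
    rw [Pool.Agent.Helper47.SUBW.gm_eq]
    filter_upwards with j
    push_cast
    ring
  -- the conjugates of `p` and `q`
  have hRD : ∀ τ : M ≃ₐ[ℚ] M, ∃ z ∈ D.R, gm φ (fun j => τ (p j)) = ((z : Om P φ X) : UP M φ) := by
    intro τ
    refine rd2 t (fun i j => τ (c i j)) (fun i j => τ (u i j)) _ (fun i => sl4 _ τ (hc i))
      (fun i => hmu (Sum.inl i) τ) ?_
    filter_upwards [hRs] with j hj
    rw [← hj, map_sum]
    exact Finset.sum_congr rfl fun i _ => (map_mul τ _ _).symm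
  have hRD' : ∀ τ : M ≃ₐ[ℚ] M, ∃ z ∈ D.R,
      gm φ (fun j => τ (q j)) = ((z : Om P φ X) : UP M φ) := by
    intro τ
    refine rd2 t' (fun i j => τ (c' i j)) (fun i j => τ (u' i j)) _ (fun i => sl4 _ τ (hc' i))
      (fun i => hmu (Sum.inr i) τ) ?_
    filter_upwards [hRs'] with j hj
    rw [← hj, map_sum]
    exact Finset.sum_congr rfl fun i _ => (map_mul τ _ _).symm
  choose Rt hRtR hRt using hRD
  choose Rt' hRtR' hRt' using hRD'
  -- the sizes in terms of the absolute values of `D`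
  have hN := hD.hN
  have leN : ∀ (i : Pl S M) (h : Om P φ X) (z : ℕ → M), gm φ z = (h : UP M φ) → ∀ b : ℝ,
      (∀ᶠ j in (φ : Filter ℕ), P.nv i.1 (i.2 (z j)) ≤ X j ^ b) → D.nu i h ≤ Real.exp b :=
    fun i h z hg b h' => ((hN.2 i h z hg b).1).2 (leA_of hX i z b h')
  have geN : ∀ (i : Pl S M) (h : Om P φ X) (z : ℕ → M), gm φ z = (h : UP M φ) → ∀ b : ℝ,
      (∀ᶠ j in (φ : Filter ℕ), X j ^ b ≤ P.nv i.1 (i.2 (z j))) → Real.exp b ≤ D.nu i h :=
    fun i h z hg b h' => ((hN.2 i h z hg b).2).2 (geA_of hX i z b h')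
  let J : Finset (Pl S M) := Finset.univ.filter fun i => (i.1 : Option ℕ) = none
  have hJm : ∀ i : Pl S M, i ∈ J ↔ (i.1 : Option ℕ) = none := fun i => by simp [J]
  have hfin : ∀ i : Pl S M, i ∉ J → ∀ n : ℤ, P.nv i.1 (n : M) ≤ 1 := by
    intro i hi n
    rw [hJm] at hi
    obtain ⟨p, hp⟩ := Option.ne_none_iff_exists'.1 hi
    have h1 : some p ∈ plc S := hp ▸ i.1.2
    rw [hp]
    exact P.int_le Pool.Agent.Helper15.SUB.AV hS (of_mem_some h1) n
  -- rational sequences with slow denominators at the finite places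
  have hfr : ∀ i : Pl S M, i ∉ J → ∀ (z : ℕ → ℚ) (h : Om P φ X), SlI φ X z →
      gm φ (fun j => (z j : M)) = (h : UP M φ) → D.nu i h ≤ 1 := by
    intro i hi z h hz hgz
    rw [hJm] at hi
    have h1 : LeA P φ X i (fun j => (z j : M)) 0 := by
      intro ε hε
      filter_upwards [hz ε hε] with j h2
      obtain ⟨E, h3, h4, n, h5⟩ := h2
      rw [map_ratCast, zero_add]
      exact (nv_rat P hS i.1 i.1.2 hi (z j) E h3 n h5).trans h4
    have h2 := ((hN.2 i h _ hgz 0).1).2 h1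
    rwa [Real.exp_zero] at h2
  have hsx : ∀ i ∈ J, D.nu i gx = Real.exp 2 := by
    intro i hi
    rw [hJm] at hi
    apply le_antisymm
    · refine leN i gx _ hgx 2 ?_
      filter_upwards [hall] with j h1
      rw [hi, map_ratCast, nv_none_rat, ← h1.2.2.2.2.1, Real.rpow_two]
    · refine geN i gx _ hgx 2 ?_
      filter_upwards [hall] with j h1
      rw [hi, map_ratCast, nv_none_rat, ← h1.2.2.2.2.1, Real.rpow_two]
  have hult : ∀ (i : Pl S M) (z h : Om P φ X), D.nu i (z + h) ≤ max (D.nu i z) (D.nu i h) :=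
    fun i z h => D.ult i z h
  have hb : ∀ i ∈ J, D.nu i (gx - (Rt (i.2)⁻¹ / Rt' (i.2)⁻¹) ^ 2) ≤ Real.exp β := by
    intro i hi
    rw [hJm] at hi
    refine leN i _ (fun j => (x j : M) - ((i.2)⁻¹ (p j) / (i.2)⁻¹ (q j)) ^ 2) ?_ _ ?_
    · push_cast
      rw [← hgx, ← hRt, ← hRt']
      rfl
    · filter_upwards [hall] with j h1
      have h2 : i.2 ((x j : M) - ((i.2)⁻¹ (p j) / (i.2)⁻¹ (q j)) ^ 2) =
          (x j : M) - (p j / q j) ^ 2 := by
        rw [map_sub, map_pow, map_ratCast, map_div₀, ← AlgEquiv.mul_apply, ← AlgEquiv.mul_apply,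
          mul_inv_cancel, AlgEquiv.one_apply, AlgEquiv.one_apply]
      rw [h2, hi]
      exact h1.2.2.2.2.2.2.1
  have hyR : ∀ i ∈ J, D.nu i (gy - (Rt (i.2)⁻¹ / Rt' (i.2)⁻¹) ^ (2 * g + 1)) <
      Real.exp (2 * g + 1) := by
    intro i hi
    rw [hJm] at hi
    refine (leN i _ (fun j => (y j : M) - ((i.2)⁻¹ (p j) / (i.2)⁻¹ (q j)) ^ (2 * g + 1)) ?_
      ((2 * g + 1 : ℕ) - ρ) ?_).trans_lt (Real.exp_lt_exp.2 (by push_cast; linarith))
    · push_cast
      rw [← hgy, ← hRt, ← hRt']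
      rfl
    · filter_upwards [hall] with j h1
      have h2 : i.2 ((y j : M) - ((i.2)⁻¹ (p j) / (i.2)⁻¹ (q j)) ^ (2 * g + 1)) =
          (y j : M) - (p j / q j) ^ (2 * g + 1) := by
        rw [map_sub, map_pow, map_ratCast, map_div₀, ← AlgEquiv.mul_apply, ← AlgEquiv.mul_apply,
          mul_inv_cancel, AlgEquiv.one_apply, AlgEquiv.one_apply]
      rw [h2, hi]
      exact h1.2.2.2.2.2.2.2
  have hs1 : ∀ i ∈ J, D.nu i (Rt (i.2)⁻¹ / Rt' (i.2)⁻¹) = Real.exp 1 := by
    intro i hi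
    set ri := Rt (i.2)⁻¹ / Rt' (i.2)⁻¹ with hri
    have h1 : D.nu i (gx + -(gx - ri ^ 2)) = D.nu i gx := by
      refine u_iso (D.nu i) (hult i) ?_
      rw [AbsoluteValue.map_neg, hsx i hi]
      exact (hb i hi).trans_lt (Real.exp_lt_exp.2 (by linarith))
    have h3 : gx + -(gx - ri ^ 2) = ri ^ 2 := by ring
    rw [h3, hsx i hi, map_pow] at h1
    have h4 : D.nu i ri ^ 2 = Real.exp 1 ^ 2 := by
      rw [h1, ← Real.exp_nat_mul]
      norm_num
    exact (pow_left_inj₀ ((D.nu i).nonneg _) (Real.exp_pos _).le (by norm_num)).1 h4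
  have hK : ∀ τ : M ≃ₐ[ℚ] M, Rt τ / Rt' τ ∈ D.K := fun τ =>
    D.K.div_mem (Pool.Agent.Helper47.JN.R_le_K D _ (hRtR τ))
      (Pool.Agent.Helper47.JN.R_le_K D _ (hRtR' τ))
  -- the polynomial
  have hci : ∀ i, ∃ b : Sl P φ X, i < 2 * g + 1 →
      gm φ (fun j => ((a i j : ℚ) : M)) = ((b : Om P φ X) : UP M φ) := by
    intro i
    by_cases hi : i < 2 * g + 1
    · have h1 := g5 _ (ha i hi)
      exact ⟨⟨⟨_, h1⟩, (g3 _).2 ⟨_, ha i hi, rfl⟩⟩, fun _ => rfl⟩
    · exact ⟨0, fun h => absurd h hi⟩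
  choose b hb' using hci
  set f : (Sl P φ X)[X] := polR (Sl P φ X) g b with hf
  have hmap : f.map ((Om P φ X).subtype.comp (Sl P φ X).subtype) =
      polR (UP M φ) g (fun i => gm φ (fun j => ((a i j : ℚ) : M))) := by
    rw [hf, polR_map]
    exact polR_congr g fun i hi => (hb' i hi).symm
  have hfs : f.Separable := by
    rw [← separable_map ((Om P φ X).subtype.comp (Sl P φ X).subtype), hmap]
    refine sep_up φ g (fun i j => ((a i j : ℚ) : M)) ?_
    filter_upwards [hall] with j h1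
    have h2 : polR M g (fun i => ((a i j : ℚ) : M)) =
        (pol g (fun i => a i j)).map (algebraMap ℚ M) := by
      have h3 : pol g (fun i => a i j) = polR ℚ g (fun i => a i j) := rfl
      rw [h3, polR_map]
      rfl
    rw [h2]
    exact h1.1.map
  have hcu : gy ^ 2 = aeval gx f := by
    apply Subtype.ext
    rw [hf, polR_eval]
    push_cast
    rw [← hgx, ← hgy]
    have h1 : ∀ i ∈ range (2 * g + 1), ((algebraMap (Sl P φ X) (Om P φ X) (b i) : Om P φ X) :
        UP M φ) * gm φ (fun j => (x j : M)) ^ i =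
        gm φ (fun j => ((a i j : ℚ) : M) * (x j : M) ^ i) := by
      intro i hi
      have h2 : ((algebraMap (Sl P φ X) (Om P φ X) (b i) : Om P φ X) : UP M φ) =
          gm φ (fun j => ((a i j : ℚ) : M)) := (hb' i (Finset.mem_range.1 hi)).symm
      rw [h2]
      rfl
    rw [Finset.sum_congr rfl h1]
    have h3 : ∑ i ∈ range (2 * g + 1), gm φ (fun j => ((a i j : ℚ) : M) * (x j : M) ^ i) =
        gm φ (fun j => ∑ i ∈ range (2 * g + 1), ((a i j : ℚ) : M) * (x j : M) ^ i) := by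
      have h4 := map_sum (Germ.coeRingHom (φ : Filter ℕ) : (ℕ → M) →+* Germ (φ : Filter ℕ) M)
        (fun i => fun j => ((a i j : ℚ) : M) * (x j : M) ^ i) (range (2 * g + 1))
      refine h4.symm.trans ?_
      show gm φ (∑ i ∈ range (2 * g + 1), fun j => ((a i j : ℚ) : M) * (x j : M) ^ i) = _
      congr 1
      funext j
      rw [Finset.sum_apply]
    rw [h3]
    show gm φ (fun j => (y j : M) ^ 2) = gm φ (fun j => (x j : M) ^ (2 * g + 1) +
      ∑ i ∈ range (2 * g + 1), ((a i j : ℚ) : M) * (x j : M) ^ i)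
    rw [Pool.Agent.Helper47.SUBW.gm_eq]
    filter_upwards [hall] with j h5
    have h6 := congrArg (fun z : ℚ => (z : M)) h5.2.1
    have h7 : (pol g (fun i => a i j)).eval (x j) =
        (x j) ^ (2 * g + 1) + ∑ i ∈ range (2 * g + 1), a i j * (x j) ^ i := by
      have h8 := polR_eval (R := ℚ) (S := ℚ) g (fun i => a i j) (x j)
      rw [coe_aeval_eq_eval] at h8
      exact h8
    rw [h7] at h6
    push_cast at h6
    exact h6
  have hH : HY D J g f μ β gm' gx gy (fun i => Rt (i.2)⁻¹ / Rt' (i.2)⁻¹) := by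
    refine
      { hg := hg
        fm := polR_monic g b
        fd := polR_natDegree g b
        fs := hfs
        hμ := hμ
        hβ := hβ
        hJ := ⟨(⟨none, mem_none⟩, 1), (hJm _).2 rfl⟩
        ic := hOIC M S P φ X r w D hS hX hw hD
        m0 := hgm0
        mO := hgmO
        xO := by rw [hmx_eq]; exact hgmxO
        yO := by rw [hmy_eq]; exact hgmyO
        cu := hcu
        fm1 := ?_
        fx := ?_
        fy := ?_
        sm := ?_
        RR := fun i _ => hK _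
        s1 := hs1
        s2 := hb
        s4 := hyR }
    · intro i hi
      have h1 := leN i gm' _ hgm 0 (Eventually.of_forall fun j => by
        rw [map_natCast, Real.rpow_zero]
        exact_mod_cast hfin i hi (m j))
      rwa [Real.exp_zero] at h1
    · intro i hi
      rw [hmx_eq]
      exact hfr i hi _ _ hmx hgmx
    · intro i hi
      rw [hmy_eq]
      exact hfr i hi _ _ hmy hgmy
    · intro i hi
      rw [hJm] at hi
      refine leN i gm' _ hgm μ ?_
      filter_upwards [hmb] with j h1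
      rw [hi, map_natCast]
      have h2 : ((m j : ℕ) : M) = ((m j : ℤ) : M) := by push_cast; rfl
      rw [h2, nv_none_int]
      exact h1
  exact hHEART _ _ _ r D J g f μ β gm' gx gy _ hH

end Pool.Agent.Helper71.HN
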