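import Pool.Agent.Helper71.HN.SheetH
import Pool.Agent.Helper66.JN.BRG
import Pool.Agent.Helper47.JN.RK

/-!
Project HN: row OIC, the ring of the classes of the sequences `OS` is integrally closed.
-/

set_option autoImplicit false

namespace Pool.Agent.Helper71.HN

open Polynomial Filter Finset Pool.Agent.Helper70.SUB Pool.Agent.Helper77.SUBK
  Pool.Agent.Helper70.SUBL Pool.Agent.Helper70.SUBW Pool.Agent.Helper71.JN Pool.Agent.Helper66.JN

/-- a root of a monic equation with integral coefficients is integral -/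
theorem int_of_monic {M : Type} [Field M] (n : ℕ) (b : ℕ → M)
    (hb : ∀ k ∈ range n, IsIntegral ℤ (b k)) (w : M)
    (h : w ^ n + ∑ k ∈ range n, b k * w ^ k = 0) : IsIntegral ℤ w := by
  classical
  set c : ℕ → integralClosure ℤ M := fun k =>
    if hk : k ∈ range n then ⟨b k, hb k hk⟩ else 0 with hc
  have hcb : ∀ k ∈ range n, ((c k : integralClosure ℤ M) : M) = b k := by
    intro k hk
    rw [hc]
    simp only [dif_pos hk]
  set q : (integralClosure ℤ M)[X] := X ^ n + ∑ k ∈ range n, C (c k) * X ^ k with hq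
  have hdeg : (∑ k ∈ range n, C (c k) * X ^ k : (integralClosure ℤ M)[X]).degree < n := by
    refine (degree_sum_le _ _).trans_lt ?_
    rw [Finset.sup_lt_iff (WithBot.bot_lt_coe _)]
    intro i hi
    refine (degree_C_mul_X_pow_le i _).trans_lt ?_
    exact_mod_cast Finset.mem_range.1 hi
  have hmon : q.Monic := monic_X_pow_add hdeg
  have h1 : aeval w q = 0 := by
    rw [hq, map_add, map_pow, aeval_X, map_sum, ← h]
    congr 1
    refine Finset.sum_congr rfl fun k hk => ?_
    rw [map_mul, aeval_C, map_pow, aeval_X, ← hcb k hk]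
    rfl
  have h2 : IsIntegral (integralClosure ℤ M) w := ⟨q, hmon, h1⟩
  exact isIntegral_trans w h2

/-- (OIC) -/
theorem OIC (hOMG : ST_OMG) : ST_OIC := by
  intro M _ _ _ S P φ X r w D hS hX hw hD z hz
  classical
  obtain ⟨g1, g2, g3, g4, g5, g6, g7, g8⟩ := hOMG M S P φ X hS hX
  obtain ⟨q, hq, hq0⟩ := hz
  set n := q.natDegree with hn
  -- the coefficients
  have hRO : ∀ c : D.R, ((c : Om P φ X) : Om P φ X) ∈ D.O := by
    intro c
    exact Pool.Agent.Helper47.JN.R_le_O D _ c.2
  have hseq : ∀ k : ℕ, ∃ C : ℕ → M, OS P φ X C ∧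
      gm φ C = (((q.coeff k : D.R) : Om P φ X) : UP M φ) := by
    intro k
    exact (g1 _).1 ((hD.hO _).1 (hRO (q.coeff k)))
  choose C hC hC' using hseq
  obtain ⟨Z, hZ⟩ := g7 (z : UP M φ)
  -- the equation
  have heq : ∀ᶠ j in (φ : Filter ℕ), Z j ^ n + ∑ k ∈ range n, C k j * Z j ^ k = 0 := by
    have h1 : z ^ n + ∑ k ∈ range n, ((q.coeff k : D.R) : Om P φ X) * z ^ k = 0 := by
      rw [← hq0, eval₂_eq_sum_range, Finset.sum_range_succ, ← hn]
      have h2 : q.coeff n = 1 := hq.coeff_natDegree
      rw [h2, map_one, one_mul, add_comm]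
      rfl
    have h2 := congrArg (fun t : Om P φ X => (t : UP M φ)) h1
    push_cast at h2
    rw [← hZ] at h2
    have h3 : ∀ k ∈ range n, (((q.coeff k : D.R) : Om P φ X) : UP M φ) * gm φ Z ^ k =
        gm φ (fun j => C k j * Z j ^ k) := by
      intro k _
      rw [← hC' k]
      rfl
    rw [Finset.sum_congr rfl h3] at h2
    have h4 : ∑ k ∈ range n, gm φ (fun j => C k j * Z j ^ k) =
        gm φ (fun j => ∑ k ∈ range n, C k j * Z j ^ k) := by
      have h5 := map_sum (Germ.coeRingHom (φ : Filter ℕ) : (ℕ → M) →+* Germ (φ : Filter ℕ) M)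
        (fun k => fun j => C k j * Z j ^ k) (range n)
      refine h5.symm.trans ?_
      show gm φ (∑ k ∈ range n, fun j => C k j * Z j ^ k) = _
      congr 1
      funext j
      rw [Finset.sum_apply]
    rw [h4] at h2
    have h6 : gm φ (fun j => Z j ^ n + ∑ k ∈ range n, C k j * Z j ^ k) =
        gm φ (fun _ => (0 : M)) := h2
    rwa [Pool.Agent.Helper47.SUBW.gm_eq] at h6
  have hOSZ : OS P φ X Z := by
    refine ⟨fun ε hε => ?_, ?_⟩
    · have hn1 : (0 : ℝ) < (n : ℝ) + 1 := by positivity
      have h1 : ∀ᶠ j in (φ : Filter ℕ), ∀ k ∈ range n, ∃ E : ℕ, E ≠ 0 ∧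
          (E : ℝ) ≤ X j ^ (ε / (n + 1)) ∧ SI S ((E : M) * C k j) := by
        rw [Filter.eventually_all_finset]
        exact fun k _ => (hC k).1 _ (div_pos hε hn1)
      filter_upwards [h1, heq, hX.eventually_ge_atTop 1] with j h2 h3 h4
      choose! E hE0 hE1 hE2 using h2
      choose! m hm0 hm1 using hE2
      set Et : ℕ := ∏ k ∈ range n, E k with hEt
      set mt : ℕ := ∏ k ∈ range n, m k with hmt
      refine ⟨Et, Finset.prod_ne_zero_iff.2 hE0, ?_, mt, ⟨Finset.prod_ne_zero_iff.2
        fun k hk => (hm0 k hk).1, ?_⟩, ?_⟩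
      · have h5 : (Et : ℝ) ≤ ∏ _k ∈ range n, X j ^ (ε / (n + 1)) := by
          rw [hEt]
          push_cast
          exact Finset.prod_le_prod (fun _ _ => Nat.cast_nonneg _) hE1
        rw [Finset.prod_const, Finset.card_range, ← Real.rpow_natCast,
          ← Real.rpow_mul (by linarith)] at h5
        refine h5.trans (Real.rpow_le_rpow_of_exponent_le h4 ?_)
        rw [div_mul_eq_mul_div, div_le_iff₀ hn1]
        nlinarith
      · intro p hp hpd
        rw [hmt, hp.prime.dvd_finsetProd_iff] at hpd
        obtain ⟨k, hk, hk'⟩ := hpd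
        exact (hm0 k hk).2 p hp hk'
      · refine int_of_monic n (fun k => ((mt : M) * (Et : M)) ^ (n - k) * C k j) ?_ _ ?_
        · intro k hk
          have hkn := Finset.mem_range.1 hk
          obtain ⟨a, ha⟩ : ∃ a : ℕ, mt = m k * a := Finset.dvd_prod_of_mem m hk
          obtain ⟨b, hb⟩ : ∃ b : ℕ, Et = E k * b := Finset.dvd_prod_of_mem E hk
          have e : ((mt : M) * (Et : M)) ^ (n - k) * C k j =
              (((mt : M) * (Et : M)) ^ (n - k - 1) * ((a : M) * (b : M))) *
                ((m k : M) * ((E k : M) * C k j)) := by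
            have h5 : n - k = (n - k - 1) + 1 := by omega
            rw [h5, pow_succ, Nat.add_sub_cancel]
            nth_rewrite 2 [ha]
            nth_rewrite 2 [hb]
            push_cast
            ring
          show IsIntegral ℤ (((mt : M) * (Et : M)) ^ (n - k) * C k j)
          rw [e]
          refine IsIntegral.mul ?_ (hm1 k hk)
          have h6 : ((mt : M) * (Et : M)) ^ (n - k - 1) * ((a : M) * (b : M)) =
              (((mt * Et) ^ (n - k - 1) * (a * b) : ℕ) : M) := by push_cast; ring
          rw [h6]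
          have h7 : (((mt * Et) ^ (n - k - 1) * (a * b) : ℕ) : M) =
              algebraMap ℤ M (((mt * Et) ^ (n - k - 1) * (a * b) : ℕ) : ℤ) := by
            rw [eq_intCast, Int.cast_natCast]
          rw [h7]
          exact isIntegral_algebraMap
        · have h7 := congrArg (fun t => ((mt : M) * (Et : M)) ^ n * t) h3
          simp only [mul_zero] at h7
          rw [← h7, mul_add, Finset.mul_sum]
          congr 1
          · rw [← mul_assoc, mul_pow]
          · refine Finset.sum_congr rfl fun k hk => ?_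
            have hkn := Finset.mem_range.1 hk
            have h8 : ((mt : M) * (Et : M)) ^ n =
                ((mt : M) * (Et : M)) ^ (n - k) * ((mt : M) * (Et : M)) ^ k := by
              rw [← pow_add]
              congr 1
              omega
            rw [h8, ← mul_assoc (mt : M), mul_pow]
            ring
    · have h1 : ∀ k, ∃ A : ℝ, 0 < A ∧ ∀ᶠ j in (φ : Filter ℕ), HB P (X j ^ A) (C k j) :=
        fun k => (hC k).2
      choose A hA0 hA using h1
      set B : ℝ := ∑ k ∈ range n, A k with hB
      have hB0 : 0 ≤ B := Finset.sum_nonneg fun k _ => (hA0 k).le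
      have hAB : ∀ k ∈ range n, A k ≤ B := fun k hk =>
        Finset.single_le_sum (fun i _ => (hA0 i).le) hk
      have h2 : ∀ᶠ j in (φ : Filter ℕ), ∀ k ∈ range n, HB P (X j ^ A k) (C k j) := by
        rw [Filter.eventually_all_finset]
        exact fun k _ => hA k
      refine ⟨B + 1, by linarith, ?_⟩
      filter_upwards [h2, heq, hX.eventually_ge_atTop ((n : ℝ) + 1)] with j h3 h4 h5
      intro v hv σ
      have hX1 : 1 ≤ X j := by
        have : (0 : ℝ) ≤ n := Nat.cast_nonneg n
        linarith
      set T := P.nv v (σ (Z j)) with hT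
      have hT0 : 0 ≤ T := P.nn v _
      by_cases h6 : T ≤ 1
      · exact h6.trans (Real.one_le_rpow hX1 (by linarith))
      have h6' : 1 ≤ T := (not_le.1 h6).le
      have hn0 : n ≠ 0 := by
        intro h0
        rw [h0] at h4
        simp at h4
      have h7 : σ (Z j) ^ n = -∑ k ∈ range n, σ (C k j) * σ (Z j) ^ k := by
        have h8 := congrArg σ h4
        rw [map_add, map_pow, map_sum, map_zero] at h8
        rw [eq_neg_iff_add_eq_zero, ← h8]
        congr 1
        exact Finset.sum_congr rfl fun k _ => by rw [map_mul, map_pow]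
      have h8 : T ^ n ≤ ∑ k ∈ range n, X j ^ B * T ^ (n - 1) := by
        have h9 : T ^ n = P.nv v (∑ k ∈ range n, σ (C k j) * σ (Z j) ^ k) := by
          rw [hT, ← PF.pow P hv, h7, PF.neg P hv]
        rw [h9]
        refine (PF.sum_le P hv _ _).trans (Finset.sum_le_sum fun k hk => ?_)
        rw [P.mul v hv, PF.pow P hv]
        refine mul_le_mul ?_ ?_ (pow_nonneg (P.nn v _) _) (by positivity)
        · exact (h3 k hk v hv σ).trans (Real.rpow_le_rpow_of_exponent_le hX1 (hAB k hk))
        · exact pow_le_pow_right₀ h6' (by have := Finset.mem_range.1 hk; omega)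
      rw [Finset.sum_const, Finset.card_range, nsmul_eq_mul] at h8
      have h9 : T ^ n = T * T ^ (n - 1) := by
        rw [← pow_succ']
        congr 1
        omega
      have h10 : 0 < T ^ (n - 1) := pow_pos (by linarith) _
      have h11 : T ≤ n * X j ^ B := by
        rw [h9, ← mul_assoc] at h8
        exact le_of_mul_le_mul_right h8 h10
      rw [Real.rpow_add (by linarith), Real.rpow_one, mul_comm]
      refine h11.trans (mul_le_mul_of_nonneg_right (by linarith) (by positivity))
  exact (hD.hO z).2 ((g1 _).2 ⟨Z, hOSZ, hZ⟩)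

end Pool.Agent.Helper71.HN
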