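import Pool.Agent.Helper70.JN.AsmS
import Pool.Agent.Helper71.HN.BRGH
import Pool.Agent.Helper71.HN.OIC
import Pool.Agent.Helper12.HN.LOC
import Pool.Agent.Helper16.HN.DEX
import Pool.Agent.Helper16.HN.FEW
import Pool.Agent.Helper16.HN.CUSG
import Pool.Agent.Helper17.HN.WPT
import Pool.Agent.Helper17.HN.NPT
import Pool.Agent.Helper18.HN.CPL
import Pool.Agent.Helper18.HN.LTR
import Pool.Agent.Helper2.HN.PRQ
import Pool.Agent.Helper2.HN.T1H
import Pool.Agent.Helper20.HN.LFG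
import Pool.Agent.Helper25.HN.PIV
import Pool.Agent.Helper28.HN.DEL
import Pool.Agent.Helper28.HN.DBD
import Pool.Agent.Helper41.HN.FINH
import Pool.Agent.Helper52.HN.ALGH
import Pool.Agent.Helper58.HN.TRH

/-! Assembly of project HN. -/

set_option autoImplicit false

namespace Pool.Agent.Helper71.HN

open Pool.Agent.Helper70.SUB Pool.Agent.Helper70.SUBL Pool.Agent.Helper77.SUBK
  Pool.Agent.Helper70.SUBW Pool.Agent.Helper71.JN

theorem h_dex : ST_DEX := Pool.Agent.Helper16.HN.DEX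
theorem h_ltr : ST_LTR := Pool.Agent.Helper18.HN.LTR h_dex LOC Pool.Agent.Helper18.HN.CPL
theorem h_lfg : ST_LFG := LFG (Pool.Agent.Helper16.HN.CUSG Pool.Agent.Helper16.HN.FEW) v_bin
theorem h_algh : ST_ALGH := Pool.Agent.Helper52.HN.ALGH h_lfg
theorem h_trh : ST_TRH := Pool.Agent.Helper58.HN.TRH h_dex h_ltr Pool.Agent.Helper28.HN.DEL
  Pool.Agent.Helper28.HN.DBD (Pool.Agent.Helper25.HN.PIV j_rk)
  (Pool.Agent.Helper2.HN.PRQ j_prim j_rk) j_rk Pool.Agent.Helper17.HN.WPT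
  Pool.Agent.Helper17.HN.NPT
/-- the abstract theorem -/
theorem h_heart : ST_HEARTH := fun F Ω _ _ _ _ I _ r D J g f μ β m x y R h =>
  h_trh F Ω I r D J g f μ β m x y R h (h_algh F Ω I r D J g f μ β m x y R h)
theorem h_brg : ST_BRGH := BRGH j_mong j_ssfx j_rdx j_omg j_osr h_heart w_slw (OIC j_omg)
theorem h_t1h : ST_T1H := Pool.Agent.Helper2.HN.T1H w_pfe w_slw w_spw u_sph h_brg
/-- a linear height bound, uniform in `F`, for points near sparse squares -/
theorem h_fin : ST_FINH := Pool.Agent.Helper41.HN.FINH h_t1h k_svb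

end Pool.Agent.Helper71.HN
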