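import Pool.Agent.Helper71.HN.PolD

/-!
Project HE: row BRGE, from the sequences to the abstract part.
-/

set_option autoImplicit false

namespace Pool.Agent.Helper71.HE

open Polynomial Filter Finset Pool.Agent.Helper70.SUB Pool.Agent.Helper77.SUBK
  Pool.Agent.Helper70.SUBL Pool.Agent.Helper70.SUBW Pool.Agent.Helper71.JN Pool.Agent.Helper66.JN
  Pool.Agent.Helper71.HN Pool.Agent.Helper71.HZ

/-- (BRGE) -/
theorem BRGE (hMONG : ST_MONG) (hSSFX : ST_SSFX) (hRDX : ST_RDX) (hOMG : ST_OMG)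
    (hOSR : ST_OSR) (hHEART : ST_HEARTE) (hSLW : ST_SLW) (hOIC : ST_OIC) : ST_BRGE := by
  intro M _ _ _ S P φ g a x y X v σ p q δ hS hg hδ hX hv hR hR' ha hxOS hall
  classical
  obtain ⟨t, c, u, hc, hu, hRs⟩ := hR
  obtain ⟨t', c', u', hc', hu', hRs'⟩ := hR'
  obtain ⟨r, w, hw, hI, hmu, hmw⟩ := hMONG M S P φ X (Fin t ⊕ Fin t')
    (Sum.elim u u') hS hX
    (by
      rintro (i | i)
      · exact hu i
      · exact hu' i)
  obtain ⟨D, hD⟩ := hSSFX M S P φ X r w hS hX hw hI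
  obtain ⟨g1, g2, g3, g4, g5, g6, g7, g8⟩ := hOMG M S P φ X hS hX
  have : CharZero (Om P φ X) := g6
  obtain ⟨rd1, rd2⟩ := hRDX M S P φ X r w D hS hX hw hD
  obtain ⟨-, -, -, sl4, sl5, -, -, -, -, -, -, -, -⟩ := hSLW M S P φ X hS hX
  obtain ⟨-, -, -, -, -, -, os7, -, -⟩ := hOSR M S P φ X hS hX
  have hX1 := hX.eventually_ge_atTop 1
  have hev : ∀ᶠ j in (φ : Filter ℕ), y j ^ 2 = x j ^ (2 * g + 2) +
      ∑ i ∈ range (2 * g + 2), a i j * x j ^ i := by
    filter_upwards [hall] with j h1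
    have h8 := polD_eval (R := M) (S := M) (2 * g + 2) (fun i => a i j) (x j)
    rw [coe_aeval_eq_eval] at h8
    rw [h1.2.1, h8]
    rfl
  have hyOS : OS P φ X y := by
    refine os_root hX (os7 _ _ ?_ (os_polD hOSR hS hX (2 * g + 2) a x ha hxOS))
    filter_upwards [hev] with j h1
    exact h1.symm
  obtain ⟨gx, hgx⟩ : ∃ z : Om P φ X, gm φ x = (z : UP M φ) := ⟨⟨_, g4 _ hxOS⟩, rfl⟩
  obtain ⟨gy, hgy⟩ : ∃ z : Om P φ X, gm φ y = (z : UP M φ) := ⟨⟨_, g4 _ hyOS⟩, rfl⟩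
  have hgxO : gx ∈ D.O := (hD.hO gx).2 ((g1 _).2 ⟨_, hxOS, hgx⟩)
  have hgyO : gy ∈ D.O := (hD.hO gy).2 ((g1 _).2 ⟨_, hyOS, hgy⟩)
  -- `p` and `q`
  obtain ⟨Rp, hRpR, hRp⟩ : ∃ z ∈ D.R, gm φ p = ((z : Om P φ X) : UP M φ) := by
    refine rd2 t c u p hc (fun i => ?_) hRs
    obtain ⟨s, m, hs, hm⟩ := hmu (Sum.inl i) 1
    refine ⟨s, m, hs, ?_⟩
    filter_upwards [hm] with j hj
    exact hj
  obtain ⟨Rq, hRqR, hRq⟩ : ∃ z ∈ D.R, gm φ q = ((z : Om P φ X) : UP M φ) := by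
    refine rd2 t' c' u' q hc' (fun i => ?_) hRs'
    obtain ⟨s, m, hs, hm⟩ := hmu (Sum.inr i) 1
    refine ⟨s, m, hs, ?_⟩
    filter_upwards [hm] with j hj
    exact hj
  have hN := hD.hN
  obtain ⟨i₀, hi₀⟩ : ∃ i₀ : Pl S M, i₀ = (⟨v, hv⟩, σ) := ⟨_, rfl⟩
  have hK : Rp / Rq ∈ D.K :=
    D.K.div_mem (Pool.Agent.Helper47.JN.R_le_K D _ hRpR)
      (Pool.Agent.Helper47.JN.R_le_K D _ hRqR)
  -- sizes
  have h1 : Real.exp δ ≤ D.nu i₀ gx := by
    refine ((hN.2 i₀ gx x hgx δ).2).2 (geA_of hX i₀ x δ ?_)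
    filter_upwards [hall] with j hj
    rw [hi₀]
    exact hj.2.2.2.1
  have hx1 : 1 < D.nu i₀ gx := lt_of_lt_of_le (Real.one_lt_exp_iff.2 hδ) h1
  have hx0 : 0 < D.nu i₀ gx := by linarith
  have hxR : D.nu i₀ (gx - Rp / Rq) ≤ Real.exp (Real.log (D.nu i₀ gx) - δ) := by
    have h2 : gm φ (fun j => x j - p j / q j) = ((gx - Rp / Rq : Om P φ X) : UP M φ) := by
      push_cast
      rw [← hgx, ← hRp, ← hRq]
      rfl
    refine ((hN.2 i₀ _ _ h2 _).1).2 ?_
    intro ε hε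
    have h3 : LeA P φ X i₀ x (Real.log (D.nu i₀ gx)) := by
      refine ((hN.2 i₀ gx x hgx _).1).1 ?_
      rw [Real.exp_log hx0]
    filter_upwards [hall, h3 ε hε, hX1] with j h4 h5 h6
    have h7 : 0 < X j := by linarith
    rw [hi₀] at h5 ⊢
    calc P.nv v (σ (x j - p j / q j)) ≤ X j ^ (-δ) * P.nv v (σ (x j)) := h4.2.2.2.2
      _ ≤ X j ^ (-δ) * X j ^ (Real.log (D.nu (⟨v, hv⟩, σ) gx) + ε) :=
          mul_le_mul_of_nonneg_left h5 (Real.rpow_nonneg h7.le _)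
      _ = X j ^ (Real.log (D.nu (⟨v, hv⟩, σ) gx) - δ + ε) := by
          rw [← Real.rpow_add h7]
          congr 1
          ring
  have hxR' : D.nu i₀ (gx - Rp / Rq) < D.nu i₀ gx := by
    refine lt_of_le_of_lt hxR ?_
    rw [← Real.exp_log hx0, Real.log_exp]
    exact Real.exp_lt_exp.2 (by linarith)
  -- the polynomial
  have hci : ∀ i, ∃ b : Sl P φ X, i < 2 * g + 2 →
      gm φ (a i) = ((b : Om P φ X) : UP M φ) := by
    intro i
    by_cases hi : i < 2 * g + 2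
    · have h1 := g5 _ (ha i hi)
      exact ⟨⟨⟨_, h1⟩, (g3 _).2 ⟨_, ha i hi, rfl⟩⟩, fun _ => rfl⟩
    · exact ⟨0, fun h => absurd h hi⟩
  choose b hb' using hci
  set f : (Sl P φ X)[X] := polD (Sl P φ X) (2 * g + 2) b with hf
  have hmap : f.map ((Om P φ X).subtype.comp (Sl P φ X).subtype) =
      polD (UP M φ) (2 * g + 2) (fun i => gm φ (a i)) := by
    rw [hf, polD_map]
    exact polD_congr (2 * g + 2) fun i hi => (hb' i hi).symm
  have hfs : f.Separable := by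
    rw [← separable_map ((Om P φ X).subtype.comp (Sl P φ X).subtype), hmap]
    refine sepD_up φ (2 * g + 2) (by omega) a ?_
    filter_upwards [hall] with j h1
    exact h1.1
  have hcu : gy ^ 2 = aeval gx f := by
    apply Subtype.ext
    rw [hf, polD_eval]
    push_cast
    rw [← hgx, ← hgy]
    have h1 : ∀ i ∈ range (2 * g + 2), ((algebraMap (Sl P φ X) (Om P φ X) (b i) : Om P φ X) :
        UP M φ) * gm φ x ^ i = gm φ (fun j => a i j * x j ^ i) := by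
      intro i hi
      have h2 : ((algebraMap (Sl P φ X) (Om P φ X) (b i) : Om P φ X) : UP M φ) =
          gm φ (a i) := (hb' i (Finset.mem_range.1 hi)).symm
      rw [h2]
      rfl
    rw [Finset.sum_congr rfl h1]
    have h3 : ∑ i ∈ range (2 * g + 2), gm φ (fun j => a i j * x j ^ i) =
        gm φ (fun j => ∑ i ∈ range (2 * g + 2), a i j * x j ^ i) := by
      have h4 := map_sum (Germ.coeRingHom (φ : Filter ℕ) : (ℕ → M) →+* Germ (φ : Filter ℕ) M)
        (fun i => fun j => a i j * x j ^ i) (range (2 * g + 2))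
      refine h4.symm.trans ?_
      show gm φ (∑ i ∈ range (2 * g + 2), fun j => a i j * x j ^ i) = _
      congr 1
      funext j
      rw [Finset.sum_apply]
    rw [h3]
    show gm φ (fun j => y j ^ 2) = gm φ (fun j => x j ^ (2 * g + 2) +
      ∑ i ∈ range (2 * g + 2), a i j * x j ^ i)
    rw [Pool.Agent.Helper47.SUBW.gm_eq]
    exact hev
  have hH : HQ D g f gx gy i₀ (Rp / Rq) :=
    { hg := hg
      fm := polD_monic _ b
      fd := polD_natDegree _ b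
      fs := hfs
      ic := hOIC M S P φ X r w D hS hX hw hD
      xO := hgxO
      yO := hgyO
      cu := hcu
      RR := hK
      x1 := hx1
      xR := hxR' }
  exact hHEART _ _ _ r D g f gx gy i₀ _ hH

end Pool.Agent.Helper71.HE
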