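import Pool.Agent.Helper71.HN.AsmZ
import Pool.Agent.Helper71.HN.BRGE
import Pool.Agent.Helper77.HE.AlgeE
import Pool.Agent.Helper28.HN.TRE
import Pool.Agent.Helper89.HN.NPTE
import Pool.Agent.Helper89.HN.WPTE
import Pool.Agent.Helper2.HN.T1E
import Pool.Agent.Helper18.HN.SUBE
import Pool.Agent.Helper25.HN.HCO
import Pool.Agent.Helper44.HN.HTT
import Pool.Agent.Helper12.HN.FLDE
import Pool.Agent.Helper12.HN.FINE

/-! Assembly of project HE. -/

set_option autoImplicit false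

namespace Pool.Agent.Helper71.HE

open Pool.Agent.Helper70.SUB Pool.Agent.Helper70.SUBL Pool.Agent.Helper77.SUBK
  Pool.Agent.Helper70.SUBW Pool.Agent.Helper71.JN Pool.Agent.Helper71.HN

theorem e_tr : ST_TRE := Pool.Agent.Helper28.HE.TRE h_dex h_ltr Pool.Agent.Helper28.HN.DEL
  Pool.Agent.Helper28.HN.DBD (Pool.Agent.Helper25.HN.PIV j_rk)
  (Pool.Agent.Helper2.HN.PRQ j_prim j_rk) j_rk Pool.Agent.Helper89.HE.WPTE
  Pool.Agent.Helper89.HE.NPTE
/-- the abstract theorem -/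
theorem e_heart : ST_HEARTE := fun F Ω _ _ _ _ I _ r D g f x y i₀ R h =>
  e_tr F Ω I r D g f x y i₀ R h (Pool.Agent.Helper77.HE.ALGEE F Ω I r D g f x y i₀ R h)
theorem e_brg : ST_BRGE := BRGE j_mong j_ssfx j_rdx j_omg j_osr e_heart w_slw (OIC j_omg)
theorem e_t1 : ST_T1E := Pool.Agent.Helper2.HE.T1E w_slw w_spw u_sph e_brg
theorem e_htt : ST_HTT := Pool.Agent.Helper44.HE.HTT a_av k_den Pool.Agent.Helper25.HZ.HTK
  Pool.Agent.Helper28.HZ.EMB
theorem e_fld : ST_FLDE := Pool.Agent.Helper12.HE.FLDE k_svb k_pfx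
/-- points near squares at one place, even degree -/
theorem e_fin : ST_FINE := Pool.Agent.Helper12.HE.FINE e_t1 Pool.Agent.Helper18.HE.SUBE
  Pool.Agent.Helper25.HN.HCO e_htt e_fld k_svb

end Pool.Agent.Helper71.HE
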