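import Pool.Agent.Helper71.HN.AsmE
import Pool.Agent.Helper71.HN.BRGO
import Pool.Agent.Helper34.HN.T1O
import Pool.Agent.Helper18.HN.SUBO
import Pool.Agent.Helper2.HN.FINO

/-! Assembly of project HO. -/

set_option autoImplicit false

namespace Pool.Agent.Helper71.HO

open Pool.Agent.Helper70.SUB Pool.Agent.Helper70.SUBL Pool.Agent.Helper77.SUBK
  Pool.Agent.Helper70.SUBW Pool.Agent.Helper71.JN Pool.Agent.Helper71.HN
  Pool.Agent.Helper71.HZ Pool.Agent.Helper71.HE

theorem o_brg : ST_BRGO := BRGO j_mong j_ssfx j_rdx j_omg j_osr z_heart w_slw (OIC j_omg)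
theorem o_t1 : ST_T1O := Pool.Agent.Helper34.HO.T1O w_slw u_sph o_brg
/-- points near sparse squares in the mean over the places -/
theorem o_fin : ST_FINO := Pool.Agent.Helper2.HO.FINO o_t1 Pool.Agent.Helper18.HO.SUBO
  Pool.Agent.Helper25.HN.HCO e_htt e_fld Pool.Agent.Helper28.HZ.EMB

end Pool.Agent.Helper71.HO
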