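import Pool.Agent.Helper77.HE.AlgG

/-!
Project HX (MP_2a8cc2_nt): the optimal form of `Pool.Agent.Helper77.HE.algG` (the constant `4` becomes
`1`, the gain at a pole place is counted fully, at another place by one half). No Pade forms: at
every place a flag of subspaces of the space of the functions `P(x) + Q(x) y`. -/

set_option autoImplicit false

namespace Pool.Agent.Helper71.HX

open Polynomial Finset Pool.Agent.Helper71.JN Pool.Agent.Helper71.HN Pool.Agent.Helper77.HE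

/-- (FLG) subspaces `W b` of `K ^ κ` of codimension at most `b` give a triangular family. Let
`n = card κ`. Induction on `m ≤ n`: there are `P : Finset κ` with `m` elements, `u : κ → κ → K`,
`ρ : κ → ℕ`, injective on `P`, with `n - m ≤ ρ k < n`, `u k ∈ W (ρ k)`, `u k k = 1`,
`v (u k l) ≤ 1` for `k ∈ P`, and `u k l = 0` if `k, l ∈ P` and `ρ k < ρ l`. Step: `b = n - 1 - m`; the
vectors of `W b` with the coordinates `l ∈ P` equal to `0` form a space of dimension `≥ 1` (kernel of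
`W b → (P → K)`); take one which is not `0`, divide by the coordinate of the largest size. At the
end `f k = ∑ l, u k l • e l` -/
def ST_FLG : Prop := ∀ (F Ω : Type) [Field F] [Field Ω] [Algebra F Ω] (K : IntermediateField F Ω)
  (κ : Type) [Fintype κ] (v : AbsoluteValue Ω ℝ) (e : κ → Ω) (W : ℕ → Submodule K (κ → K))
  (s : ℕ → ℝ),
  (∀ b, b < Fintype.card κ → Fintype.card κ ≤ Module.finrank K (W b) + b) →
  (∀ b, b < Fintype.card κ → ∀ u ∈ W b, (∀ k, v (u k : Ω) ≤ 1) →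
    v (∑ k, (u k : Ω) * e k) ≤ s b) →
  ∃ (f : κ → Ω) (ρ : κ → ℕ), Function.Injective ρ ∧ (∀ k, ρ k < Fintype.card κ) ∧
    (∀ k, f k - e k ∈ Submodule.span K (e '' {l | ρ l < ρ k})) ∧ ∀ k, v (f k) ≤ s (ρ k)

/-- (DIV) division by a monic polynomial with integral coefficients (`map_divByMonic` for the
valuation ring `{a | v a ≤ 1}`) -/
def ST_DIV : Prop := ∀ (F Ω : Type) [Field F] [Field Ω] [Algebra F Ω] (K : IntermediateField F Ω)
  (v : AbsoluteValue Ω ℝ) (G P : K[X]), (∀ a b, v (a + b) ≤ max (v a) (v b)) → G.Monic →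
  (∀ i, v (G.coeff i : Ω) ≤ 1) → (∀ i, v (P.coeff i : Ω) ≤ 1) → G ∣ P →
  ∃ Q : K[X], P = G * Q ∧ ∀ i, v (Q.coeff i : Ω) ≤ 1

/-- (SQR) the truncated square root at a pole place (`Helper77.HE.sqrt_poly` for
`reflect (2 g + 2) f`, and `Helper77.HE.aeval_refl`): with `Y = y / x ^ (g + 1)`,
`(Y - S(1/x)) (Y + S(1/x))` has size `≤ exp (- J lam)` and one of the factors has size `≥ 1`, since
their difference is `2 S(1/x)`; `φ = S` or `- S` -/
def ST_SQR : Prop := ∀ (F Ω : Type) [Field F] [Field Ω] [CharZero Ω] [Algebra F Ω]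
  (v : AbsoluteValue Ω ℝ) (g J : ℕ) (f : F[X]) (lam : ℝ) (x y : Ω), Ul v →
  (∀ c : F, c ≠ 0 → v (algebraMap F Ω c) = 1) → f.Monic → f.natDegree = 2 * g + 2 →
  y ^ 2 = aeval x f → 0 < lam → v x = Real.exp lam →
  ∃ φ : F[X], v (y * x⁻¹ ^ (g + 1) - aeval x⁻¹ φ) ≤ Real.exp (-(J * lam))

/-- (LOCA) the flag at a pole place (DIV, SQR with `J = 2 (2 N + g + 1)`). For
`u : Fin (N + g + 1) ⊕ Fin N → K` let
`Ψ u = ∑ n, u n X ^ (N + g - n) + (∑ j, u j X ^ (N - 1 - j)) φ ∈ K[X]`; `W b` = the `u` such that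
`(X - t₀) ^ b` divides `Ψ u` (kernel of `u ↦ Ψ u %ₘ (X - C t₀) ^ b`, a space of dimension `b`).
`x ^ (-(N + g)) (∑ u n x ^ n + ∑ u j x ^ j y) = Ψ u (1/x) + (∑ u j x ^ (-(N - 1 - j))) (Y - φ(1/x))`,
`Y = y / x ^ (g + 1)`, and by DIV `v (Ψ u (1/x)) ≤ v (1/x - t₀) ^ b ≤ exp (b (c - 2 lam))` -/
def ST_LOCA : Prop := ∀ (F Ω : Type) [Field F] [Field Ω] [CharZero Ω] [Algebra F Ω]
  (K : IntermediateField F Ω) (v : AbsoluteValue Ω ℝ) (g N : ℕ) (f : F[X]) (lam c : ℝ)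
  (x y t₀ : Ω), Ul v → (∀ c : F, c ≠ 0 → v (algebraMap F Ω c) = 1) → f.Monic →
  f.natDegree = 2 * g + 2 → y ^ 2 = aeval x f → 0 < lam → v x = Real.exp lam → t₀ ∈ K →
  v t₀ ≤ 1 → 0 ≤ c → c ≤ lam → v (x⁻¹ - t₀) ≤ Real.exp (c - 2 * lam) →
  ∃ W : ℕ → Submodule K ((Fin (N + g + 1) ⊕ Fin N) → K),
    (∀ b, b < 2 * N + g + 1 → 2 * N + g + 1 ≤ Module.finrank K (W b) + b) ∧
    ∀ b, b < 2 * N + g + 1 → ∀ u ∈ W b, (∀ k, v (u k : Ω) ≤ 1) →
      v (∑ k, (u k : Ω) * eE x y (N + g + 1) N k) ≤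
        Real.exp ((N + g) * lam + b * (c - 2 * lam))

/-- (LOCC) the flag at a place where `x` is not large (DIV). With `a = b / (2 k)`: `W b` = the `u` such
that `G ^ a` divides `∑ n, u n X ^ n` and `∑ j, u j X ^ j`; `v y ≤ 1`. `k a ≥ b / 2 - k` -/
def ST_LOCC : Prop := ∀ (F Ω : Type) [Field F] [Field Ω] [CharZero Ω] [Algebra F Ω]
  (K : IntermediateField F Ω) (v : AbsoluteValue Ω ℝ) (g N : ℕ) (f : F[X]) (G : K[X]) (c : ℝ)
  (x y : Ω), Ul v → (∀ c : F, c ≠ 0 → v (algebraMap F Ω c) = 1) → f.Monic →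
  f.natDegree = 2 * g + 2 → y ^ 2 = aeval x f → v x ≤ 1 → G.Monic → 1 ≤ G.natDegree →
  (∀ i, v (G.coeff i : Ω) ≤ 1) → c ≤ 0 → v (aeval x G) ≤ Real.exp (G.natDegree * c) →
  ∃ W : ℕ → Submodule K ((Fin (N + g + 1) ⊕ Fin N) → K),
    (∀ b, b < 2 * N + g + 1 → 2 * N + g + 1 ≤ Module.finrank K (W b) + b) ∧
    ∀ b, b < 2 * N + g + 1 → ∀ u ∈ W b, (∀ k, v (u k : Ω) ≤ 1) →
      v (∑ k, (u k : Ω) * eE x y (N + g + 1) N k) ≤ Real.exp ((b / 2 - G.natDegree) * c)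

/-- (ALGO) the optimal form of `algG` (FLG, LOCA, LOCC). Let `lam i = log max 1 (nu i x)`,
`ψ i = max (c i) (c i / 2)`, `n = 2 N + g + 1`. At every place the product over `k` of the `v (f k)` is
at most `exp (n (n - 1) / 2 * (ψ i - lam i) + C i * n)`, `C i` independent of `N`:
(a) `1 < nu i x`, first alternative, `c i < lam i`: LOCA with `t₀ = 1 / R`, as
`nu i R = nu i x`, `nu i (1/x - 1/R) ≤ exp (c i - 2 lam i)`; (b) `1 < nu i x` otherwise: then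
`lam i ≤ c i` (second alternative: `nu i (aeval x G) = (nu i x) ^ deg G` as the coefficients of `G`
are slow); LOCA with `t₀ = 0`, `c = lam i`; `∑_{b < n} ((N + g) lam + b (c - 2 lam)) =
n (n - 1) / 2 (c - lam) + n g lam / 2`. (c) `nu i x ≤ 1`, `c i < 0`: LOCC with `G` (mapped to `K`);
(d) `nu i x ≤ 1`, `0 ≤ c i`: LOCC with `G = X`, `c = 0`. The basis is `m ^ (N + g) * eE x y`
(`eE_indep`, as in `algG`), the additional cost `n (N + g) ∑ log (nu i m)`. `GSKP` with `g = 1` -/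
def ST_ALGO : Prop := ∀ (F Ω : Type) [Field F] [Field Ω] [CharZero Ω] [Algebra F Ω] (I : Type)
  [Fintype I] (r : ℕ) (D : SSF F Ω I r) (K : IntermediateField F Ω) (_ : GSKP D K) (g : ℕ)
  (f : F[X]) (m x y : Ω) (c : I → ℝ), f.Monic → f.natDegree = 2 * g + 2 → f.Separable → m ≠ 0 →
  m ∈ D.O → m * x ∈ D.O → m ^ (g + 1) * y ∈ D.O → y ^ 2 = aeval x f →
  (∀ i, (0 ≤ c i ∧ ∃ R ∈ K, D.nu i (x - R) ≤ Real.exp (c i)) ∨
    ∃ G : F[X], G.Monic ∧ 1 ≤ G.natDegree ∧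
      D.nu i (aeval x G) ≤ Real.exp (G.natDegree * c i)) →
  ∑ i, Real.log (D.nu i m) + ∑ i, max (c i) (c i / 2) < ∑ i, Real.log (max 1 (D.nu i x)) →
  IsIntegral K x

end Pool.Agent.Helper71.HX
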