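import Pool.Agent.Helper71.HN.AsmO
import Pool.Agent.Helper71.HP.IND
import Pool.Agent.Helper77.HE.FlgX
import Pool.Agent.Helper91.HX.DIV
import Pool.Agent.Helper2.HN.LOCO
import Pool.Agent.Helper2.HN.SQO
import Pool.Agent.Helper12.HN.LOCD
import Pool.Agent.Helper72.HP.ALGP
import Pool.Agent.Helper28.HN.TRP
import Pool.Agent.Helper52.HP.BRGP
import Pool.Agent.Helper20.HN.T1P
import Pool.Agent.Helper12.HN.FINP

/-! Assembly of sheet P. -/

set_option autoImplicit false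

namespace Pool.Agent.Helper71.HP

open Pool.Agent.Helper70.SUB Pool.Agent.Helper70.SUBL Pool.Agent.Helper77.SUBK
  Pool.Agent.Helper70.SUBW Pool.Agent.Helper71.JN Pool.Agent.Helper71.HN
  Pool.Agent.Helper71.HZ Pool.Agent.Helper71.HE Pool.Agent.Helper71.HX

theorem p_alg : ST_ALGP := Pool.Agent.Helper72.HP.ALGP Pool.Agent.Helper77.HE.FLG
  Pool.Agent.Helper2.HP.SQO (Pool.Agent.Helper2.HP.LOCO Pool.Agent.Helper91.HX.div)
  (Pool.Agent.Helper12.HP.LOCD Pool.Agent.Helper91.HX.div) IND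
theorem p_tr : ST_TRP := Pool.Agent.Helper28.HP.TRP h_dex h_ltr Pool.Agent.Helper28.HN.DEL
  Pool.Agent.Helper28.HN.DBD (Pool.Agent.Helper25.HN.PIV j_rk)
  (Pool.Agent.Helper2.HN.PRQ j_prim j_rk) j_rk Pool.Agent.Helper17.HN.WPT
  Pool.Agent.Helper12.HZ.NPTZ
theorem p_brg : ST_BRGP := Pool.Agent.Helper52.HP.BRGP p_alg p_tr j_mong j_ssfx j_rdx j_omg j_osr
  w_slw (OIC j_omg)
theorem p_t1 : ST_T1P := Pool.Agent.Helper20.HP.T1P w_slw u_sph p_brg
/-- odd degree: rational points near sparse squares or near roots of small polynomials, in the mean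
over the places -/
theorem p_fin : ST_FINP := Pool.Agent.Helper12.HP.FINP p_t1 Pool.Agent.Helper18.HO.SUBO
  Pool.Agent.Helper25.HN.HCO e_htt e_fld Pool.Agent.Helper28.HZ.EMB

end Pool.Agent.Helper71.HP
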