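import Pool.Agent.Helper71.HN.AsmP
import Pool.Agent.Helper77.HE.SheetG3
import Pool.Agent.Helper2.HN.P2rows
import Pool.Agent.Helper12.HP.ALGP2
import Pool.Agent.Helper52.HP.BRGP2
import Pool.Agent.Helper48.HN.T1P3
import Pool.Agent.Helper2.HN.FINP3

/-! Assembly of sheet P3. -/

set_option autoImplicit false

namespace Pool.Agent.Helper71.HP3

open Pool.Agent.Helper70.SUB Pool.Agent.Helper70.SUBL Pool.Agent.Helper77.SUBK
  Pool.Agent.Helper70.SUBW Pool.Agent.Helper71.JN Pool.Agent.Helper71.HN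
  Pool.Agent.Helper71.HZ Pool.Agent.Helper71.HE Pool.Agent.Helper71.HX Pool.Agent.Helper71.HP
  Pool.Agent.Helper77.HP2 Pool.Agent.Helper77.HG3

theorem p2_alg : ST_ALGP2 := Pool.Agent.Helper12.HP.ALGP2 Pool.Agent.Helper77.HE.FLG
  Pool.Agent.Helper2.HP.SQO2 (Pool.Agent.Helper2.HP.LOCO2 Pool.Agent.Helper91.HX.div)
  (Pool.Agent.Helper12.HP.LOCD Pool.Agent.Helper91.HX.div) IND
theorem p2_brg : ST_BRGP2 := Pool.Agent.Helper52.HP2.BRGP2 p2_alg p_tr j_mong j_ssfx j_rdx j_omg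
  j_osr w_slw (OIC j_omg)
theorem p3_t1 : ST_T1P3 := Pool.Agent.Helper48.HP.T1P3 w_slw u_sph p2_brg
/-- odd degree, the final form -/
theorem p3_fin : ST_FINP3 := Pool.Agent.Helper2.HP3.FINP3 p3_t1 Pool.Agent.Helper18.HO.SUBO
  Pool.Agent.Helper25.HN.HCO e_htt e_fld Pool.Agent.Helper28.HZ.EMB

end Pool.Agent.Helper71.HP3
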