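import Pool.Agent.Helper71.HN.Asm
import Pool.Agent.Helper71.HN.BRGZ
import Pool.Agent.Helper12.HN.FLDZ
import Pool.Agent.Helper12.HN.NPTZ
import Pool.Agent.Helper12.HN.FINZ
import Pool.Agent.Helper18.HN.SGNZ
import Pool.Agent.Helper20.HN.LFGZ
import Pool.Agent.Helper25.HN.HTK
import Pool.Agent.Helper28.HN.EMB
import Pool.Agent.Helper28.HN.TRZ
import Pool.Agent.Helper52.HN.ALGZ
import Pool.Agent.Helper2.HN.T1Z

/-! Assembly of project HZ. -/

set_option autoImplicit false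

namespace Pool.Agent.Helper71.HZ

open Pool.Agent.Helper70.SUB Pool.Agent.Helper70.SUBL Pool.Agent.Helper77.SUBK
  Pool.Agent.Helper70.SUBW Pool.Agent.Helper71.JN Pool.Agent.Helper71.HN

theorem z_lfg : ST_LFGZ := Pool.Agent.Helper20.HZ.LFGZ
  (Pool.Agent.Helper16.HN.CUSG Pool.Agent.Helper16.HN.FEW) v_bin
theorem z_alg : ST_ALGZ := Pool.Agent.Helper52.HZ.ALGZ z_lfg
theorem z_tr : ST_TRZ := Pool.Agent.Helper28.HZ.TRZ h_dex h_ltr Pool.Agent.Helper28.HN.DEL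
  Pool.Agent.Helper28.HN.DBD (Pool.Agent.Helper25.HN.PIV j_rk)
  (Pool.Agent.Helper2.HN.PRQ j_prim j_rk) j_rk Pool.Agent.Helper17.HN.WPT
  Pool.Agent.Helper12.HZ.NPTZ
/-- the abstract theorem -/
theorem z_heart : ST_HEARTZ := fun F Ω _ _ _ _ I _ r D g f m x y R h => by
  obtain ⟨J, lam, c, R', h'⟩ := Pool.Agent.Helper18.HZ.SGNZ j_rk F Ω I r D g f m x y R h
  exact z_tr F Ω I r D J g f lam c m x y R' h' (z_alg F Ω I r D J g f lam c m x y R' h')
theorem z_brg : ST_BRGZ := BRGZ j_mong j_ssfx j_rdx j_omg j_osr z_heart w_slw (OIC j_omg)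
theorem z_t1 : ST_T1Z := Pool.Agent.Helper2.HZ.T1Z w_pfe w_slw w_spw u_sph z_brg
/-- a linear height bound, uniform in `F`, for points near sparse squares, over number fields -/
theorem z_fin : ST_FINZ := Pool.Agent.Helper12.HZ.FINZ z_t1 Pool.Agent.Helper28.HZ.EMB
  Pool.Agent.Helper25.HZ.HTK (Pool.Agent.Helper12.HZ.FLDZ k_svb)

end Pool.Agent.Helper71.HZ
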