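import Pool.Agent.Helper71.JN.SheetD

/-!
Project HN (MP_2a8cc2_nt, fourth hand-in): rational points of `y ^ 2 = f x`, `f` of odd degree
`2 g + 1`, near a sparse square: if `den x * max 1 |x - a r ^ 2| ≤ |x| ^ θ`, `θ < 1/2`, `a` the
leading coefficient, `r = p / q` with sparse `p, q`, then `ht x ≤ C (h(f) + 1)`.

Abstract part: `f` monic with coefficients in the field `F` of slow elements, `K = F(w)`, `x`, `y`
in `Ω`. Part A (ALGH): `x` is algebraic over `K` (Subspace theorem). Part B (TRH): for a derivation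
`δ = w_k ∂/∂w_k` of `K`, extended to `L = K(x, y)`, the trace `T` of `δ x / y` lies in `R` and is
small, so `T = 0`; but near infinity `T` is close to `2 [L : K] δR / R ^ (2 g)`.
-/

set_option autoImplicit false

namespace Pool.Agent.Helper71.HN

open Polynomial Filter Finset Pool.Agent.Helper70.SUB Pool.Agent.Helper77.SUBK
  Pool.Agent.Helper70.SUBL Pool.Agent.Helper70.SUBW Pool.Agent.Helper71.JN

/-! ## H1. Derivations and absolute values (pure algebra) -/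

/-- derivations of a field, as functions -/
def Dv {K : Type} [Field K] (δ : K → K) : Prop :=
  (∀ a b, δ (a + b) = δ a + δ b) ∧ ∀ a b, δ (a * b) = a * δ b + b * δ a

/-- non-archimedean absolute values with residue characteristic `0` -/
def Ul {K : Type} [Field K] (v : AbsoluteValue K ℝ) : Prop :=
  (∀ a b, v (a + b) ≤ max (v a) (v b)) ∧ ∀ q : ℚ, q ≠ 0 → v (q : K) = 1

/-- `δ` is bounded for `v`; if `s` holds it maps the valuation ring to the maximal ideal -/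
def Bd {K : Type} [Field K] (v : AbsoluteValue K ℝ) (s : Prop) (δ : K → K) : Prop :=
  (∀ z, v (δ z) ≤ v z) ∧ (s → ∀ z, v z ≤ 1 → v (δ z) < 1)

/-- (DEX) derivations extend to finite extensions
(Mathlib: `Differential.differentialFiniteDimensional`) -/
def ST_DEX : Prop := ∀ (K L : Type) [Field K] [Field L] [CharZero K] [Algebra K L]
  [FiniteDimensional K L] (δ : K → K), Dv δ →
  ∃ Δ : L → L, Dv Δ ∧ ∀ a, Δ (algebraMap K L a) = algebraMap K L (δ a)

/-- (LOC) tame extensions of a henselian field (`v` is invariant under the Galois group). Proof,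
for the strong form: for every intermediate field `E` such that `v (δ z) ≤ v z` (and, if `s`,
`v z = 1 → v (δ z) < 1`) for `z ∈ E`, the same holds for all `z ∈ N`; induction on the degree `n` of
`z` over `E`, for all `E`. Subtract the mean `c ∈ E` of the conjugates of `z` (`v c ≤ v z`,
`v n = 1`): we may suppose trace `0`, `z ≠ 0`, `t = v z`. Let `B` be the set of the conjugates `a` of
`z` over `E` with `v (a - z) < t`, `g = ∏_{a ∈ B} (X - a)`, `E'` the field generated over `E` by the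
coefficients of `g`. `B` is not the set of all conjugates (else `n z = ∑ (z - a)` has size `< t`).
`Gal(N/E)` permutes the balls of radius `t`, so: `E' ⊆ E(z)` (what fixes `z` fixes `g`); the
conjugates of `z` over `E'` are exactly `B`. (i) `|B| = 1`: with the minimal polynomial `h` of `z`
over `E`, `h'(z) δz = - h^δ(z)`, `v (h'(z)) = t ^ (n - 1)`, the coefficients have size
`≤ t ^ (n - k)`, so `v (δ z) ≤ t` (`< 1` if `s` and `t = 1`). (ii) `|B| > 1`: elements of `E'` have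
degree `≤ n / |B| < n` over `E`, and `z` has degree `|B| < n` over `E'`: induction, twice. -/
def ST_LOC : Prop := ∀ (K N : Type) [Field K] [Field N] [CharZero K] [Algebra K N]
  [FiniteDimensional K N] [IsGalois K N] (v : AbsoluteValue N ℝ) (s : Prop) (δ : N → N), Ul v →
  (∀ (σ : N ≃ₐ[K] N) z, v (σ z) = v z) → Dv δ →
  (∀ z : K, v (δ (algebraMap K N z)) ≤ v (algebraMap K N z)) →
  (s → ∀ z : K, v (algebraMap K N z) ≤ 1 → v (δ (algebraMap K N z)) < 1) → Bd v s δ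

/-- (CPL) completion: `ν` extends to an absolute value of a field `K'` which extends to every finite
Galois extension of `K'`, invariant under the Galois group. If `ν` is trivial take `K' = K` and
trivial absolute values; otherwise `K' = ν.Completion` (Mathlib), the derivation extends by
continuity, and `v` is the spectral norm (`spectralMulAlgNorm`, `spectralNorm_eq_of_equiv`) -/
def ST_CPL : Prop := ∀ (K : Type) [Field K] [CharZero K] (ν : AbsoluteValue K ℝ) (s : Prop)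
  (δ : K → K), Ul ν → Dv δ → Bd ν s δ →
  ∃ (K' : Type) (_ : Field K') (_ : CharZero K') (ι : K →+* K') (ν' : AbsoluteValue K' ℝ)
    (δ' : K' → K'), Ul ν' ∧ Dv δ' ∧ Bd ν' s δ' ∧ (∀ z, ν' (ι z) = ν z) ∧
    (∀ z, δ' (ι z) = ι (δ z)) ∧
    ∀ (N : Type) [Field N] [Algebra K' N] [FiniteDimensional K' N] [IsGalois K' N],
      ∃ v : AbsoluteValue N ℝ, (∀ a b, v (a + b) ≤ max (v a) (v b)) ∧
        (∀ z, v (algebraMap K' N z) = ν' z) ∧ ∀ (σ : N ≃ₐ[K'] N) z, v (σ z) = v z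

/-- (LTR) the trace as a sum over embeddings into a field where the derivation is bounded (DEX,
LOC, CPL). `N` = a splitting field over `K'` of the image of the minimal polynomial of a primitive
element `θ` of `L` over `K`; the embeddings `σ` correspond to the roots; `Algebra.trace` is the sum
over the embeddings (e.g. compare with the base change to an algebraic closure of `N`, or use
`trace_eq_sum_embeddings` for `N` replaced by its algebraic closure: all the embeddings have values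
in `N`); `δ'` and `σ ∘ Δ` agree: both are the unique solution of `h'(θ) δθ = - h^δ(θ)` -/
def ST_LTR : Prop := ∀ (K L : Type) [Field K] [Field L] [CharZero K] [Algebra K L]
  [FiniteDimensional K L] (ν : AbsoluteValue K ℝ) (s : Prop) (δ : K → K) (Δ : L → L), Ul ν →
  Dv δ → Bd ν s δ → Dv Δ → (∀ a, Δ (algebraMap K L a) = algebraMap K L (δ a)) →
  ∃ (N : Type) (_ : Field N) (v : AbsoluteValue N ℝ) (ι : K →+* N) (δ' : N → N)
    (T : Finset (L →+* N)), Ul v ∧ Dv δ' ∧ Bd v s δ' ∧ (∀ z, v (ι z) = ν z) ∧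
    (∀ z, δ' (ι z) = ι (δ z)) ∧ (∀ σ ∈ T, ∀ z, σ (algebraMap K L z) = ι z) ∧
    (∀ σ ∈ T, ∀ z, δ' (σ z) = σ (Δ z)) ∧ T.card = Module.finrank K L ∧
    ∀ z, ι (Algebra.trace K L z) = ∑ σ ∈ T, σ z

/-! ## H2. The derivations of the field `K` of rational functions in the `w k` -/

section
variable {F Ω : Type} [Field F] [Field Ω] [Algebra F Ω] {I : Type} [Fintype I] {r : ℕ}

/-- `δ k = w_k ∂/∂w_k` -/
structure Del (D : SSF F Ω I r) (δ : Fin r → D.K → D.K) : Prop where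
  dv : ∀ k, Dv (δ k)
  cst : ∀ k (c : F), δ k (algebraMap F D.K c) = 0
  dw : ∀ (k l : Fin r) (z : D.K), (z : Ω) = D.w l → δ k z = if k = l then z else 0

end

/-- (DEL) existence (RK: `ev` is injective, `D.K` is the field of fractions of its image; the
derivation `X_k ∂/∂X_k` of `MvPolynomial` extends to the field of fractions; see
`Helper66.JN.eu`, `Helper77.JN.lder`) -/
def ST_DEL : Prop := ∀ (F Ω : Type) [Field F] [Field Ω] [CharZero Ω] [Algebra F Ω] (I : Type)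
  [Fintype I] (r : ℕ) (D : SSF F Ω I r), ∃ δ : Fin r → D.K → D.K, Del D δ

/-- (DBD) bounds: `nu i (δ z) ≤ nu i z`, and there is equality for some `k` if `nu i z ≠ 1`. For
`z = ev P / ev Q`: `δ z = (ev P' ev Q - ev P ev Q') / ev Q ^ 2`, `nu i (ev p) = max` over the
monomials of `p` (`lau`), so `nu i (ev p') ≤ nu i (ev p)`. If `nu i (δ_k z) < nu i z` for all `k`
let `P_1`, `Q_1` be the sums of the terms of `P`, `Q` with the largest `nu i (mon w m)`; then
`P_1' Q_1 = P_1 Q_1'` for all `k`, so `P_1 = c Q_1` (`Helper77.JN.kernel`, `Helper66.JN.eu_const`) and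
`nu i z = 1` -/
def ST_DBD : Prop := ∀ (F Ω : Type) [Field F] [Field Ω] [CharZero Ω] [Algebra F Ω] (I : Type)
  [Fintype I] (r : ℕ) (D : SSF F Ω I r) (δ : Fin r → D.K → D.K), Del D δ →
  (∀ k i (z : D.K), D.nu i (δ k z : Ω) ≤ D.nu i (z : Ω)) ∧
  ∀ i (z : D.K), z ≠ 0 → D.nu i (z : Ω) ≠ 1 → ∃ k, D.nu i (δ k z : Ω) = D.nu i (z : Ω)

/-- (PIV) an element `T` of `K` which is not in `R` has a pole at a prime `π` of `R`:
`T = ev A / ev B` in lowest terms in `MvPolynomial (Fin r) F` (a UFD), `B` is not a monomial, `π` a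
prime factor of `B` which is not a variable, `ν (ev a / ev b) = 2 ^ (mult π b - mult π a)` -/
def ST_PIV : Prop := ∀ (F Ω : Type) [Field F] [Field Ω] [CharZero Ω] [Algebra F Ω] (I : Type)
  [Fintype I] (r : ℕ) (D : SSF F Ω I r) (δ : Fin r → D.K → D.K) (T : D.K), Del D δ →
  (T : Ω) ∉ D.R → ∃ (ν : AbsoluteValue D.K ℝ) (π : D.K), Ul ν ∧ π ≠ 0 ∧
    (∀ c : F, c ≠ 0 → ν (algebraMap F D.K c) = 1) ∧ (∀ k, Bd ν True (fun z => π * δ k z)) ∧
    (∀ z, ν (π * z) < 1 → ν z ≤ 1) ∧ 1 < ν T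

/-! ## H3. The abstract theorem -/

/-- the hypotheses: `f` is monic of degree `2 g + 1` with coefficients in `F`, `m` is a denominator
of `x`; `J` is the set of archimedean places -/
structure HY {F Ω : Type} [Field F] [Field Ω] [Algebra F Ω] {I : Type} [Fintype I] {r : ℕ}
    (D : SSF F Ω I r) (J : Finset I) (g : ℕ) (f : F[X]) (μ β : ℝ) (m x y : Ω) (R : I → Ω) :
    Prop where
  hg : 1 ≤ g
  fm : f.Monic
  fd : f.natDegree = 2 * g + 1
  fs : f.Separable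
  hμ : 0 ≤ μ
  hβ : μ + β < 1
  hJ : J.Nonempty
  ic : ∀ z : Ω, IsIntegral D.R z → z ∈ D.O
  m0 : m ≠ 0
  mO : m ∈ D.O
  xO : m * x ∈ D.O
  yO : m ^ (g + 1) * y ∈ D.O
  cu : y ^ 2 = aeval x f
  fm1 : ∀ i, i ∉ J → D.nu i m ≤ 1
  fx : ∀ i, i ∉ J → D.nu i (m * x) ≤ 1
  fy : ∀ i, i ∉ J → D.nu i (m ^ (g + 1) * y) ≤ 1
  sm : ∀ i ∈ J, D.nu i m ≤ Real.exp μ
  RR : ∀ i ∈ J, R i ∈ D.K
  s1 : ∀ i ∈ J, D.nu i (R i) = Real.exp 1
  s2 : ∀ i ∈ J, D.nu i (x - R i ^ 2) ≤ Real.exp β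
  s4 : ∀ i ∈ J, D.nu i (y - R i ^ (2 * g + 1)) < Real.exp (2 * g + 1)

/-- the monomial of weight `W` in `x` (weight `2`) and `y` (weight `2 g + 1`) -/
def em {A : Type} [CommSemiring A] (g : ℕ) (x y : A) (W : ℕ) : A :=
  if Even W then x ^ (W / 2) else x ^ ((W - (2 * g + 1)) / 2) * y

/-- the weights which occur -/
def Ok (g W : ℕ) : Prop := Even W ∨ 2 * g + 1 ≤ W

/-- (FEW) a sum of `k` powers of `1 + X` with different exponents is not divisible by `X ^ k`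
(apply `((1 + X) d/dX) ^ i`, `i < k`, at `0`: `∑ v_j W_j ^ i = 0`, Vandermonde; or Descartes) -/
def ST_FEW : Prop := ∀ (k : ℕ) (W : Fin k → ℕ) (v : Fin k → ℚ), Function.Injective W →
  (X : ℚ[X]) ^ k ∣ ∑ j, C (v j) * (1 + X) ^ (W j) → v = 0

/-- (CUSG) the algebraic part of the local form (FEW), as `Helper70.JN.{cusp0, cusp}` (there `g = 1`,
`A = ℚ[X]`, `ε` = evaluation at `0`): the matrix of the coefficients of `X ^ l`, `l < k`; its
determinant `e` has `ε e ≠ 0` by FEW (substitution `1 + X = (1 + T) ^ 2`) -/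
def ST_CUSG : Prop := ∀ (g k K : ℕ) (A : Type) [CommRing A] [Algebra ℚ A] (ε : A →ₐ[ℚ] ℚ)
  (V : A[X]) (p u : ℚ[X]) (W : Fin k → ℕ) (w : ℕ), 1 ≤ k → k ≤ K → p.coeff 0 = 1 →
  p ^ 2 - (1 + X) = X ^ K * u → V.map (ε : A →+* ℚ) = (1 + X) ^ (2 * g + 1) - 1 →
  Function.Injective W → (∀ j, Ok g (W j)) →
  ∃ (c : Fin k → A) (e : A), ε e ≠ 0 ∧ (X : A[X]) ^ k ∣
    ∑ j, C (c j) * em g (1 + X) (aeval V p) (W j) + C e * em g (1 + X) (aeval V p) w

/-- (LFG) the local form at one place (CUSG, BIN), as `Helper70.JN.locf1` and the scaling in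
`Helper70.JN.algw`: `A = MvPolynomial (Fin (2 g + 1)) ℚ`, `ε` = constant coefficient,
`V = (1 + X) ^ (2 g + 1) - 1 + ∑_j X_j (1 + X) ^ j`, and the variable `X_j` is mapped to
`f_j R ^ (2 j - 2 (2 g + 1))`, of size `< 1`, in `K`; `x = R ^ 2 (1 + s)`, `v s ≤ exp (β - 2)` -/
def ST_LFG : Prop := ∀ (F Ω : Type) [Field F] [Field Ω] [CharZero Ω] [Algebra F Ω]
  (v : AbsoluteValue Ω ℝ) (K : IntermediateField F Ω) (g k : ℕ) (f : F[X]) (β : ℝ) (x y R : Ω)
  (W : Fin k → ℕ) (w : ℕ), Ul v → (∀ c : F, c ≠ 0 → v (algebraMap F Ω c) = 1) → R ∈ K →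
  1 ≤ k → f.Monic → f.natDegree = 2 * g + 1 → y ^ 2 = aeval x f → v R = Real.exp 1 → β < 1 →
  v (x - R ^ 2) ≤ Real.exp β → v (y - R ^ (2 * g + 1)) < Real.exp (2 * g + 1) →
  Function.Injective W → (∀ j, Ok g (W j) ∧ W j < w) → Ok g w →
  ∃ c : Fin k → Ω, (∀ j, c j ∈ K) ∧
    v (em g x y w + ∑ j, c j * em g x y (W j)) ≤ Real.exp (w + k * (β - 2))

/-- (ALGH) `x` is algebraic over `K`. (LFG, `Helper70.JN.gskP`), as `Helper70.JN.algw`
(there `g = 1`, `m = 1`). For `k ≥ g + 1` and `w = k + g` there are exactly `k` weights `< w` (`Ok`), so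
LFG gives for `i ∈ J` a form `G_i`, monic of weight `w`, of size `≤ exp (g - k (1 - β))`. GSK with
`e j = m ^ A * em (wt j)`, `j < N` (`wt` = the enumeration of the `Ok` weights, `j ≤ wt j ≤ j + g`),
`A = (N + g + 1) / 2 + 1`; `f i j = m ^ A * G_i ^ l * em (W - l w)` with `W = wt j`,
`l = (W - 2 g) / w` (all weights `≥ 2 g` are `Ok`) for `i ∈ J`, `e j` for `i ∉ J`: for `i ∈ J` the
product over `j` is at most `exp (N ^ 2 / 2 * ((g - k (1 - β)) / (k + g) + μ) + C N) < 1` for `k` and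
then `N` large, as `μ + β < 1`. -/
def ST_ALGH : Prop := ∀ (F Ω : Type) [Field F] [Field Ω] [CharZero Ω] [Algebra F Ω] (I : Type)
  [Fintype I] (r : ℕ) (D : SSF F Ω I r) (J : Finset I) (g : ℕ) (f : F[X]) (μ β : ℝ)
  (m x y : Ω) (R : I → Ω), HY D J g f μ β m x y R → IsIntegral D.K x

/-- (PRQ) PRIM for elements with a denominator in `R` (PRIM, RK; see `Helper2.JN` SPNK, `Den`) -/
def ST_PRQ : Prop := ∀ (F Ω : Type) [Field F] [Field Ω] [Algebra F Ω] (I : Type) [Fintype I]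
  (r : ℕ) (D : SSF F Ω I r) (z : Ω), (∃ q ∈ D.R, q ≠ 0 ∧ q * z ∈ D.O) → IsIntegral D.K z →
  ∀ i (k : ℕ), D.nu i (((minpoly D.K z).coeff k : D.K) : Ω)
    ≤ D.nu i z ^ ((minpoly D.K z).natDegree - k)

/-- (WPT) `δ x / y` is integral at every point of the curve. `δ` is zero on the coefficients, so
`2 b δb = f'(a) δa`; with `A f + B f' = 1`: `δa / b = A(a) b δa + 2 B(a) δb`. If `v a ≤ 1` then
`v b ≤ 1` and the formula gives the bound; if `v a > 1` then `v b ^ 2 = v a ^ (2 g + 1)` and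
`v (δa / b) ≤ v a / v b < 1` -/
def ST_WPT : Prop := ∀ (F N : Type) [Field F] [Field N] (τ : F →+* N) (v : AbsoluteValue N ℝ)
  (s : Prop) (δ : N → N) (g : ℕ) (f : F[X]) (a b : N), Ul v → Dv δ → Bd v s δ →
  (∀ c, c ≠ 0 → v (τ c) = 1) → (∀ c, δ (τ c) = 0) → 1 ≤ g → f.Monic →
  f.natDegree = 2 * g + 1 → f.Separable → b ^ 2 = (f.map τ).eval a → b ≠ 0 →
  v (δ a / b) ≤ 1 ∧ (s → v (δ a / b) < 1)

/-- (NPT) `δ x / y` near infinity:
`δa / b - 2 R δR / R ^ d = (δ(a - R ^ 2) R ^ d - 2 R δR (b - R ^ d)) / (R ^ d b)` -/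
def ST_NPT : Prop := ∀ (N : Type) [Field N] (v : AbsoluteValue N ℝ) (s : Prop) (δ : N → N)
  (g : ℕ) (a b R : N), Ul v → Dv δ → Bd v s δ → 1 ≤ g → v R = Real.exp 1 →
  v (a - R ^ 2) < Real.exp 1 → v (b - R ^ (2 * g + 1)) < Real.exp (2 * g + 1) →
  v (δ a / b - 2 * R * δ R / R ^ (2 * g + 1)) < Real.exp (1 - 2 * g)

/-- (TRH) the contradiction (DEX, LTR, DEL, DBD, PIV, PRQ, RK, WPT, NPT). `y` is algebraic over `K`,
`nu i y = exp (2 g + 1)` for `i ∈ J`, so `y ≠ 0`. `L = K(x, y)` (adjoin in `Ω`), `Δ` = the extension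
of `δ k` (DEX), `T = trace (Δ x / y) ∈ K`.
(a) `T ∈ R`: otherwise take `ν`, `π` from PIV and LTR for `π δ_k`, `π Δ` (`s = True`); for every `σ` of
LTR `v (σ (π Δx / y)) < 1` by WPT (`a = σ x`, `b = σ y`). So `ν (π T) < 1`, `ν T ≤ 1`, contradiction.
(b) `nu i T ≤ 1` for all `i`: the same with LTR for `nu i` restricted to `K`, `δ k`, `s = False`
(bounded by DBD). (c) `i ∈ J`: `x - R i ^ 2` and
`y - R i ^ (2 g + 1)` have denominators in `R` (`q x` is integral over `R` for some `q ∈ R`, so it is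
in `D.O` by `ic`), so their conjugates are not larger (PRQ: a root `a` of a monic polynomial with
coefficients of size `≤ c ^ (n - k)` has `v a ≤ c`); `v (σ x - R ^ 2) ≤ exp β`, `β < 1`; by NPT
`nu i (T - 2 n R δR / R ^ (2 g + 1)) < exp (1 - 2 g)`, `n = [L : K]`, `nu i T ≤ exp (1 - 2 g) < 1`. Product formula
(RK): `T = 0` for every `k`. (d) DBD for some `i ∈ J` and `z = R i`: for some `k`,
`nu i (δ R) = exp 1`, so `nu i T = exp (1 - 2 g)`, contradiction -/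
def ST_TRH : Prop := ∀ (F Ω : Type) [Field F] [Field Ω] [CharZero Ω] [Algebra F Ω] (I : Type)
  [Fintype I] (r : ℕ) (D : SSF F Ω I r) (J : Finset I) (g : ℕ) (f : F[X]) (μ β : ℝ)
  (m x y : Ω) (R : I → Ω), HY D J g f μ β m x y R → IsIntegral D.K x → False

/-- (HEARTH) (ALGH, TRH) -/
def ST_HEARTH : Prop := ∀ (F Ω : Type) [Field F] [Field Ω] [CharZero Ω] [Algebra F Ω] (I : Type)
  [Fintype I] (r : ℕ) (D : SSF F Ω I r) (J : Finset I) (g : ℕ) (f : F[X]) (μ β : ℝ)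
  (m x y : Ω) (R : I → Ω), ¬ HY D J g f μ β m x y R

/-! ## H4. Application -/

/-- (OIC) the ring `D.O` is integrally closed in `Om`: a sequence which satisfies a monic equation
with coefficients in `OS` is in `OS` (multiply by a common slow denominator; the size of a root) -/
def ST_OIC : Prop := ∀ (M : Type) [Field M] [NumberField M] [IsGalois ℚ M] (S : Finset ℕ)
  (P : PF S M) (φ : Ultrafilter ℕ) (X : ℕ → ℝ) (r : ℕ) (w : Fin r → ℕ → M)
  (D : SSF (Sl P φ X) (Om P φ X) (Pl S M) r),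
  (∀ p ∈ S, p.Prime) → Tendsto X (φ : Filter ℕ) atTop → (∀ k, MU P φ X (w k)) →
  IsD P φ X w D → ∀ z : Om P φ X, IsIntegral D.R z → z ∈ D.O

/-- rational sequences which are integral up to slow denominators -/
def SlI (φ : Ultrafilter ℕ) (X : ℕ → ℝ) (z : ℕ → ℚ) : Prop :=
  ∀ ε : ℝ, 0 < ε → ∀ᶠ j in (φ : Filter ℕ), ∃ D : ℕ, D ≠ 0 ∧ (D : ℝ) ≤ X j ^ ε ∧
    ∃ n : ℤ, (D : ℚ) * z j = (n : ℚ)

/-- the monic polynomial of degree `2 g + 1` with the lower coefficients `a i` -/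
noncomputable def pol (g : ℕ) (a : ℕ → ℚ) : ℚ[X] :=
  X ^ (2 * g + 1) + ∑ i ∈ range (2 * g + 1), C (a i) * X ^ i

/-- (BRGH) from the sequences to the abstract part (MONG, SSFX, RDX, OMG, OSR, SLW, OIC, HEARTH), as
`Helper67.JN.BRGW`: the units are those of `p` and `q`, `R (v, σ) = σ⁻¹ (p / q)`, `J` = the places
above `none`; `f` = the polynomial over `Sl` with the coefficients `gm (a i)`; it is separable
(over `UP M φ` the sequences of the coefficients of `A_j`, `B_j` with `A_j f_j + B_j f_j' = 1`,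
`Polynomial.isCoprime_map`). `nu i (m x) ≤ 1` for `i ∉ J` by `SlI` -/
def ST_BRGH : Prop := ∀ (M : Type) [Field M] [NumberField M] [IsGalois ℚ M] (S : Finset ℕ)
  (P : PF S M) (φ : Ultrafilter ℕ) (g : ℕ) (a : ℕ → ℕ → ℚ) (m : ℕ → ℕ) (x y : ℕ → ℚ)
  (X : ℕ → ℝ) (p q : ℕ → M) (μ β ρ : ℝ), (∀ p ∈ S, p.Prime) → 1 ≤ g → 0 ≤ μ → μ + β < 1 →
  0 < ρ → Tendsto X (φ : Filter ℕ) atTop → SpM P φ X p → SpM P φ X q →
  (∀ i, i < 2 * g + 1 → Slw P φ X (fun j => ((a i j : ℚ) : M))) →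
  SlI φ X (fun j => (m j : ℚ) * x j) → SlI φ X (fun j => (m j : ℚ) ^ (g + 1) * y j) →
  (∀ᶠ j in (φ : Filter ℕ), (pol g (fun i => a i j)).Separable ∧
    y j ^ 2 = (pol g (fun i => a i j)).eval (x j) ∧ m j ≠ 0 ∧ (m j : ℝ) ≤ X j ^ μ ∧
    X j ^ 2 = |((x j : ℚ) : ℝ)| ∧ q j ≠ 0 ∧
    P.nv none ((x j : M) - (p j / q j) ^ 2) ≤ X j ^ β ∧
    P.nv none ((y j : M) - (p j / q j) ^ (2 * g + 1)) ≤ X j ^ ((2 * g + 1 : ℕ) - ρ)) → False

/-- logarithmic height of a rational number -/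
noncomputable def ht (x : ℚ) : ℝ := Real.log (max |(x.num : ℝ)| (x.den : ℝ))

/-- (T1H) the theorem over `M` (PFE, SLW, SPW, SPH, BRGH; `Helper94.JN.T1V`). A sequence of
counterexamples with `C = j + 1`: then `|x| → ∞` along an ultrafilter and the coefficients of `F`
and the `c i`, `d i` are slow for `X = |x / a| ^ (1/2)`, `a` the leading coefficient. Monic form:
`x' = x / a`, `y' = ± y / a ^ (g + 1)`, `a i = F_i a ^ (i - 2 g - 2)`, `m = den x`, `m ≤ X ^ μ` with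
`μ = lim log m / log X` + small, `β = 2 θ + small - μ`. `m ^ (g + 1) y` is integral up to slow
denominators because its square is. The sign of `p` from `y' ^ 2 ~ x' ^ (2 g + 1)` -/
def ST_T1H : Prop := ∀ (M : Type) [Field M] [NumberField M] [IsGalois ℚ M] (S : Finset ℕ)
  (ψ : M →+* ℂ) (t g : ℕ) (κ θ B : ℝ), (∀ p ∈ S, p.Prime) → 1 ≤ g → 0 ≤ θ → θ < 1 / 2 →
  ∃ C : ℝ, 0 < C ∧ ∀ (F : ℚ[X]) (x y : ℚ) (H : ℝ) (c d : Fin t → ℤ) (a b : Fin t → M),
    F.natDegree = 2 * g + 1 → F.Separable → y ^ 2 = F.eval x → (∀ i, ht (F.coeff i) ≤ H) →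
    (∀ i, SV S (a i)) → (∀ i, SV S (b i)) → (∀ i, |(c i : ℝ)| ≤ Real.exp (κ * (H + 1))) →
    (∀ i, |(d i : ℝ)| ≤ Real.exp (κ * (H + 1))) →
    HBZ ψ (|(x : ℝ)| ^ B) (∑ i, (c i : M) * a i) → HBZ ψ (|(x : ℝ)| ^ B) (∑ i, (d i : M) * b i) →
    ∑ i, (d i : M) * b i ≠ 0 →
    (x.den : ℝ) * max 1 ‖(x : ℂ) - (F.coeff (2 * g + 1) : ℂ) *
      ψ ((∑ i, (c i : M) * a i) / ∑ i, (d i : M) * b i) ^ 2‖ ≤ |(x : ℝ)| ^ θ →
    ht x ≤ C * (H + 1)

/-- (FINH) the final theorem (T1H, SVB, `Helper45.SUBK.field_exists`), as FINV -/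
def ST_FINH : Prop := ∀ (Γ : Subgroup ℂˣ) (t d : ℕ) (κ θ B : ℝ), Γ.FG →
  (∀ γ ∈ Γ, IsAlgebraic ℚ ((γ : ℂˣ) : ℂ)) → Odd d → 3 ≤ d → 0 ≤ θ → θ < 1 / 2 →
  ∃ C₁ C₂ : ℝ, 0 < C₁ ∧ 0 < C₂ ∧ ∀ F : ℚ[X], F.natDegree = d → F.Separable →
    ∀ x y : ℚ, y ^ 2 = F.eval x → ∀ H : ℝ, (∀ i, ht (F.coeff i) ≤ H) → ∀ p q : ℂ,
      Sparse Γ t (Real.exp (κ * (H + 1))) (|(x : ℝ)| ^ B) p →
      Sparse Γ t (Real.exp (κ * (H + 1))) (|(x : ℝ)| ^ B) q → q ≠ 0 →
      (x.den : ℝ) * max 1 ‖(x : ℂ) - (F.coeff d : ℂ) * (p / q) ^ 2‖ ≤ |(x : ℝ)| ^ θ →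
      ht x ≤ C₁ * H + C₂

end Pool.Agent.Helper71.HN
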