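import Pool.Agent.Helper71.HN.SheetX
import Pool.Agent.Helper77.HE.SheetG

/-!
Project HX, application (MP_2a8cc2_nt): the theorem of `Pool.Agent.Helper77.HE.SheetG` with the
optimal constants: main inequality
`[K : ℚ] log m + ∑ max (log u) (log u / 2) + δ h ≤ ∑ log max 1 |z|`. -/

set_option autoImplicit false

namespace Pool.Agent.Helper71.HX

open Polynomial Filter Finset Pool.Agent.Helper70.SUB Pool.Agent.Helper77.SUBK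
  Pool.Agent.Helper70.SUBL Pool.Agent.Helper70.SUBW Pool.Agent.Helper71.JN Pool.Agent.Helper71.HN
  Pool.Agent.Helper71.HZ Pool.Agent.Helper71.HE Pool.Agent.Helper71.HO Pool.Agent.Helper77.HE
  Pool.Agent.Helper77.HM

/-! ## Y1. The abstract theorem -/

/-- the hypotheses: as `HG`, with the optimal main inequality -/
structure HX {F Ω : Type} [Field F] [Field Ω] [Algebra F Ω] {I : Type} [Fintype I] {r : ℕ}
    (D : SSF F Ω I r) (g : ℕ) (f : F[X]) (m x y : Ω) (c : I → ℝ) : Prop where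
  hg : 1 ≤ g
  fm : f.Monic
  fd : f.natDegree = 2 * g + 2
  fs : f.Separable
  ic : ∀ z : Ω, IsIntegral D.R z → z ∈ D.O
  m0 : m ≠ 0
  mO : m ∈ D.O
  xO : m * x ∈ D.O
  yO : m ^ (g + 1) * y ∈ D.O
  cu : y ^ 2 = aeval x f
  nx : ¬ IsIntegral F x
  near : ∀ i, (0 ≤ c i ∧ ∃ R ∈ D.K, D.nu i (x - R) ≤ Real.exp (c i)) ∨
    ∃ G : F[X], G.Monic ∧ 1 ≤ G.natDegree ∧
      D.nu i (aeval x G) ≤ Real.exp (G.natDegree * c i)
  main : ∑ i, Real.log (D.nu i m) + ∑ i, max (c i) (c i / 2) <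
    ∑ i, Real.log (max 1 (D.nu i x))

/-- **(HEARTX)** (as `Helper77.HM.HEARTG`) -/
theorem HEARTX (hALGO : ST_ALGO) (hTREM : ST_TREM) {F Ω : Type} [Field F] [Field Ω] [CharZero Ω]
    [Algebra F Ω] {I : Type} [Fintype I] {r : ℕ} (D : SSF F Ω I r) (g : ℕ) (f : F[X]) (m x y : Ω)
    (c : I → ℝ) (H : HX D g f m x y c) : False := by
  classical
  by_cases h1 : ∃ i, ∃ R ∈ D.K, 1 < D.nu i x ∧ D.nu i (x - R) < D.nu i x
  · obtain ⟨i₀, R, hR, h2, h3⟩ := h1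
    exact hTREM F Ω I r D g f x y i₀ R
      { hg := H.hg
        fm := H.fm
        fd := H.fd
        fs := H.fs
        ic := H.ic
        cu := H.cu
        RR := hR
        x1 := h2
        xR := h3 } (hALGO F Ω I r D D.K (gskK D) g f m x y c H.fm H.fd H.fs H.m0 H.mO H.xO
          H.yO H.cu H.near H.main)
  · have h2 : ∀ i, ∀ R ∈ D.K, 1 < D.nu i x → D.nu i x ≤ D.nu i (x - R) := by
      intro i R hR hi
      by_contra h3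
      exact h1 ⟨i, R, hR, hi, not_le.1 h3⟩
    have hG : ∀ i, ∃ c' : ℝ, ((0 ≤ c' ∧ ∃ R ∈ (⊥ : IntermediateField F Ω),
        D.nu i (x - R) ≤ Real.exp c') ∨ ∃ G : F[X], G.Monic ∧ 1 ≤ G.natDegree ∧
        D.nu i (aeval x G) ≤ Real.exp (G.natDegree * c')) ∧ c' ≤ c i := by
      intro i
      rcases H.near i with ⟨h0, R, hR, h4⟩ | h4
      · refine ⟨Real.log (max (D.nu i x) 1), Or.inl ⟨Real.log_nonneg (le_max_right _ _), 0,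
          zero_mem _, ?_⟩, ?_⟩
        · rw [sub_zero, Real.exp_log (lt_of_lt_of_le one_pos (le_max_right _ _))]
          exact le_max_left _ _
        · rcases le_or_gt (D.nu i x) 1 with h5 | h5
          · rw [max_eq_right h5, Real.log_one]
            exact h0
          · rw [max_eq_left h5.le, Real.log_le_iff_le_exp (by linarith)]
            exact (h2 i R hR h5).trans h4
      · exact ⟨c i, Or.inr h4, le_rfl⟩
    choose c' hG hc' using hG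
    have hx : IsIntegral (⊥ : IntermediateField F Ω) x := by
      refine hALGO F Ω I r D ⊥ (gskF D) g f m x y c' H.fm H.fd H.fs H.m0 H.mO H.xO H.yO H.cu hG ?_
      have h3 : ∑ i, max (c' i) (c' i / 2) ≤ ∑ i, max (c i) (c i / 2) :=
        Finset.sum_le_sum fun i _ => max_le_max (hc' i) (by linarith [hc' i])
      linarith [H.main]
    exact H.nx (int_bot hx)

/-! ## Y2. Application -/

/-- (BRGX) as `Helper77.HM.BRGG` (HEARTX): the same with the new main inequality;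
`c log X ≤ log u + ε log X` gives `max c (c / 2) log X ≤ max (log u) (log u / 2) + ε log X` -/
def ST_BRGX : Prop := ∀ (M : Type) [Field M] [NumberField M] [IsGalois ℚ M] (S S₀ : Finset ℕ)
  (P : PF S M) (φ : Ultrafilter ℕ) (k : Option ℕ → (M ≃ₐ[ℚ] M) → ℕ) (g : ℕ) (a : ℕ → ℕ → M)
  (m : ℕ → ℕ) (x y : ℕ → M) (X : ℕ → ℝ) (p q : Option ℕ → (M ≃ₐ[ℚ] M) → ℕ → M)
  (e : Option ℕ → (M ≃ₐ[ℚ] M) → ℕ → ℕ → M)
  (u : Option ℕ → (M ≃ₐ[ℚ] M) → ℕ → ℝ) (A η : ℝ), (∀ p ∈ S, p.Prime) →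
  S₀ ⊆ S → 1 ≤ g → 0 < η → Tendsto X (φ : Filter ℕ) atTop →
  (∀ o ∈ plc S₀, ∀ σ, k o σ = 0 → SpM P φ X (p o σ) ∧ SpM P φ X (q o σ)) →
  (∀ o ∈ plc S₀, ∀ σ, 1 ≤ k o σ → ∀ i, i < k o σ → Slw P φ X (e o σ i)) →
  (∀ i, i < 2 * g + 2 → Slw P φ X (a i)) → IntT S₀ φ X (fun j => (m j : M) * x j) →
  IntT S₀ φ X (fun j => (m j : M) ^ (g + 1) * y j) → ¬ Slw P φ X x →
  (∀ᶠ j in (φ : Filter ℕ), (polD M (2 * g + 2) (fun i => a i j)).Separable ∧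
    y j ^ 2 = (polD M (2 * g + 2) (fun i => a i j)).eval (x j) ∧ m j ≠ 0 ∧
    (m j : ℝ) ≤ X j ^ A ∧
    (∀ o ∈ plc S, ∀ σ : M ≃ₐ[ℚ] M, P.nv o (σ (x j)) ≤ X j ^ A) ∧
    (∀ o ∈ plc S₀, ∀ σ : M ≃ₐ[ℚ] M, X j ^ (-A) ≤ u o σ j ∧
      (1 ≤ k o σ → P.nv o (σ ((polD M (k o σ) (fun i => e o σ i j)).eval (x j))) ≤
        u o σ j ^ k o σ) ∧
      (k o σ = 0 → 1 ≤ u o σ j ∧ q o σ j ≠ 0 ∧
        P.nv o (σ (x j - p o σ j / q o σ j)) ≤ u o σ j)) ∧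
    (Fintype.card (M ≃ₐ[ℚ] M) : ℝ) * Real.log (m j) +
      ∑ o ∈ plc S₀, ∑ σ : M ≃ₐ[ℚ] M, max (Real.log (u o σ j)) (Real.log (u o σ j) / 2) +
      η * Real.log (X j) ≤
      ∑ o ∈ plc S₀, ∑ σ : M ≃ₐ[ℚ] M, Real.log (max 1 (P.nv o (σ (x j))))) → False

/-- (T1X) as `Helper20.HM.T1G` -/
def ST_T1X : Prop := ∀ (M : Type) [Field M] [NumberField M] [IsGalois ℚ M] (S S₀ : Finset ℕ)
  (P : PF S M) (k : Option ℕ → (M ≃ₐ[ℚ] M) → ℕ) (t g : ℕ) (κ δ B : ℝ), (∀ p ∈ S, p.Prime) →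
  S₀ ⊆ S → 1 ≤ g → 0 < δ → 0 < B →
  ∃ C : ℝ, 0 < C ∧ ∀ (F : M[X]) (x y sq : M) (H T : ℝ) (m : ℕ)
    (c d a b : Option ℕ → (M ≃ₐ[ℚ] M) → Fin t → M) (e : Option ℕ → (M ≃ₐ[ℚ] M) → ℕ → M)
    (u : Option ℕ → (M ≃ₐ[ℚ] M) → ℝ), 0 ≤ H → F.natDegree = 2 * g + 2 → F.Separable →
    y ^ 2 = F.eval x → F.coeff (2 * g + 2) = sq ^ 2 →
    (∀ i, HBZ P.emb (Real.exp (κ * (H + 1))) (F.coeff i)) → m ≠ 0 → SI S₀ ((m : M) * x) →
    (m : ℝ) ≤ Real.exp (B * T) →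
    (∀ o ∈ plc S, ∀ σ : M ≃ₐ[ℚ] M, P.nv o (σ x) ≤ Real.exp (B * T)) →
    ¬ HBZ P.emb (Real.exp (T / B)) x →
    (∀ o ∈ plc S₀, ∀ σ, Real.exp (-(B * T)) ≤ u o σ ∧
      (1 ≤ k o σ → (∀ i, HBZ P.emb (Real.exp (κ * (H + 1))) (e o σ i)) ∧
        P.nv o (σ ((polD M (k o σ) (e o σ)).eval x)) ≤ u o σ ^ k o σ) ∧
      (k o σ = 0 → 1 ≤ u o σ ∧ (∀ i, SV S (a o σ i)) ∧ (∀ i, SV S (b o σ i)) ∧
        (∀ i, HBZ P.emb (Real.exp (κ * (H + 1))) (c o σ i)) ∧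
        (∀ i, HBZ P.emb (Real.exp (κ * (H + 1))) (d o σ i)) ∧
        HBZ P.emb (Real.exp (B * T)) (∑ i, c o σ i * a o σ i) ∧
        HBZ P.emb (Real.exp (B * T)) (∑ i, d o σ i * b o σ i) ∧
        ∑ i, d o σ i * b o σ i ≠ 0 ∧
        P.nv o (σ (x - (∑ i, c o σ i * a o σ i) / ∑ i, d o σ i * b o σ i)) ≤ u o σ)) →
    (Fintype.card (M ≃ₐ[ℚ] M) : ℝ) * Real.log m +
      ∑ o ∈ plc S₀, ∑ σ : M ≃ₐ[ℚ] M, max (Real.log (u o σ)) (Real.log (u o σ) / 2) + δ * T ≤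
      ∑ o ∈ plc S₀, ∑ σ : M ≃ₐ[ℚ] M, Real.log (max 1 (P.nv o (σ x))) →
    T ≤ C * (H + 1)

/-- (FINX) as `Helper2.HM.FING` -/
def ST_FINX : Prop := ∀ (K : Type) [Field K] [NumberField K] (h : K → ℝ), IsHt K h →
  ∀ (S : Finset ℕ) (w : ℕ → AbsoluteValue ℂ ℝ), Ext S w →
  ∀ (Γ : Subgroup Kˣ) (t n d : ℕ) (κ δ B : ℝ), Γ.FG → 3 ≤ d → 0 < δ →
    ∃ C₁ C₂ : ℝ, 0 < C₁ ∧ 0 < C₂ ∧ ∀ F : K[X], F.natDegree = d → F.Separable →
      ∀ x y : K, y ^ 2 = F.eval x → ∀ H : ℝ, (∀ i, h (F.coeff i) ≤ H) →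
        ∀ z : K, ((Even d ∧ SqClass Γ (F.coeff d) ∧ x = z) ∨
          ∃ e : K, h e ≤ κ * (H + 1) ∧ F.eval e ≠ 0 ∧ SqClass Γ (F.eval e) ∧ z ≠ 0 ∧
            x = e + 1 / z) →
        ∀ (m : ℕ) (u : Option ℕ → (K →+* ℂ) → ℝ), m ≠ 0 → SI S ((m : K) * z) →
          (∀ o ∈ plc S, ∀ τ, Real.exp (-(B * h x)) ≤ u o τ ∧
            NearG h Γ t n (κ * (H + 1)) (B * h x) w z o τ (u o τ)) →
          (Module.finrank ℚ K : ℝ) * Real.log m +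
            ∑ o ∈ plc S, ∑ τ : K →+* ℂ, max (Real.log (u o τ)) (Real.log (u o τ) / 2) +
            δ * h x ≤
            ∑ o ∈ plc S, ∑ τ : K →+* ℂ, Real.log (max 1 (pv w o (τ z))) →
          h x ≤ C₁ * H + C₂

end Pool.Agent.Helper71.HX
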